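import Pool.Agent.Helper49.TP.Norm
import Pool.Agent.Helper49.CP.Conic

/-!
# Closed subsets of the line, cones in the plane
-/

set_option autoImplicit false

namespace Pool.Agent.Helper49.TP

open Pool.Agent.Helper29.CQ Pool.Agent.Helper65.CC Pool.Agent.Helper87.CC
  Pool.Agent.Helper65.CC.KFn
open Pool.Agent.Helper71.PN
open Pool.Agent.Helper49.CP (scCls)
open Polynomial

variable {K : Type} [Field K] {G : ∀ (R : Type) [CommRing R] [Algebra K R], Prop}

/-- the polynomial of a function on the line -/
noncomputable def pol (u : Coord (A1 K)) : K[X] := u.val (R := K[X]) (X : K[X])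

theorem pol_aeval (u : Coord (A1 K)) {R : Type} [CommRing R] [Algebra K R] (y : R) :
    aeval y (pol u) = u.val (R := R) y := by
  have h1 := u.nat (aeval (R := K) y : K[X] →ₐ[K] R) (X : K[X])
  refine h1.trans ?_
  change u.val (R := R) (aeval y (X : K[X])) = u.val (R := R) y
  rw [aeval_X]

/-- closed subfunctors given by a function which vanishes -/
theorem mem_cls_zero (F : KFn K) (u : Coord F)
    (h : ∀ (R : Type) [CommRing R] [Algebra K R] (x : F.obj R), u.val x = 0)
    (hF : F.Mem G) : (F.cls u).Mem G :=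
  Mem.of_iso
    { hom := fun x => x.1
      inv := fun {R} _ _ x => ⟨x, h R x⟩
      inv_hom := fun _ => rfl
      hom_inv := fun _ => rfl
      nat := fun _ _ => rfl } hF

/-- the point on a closed subset of the line -/
theorem mem_pt (hG : GOps K G) (w : Coord (A1 K)) (a : K) :
    (((A1 K).cls w).cls (subC (resC _ (A1.t K)) a)).Mem G := by
  by_cases h : (pol w).eval a = 0
  · refine Mem.of_iso ?_ (mem_pnt hG)
    exact
      { hom := fun _ => ()
        inv := fun {R} _ _ _ => ⟨⟨algebraMap K R a, by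
          change w.val (R := R) (algebraMap K R a) = 0
          rw [← pol_aeval, aeval_algebraMap_apply, coe_aeval_eq_eval, h, map_zero]⟩, sub_self _⟩
        inv_hom := fun {R} _ _ x => by
          have h1 : (show R from x.1.1) - algebraMap K R a = 0 := x.2
          exact Subtype.ext (Subtype.ext (sub_eq_zero.1 h1).symm)
        hom_inv := fun _ => rfl
        nat := fun _ _ => rfl }
  · refine Mem.of_trivial hG.toKOps fun A _ _ x => ?_
    have h1 : (show A from x.1.1) - algebraMap K A a = 0 := x.2
    have h2 : w.val (R := A) (show A from x.1.1) = 0 := x.1.2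
    rw [← pol_aeval, sub_eq_zero.1 h1, aeval_algebraMap_apply, coe_aeval_eq_eval] at h2
    have h3 := unit_const (R := A) h
    rw [h2] at h3
    exact subsingleton_of_zero_eq_one (isUnit_zero_iff.1 h3)

theorem mem_A1_cls [IsAlgClosed K] (hG : GOps K G) (w : Coord (A1 K)) :
    ((A1 K).cls w).Mem G := by
  by_cases h : pol w = 0
  · refine mem_cls_zero _ _ (fun R _ _ x => ?_) (mem_A1 hG)
    have h1 := pol_aeval w (show R from x)
    rw [h, map_zero] at h1
    exact h1.symm
  · refine Mem.of_iso (F' := (A1 K).cls (polyC (A1.t K) (pol w))) ?_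
      (mem_cls_poly hG.toKOps (A1 K) (A1.t K) (pol w) h fun a => ?_)
    · exact
        { hom := fun {R} _ _ x => ⟨x.1, (pol_aeval w (show R from x.1)).trans x.2⟩
          inv := fun {R} _ _ x => ⟨x.1, (pol_aeval w (show R from x.1)).symm.trans x.2⟩
          inv_hom := fun _ => rfl
          hom_inv := fun _ => rfl
          nat := fun _ _ => rfl }
    · refine Mem.of_iso ?_ (mem_pnt hG)
      exact
        { hom := fun _ => ()
          inv := fun {R} _ _ _ => ⟨algebraMap K R a, sub_self _⟩
          inv_hom := fun {R} _ _ x => by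
            have h1 : (show R from x.1) - algebraMap K R a = 0 := x.2
            exact Subtype.ext (sub_eq_zero.1 h1).symm
          hom_inv := fun _ => rfl
          nat := fun _ _ => rfl }

theorem mem_A1_cls2 [IsAlgClosed K] (hG : GOps K G) (u w : Coord (A1 K)) :
    (((A1 K).cls u).cls (resC _ w)).Mem G := by
  refine Mem.of_iso (F' := ((A1 K).cls w).cls (resC _ u)) ?_ ?_
  · exact
      { hom := fun x => ⟨⟨x.1.1, x.2⟩, x.1.2⟩
        inv := fun x => ⟨⟨x.1.1, x.2⟩, x.1.2⟩
        inv_hom := fun _ => rfl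
        hom_inv := fun _ => rfl
        nat := fun _ _ => rfl }
  by_cases h : pol u = 0
  · refine mem_cls_zero _ _ (fun R _ _ x => ?_) (mem_A1_cls hG w)
    have h1 := pol_aeval u (show R from x.1)
    rw [h, map_zero] at h1
    exact h1.symm
  · refine Mem.of_iso (F' := ((A1 K).cls w).cls (polyC (resC _ (A1.t K)) (pol u))) ?_
      (mem_cls_poly hG.toKOps _ _ (pol u) h fun a => mem_pt hG w a)
    exact
      { hom := fun {R} _ _ x => ⟨x.1, (pol_aeval u (show R from x.1.1)).trans x.2⟩
        inv := fun {R} _ _ x => ⟨x.1, (pol_aeval u (show R from x.1.1)).symm.trans x.2⟩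
        inv_hom := fun _ => rfl
        hom_inv := fun _ => rfl
        nat := fun _ _ => rfl }

/-- the scaling of the plane -/
def A2s : Sc (A2 K) where
  sc u x := (u * x.1, u * x.2)
  one _ := Prod.ext (one_mul _) (one_mul _)
  mul _ _ _ := Prod.ext (mul_assoc _ _ _) (mul_assoc _ _ _)
  nat f _ _ := Prod.ext (map_mul f _ _) (map_mul f _ _)

/-- homogeneous functions on the plane -/
def Hom2 (u : Coord (A2 K)) (n : ℕ) : Prop :=
  ∀ (R : Type) [CommRing R] [Algebra K R] (t x y : R),
    u.val (R := R) (t * x, t * y) = t ^ n * u.val (R := R) (x, y)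

/-- the restriction to the lines `x = a` -/
def ln (a : K) (u : Coord (A2 K)) : Coord (A1 K) where
  val {R} _ _ y := u.val (R := R) (algebraMap K R a, y)
  nat {R S} _ _ _ _ f y := by
    refine (u.nat (R := R) f (algebraMap K R a, y)).trans ?_
    change u.val (R := S) (f (algebraMap K R a), f y) = u.val (R := S) (algebraMap K S a, f y)
    rw [AlgHom.commutes]

/-- intersections of cones in the plane -/
theorem mem_A2_cls2 [IsAlgClosed K] (hG : GOps K G) (u w : Coord (A2 K)) {m n : ℕ}
    (hu : Hom2 u m) (hw : Hom2 w n) : (((A2 K).cls u).cls (resC _ w)).Mem G := by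
  let x : Coord (((A2 K).cls u).cls (resC _ w)) := ⟨fun p => p.1.1.1, fun _ _ => rfl⟩
  refine (scCls (scCls A2s u m fun {R} _ _ t p => hu R (t : R) p.1 p.2) (resC _ w) n
    fun {R} _ _ t p => hw R (t : R) p.1.1 p.1.2).mem hG.toKOps x (fun _ _ => rfl)
    (Mem.of_iso ?_ (mem_A1_cls2 hG (ln 1 u) (ln 1 w)))
    (Mem.of_iso ?_ (mem_A1_cls2 hG (ln 0 u) (ln 0 w)))
  · exact
      { hom := fun {R} _ _ p => ⟨⟨p.1.1.1.2, by
          have h1 : u.val (R := R) (p.1.1.1.1, p.1.1.1.2) = 0 := p.1.1.2
          have h2 : p.1.1.1.1 - algebraMap K R 1 = 0 := p.2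
          rw [sub_eq_zero.1 h2] at h1
          exact h1⟩, by
          have h1 : w.val (R := R) (p.1.1.1.1, p.1.1.1.2) = 0 := p.1.2
          have h2 : p.1.1.1.1 - algebraMap K R 1 = 0 := p.2
          rw [sub_eq_zero.1 h2] at h1
          exact h1⟩
        inv := fun {R} _ _ y => ⟨⟨⟨(algebraMap K R 1, y.1.1), y.1.2⟩, y.2⟩, sub_self _⟩
        inv_hom := fun {R} _ _ p => by
          have h2 : p.1.1.1.1 - algebraMap K R 1 = 0 := p.2
          exact Subtype.ext (Subtype.ext (Subtype.ext (Prod.ext (sub_eq_zero.1 h2).symm rfl)))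
        hom_inv := fun _ => rfl
        nat := fun _ _ => rfl }
  · exact
      { hom := fun {R} _ _ p => ⟨⟨p.1.1.1.2, by
          have h1 : u.val (R := R) (p.1.1.1.1, p.1.1.1.2) = 0 := p.1.1.2
          have h2 : p.1.1.1.1 = 0 := p.2
          rw [h2] at h1
          change u.val (R := R) (algebraMap K R 0, p.1.1.1.2) = 0
          rw [map_zero]
          exact h1⟩, by
          have h1 : w.val (R := R) (p.1.1.1.1, p.1.1.1.2) = 0 := p.1.2
          have h2 : p.1.1.1.1 = 0 := p.2
          rw [h2] at h1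
          change w.val (R := R) (algebraMap K R 0, p.1.1.1.2) = 0
          rw [map_zero]
          exact h1⟩
        inv := fun {R} _ _ y => ⟨⟨⟨(algebraMap K R 0, y.1.1), y.1.2⟩, y.2⟩, map_zero _⟩
        inv_hom := fun {R} _ _ p => by
          have h2 : p.1.1.1.1 = 0 := p.2
          exact Subtype.ext (Subtype.ext (Subtype.ext (Prod.ext
            ((map_zero (algebraMap K R)).trans h2.symm) rfl)))
        hom_inv := fun _ => rfl
        nat := fun _ _ => rfl }

theorem mem_A2_cls [IsAlgClosed K] (hG : GOps K G) (u : Coord (A2 K)) {m : ℕ}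
    (hu : Hom2 u m) : ((A2 K).cls u).Mem G := by
  refine Mem.of_iso ?_ (mem_A2_cls2 hG u u hu hu)
  exact
    { hom := fun x => ⟨x, x.2⟩
      inv := fun x => x.1
      inv_hom := fun _ => rfl
      hom_inv := fun _ => rfl
      nat := fun _ _ => rfl }

theorem mem_A2_opn [IsAlgClosed K] (hG : GOps K G) (u : Coord (A2 K)) {m : ℕ}
    (hu : Hom2 u m) : ((A2 K).opn u).Mem G :=
  mem_opn hG.toKOps u (mem_A2 hG) (mem_A2_cls hG u hu)

end Pool.Agent.Helper49.TP
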