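import Pool.Agent.Helper49.TP.Cu

/-!
# Constant cones over curves and their triple covers
-/

set_option autoImplicit false

namespace Pool.Agent.Helper49.TP

open Pool.Agent.Helper29.CQ Pool.Agent.Helper65.CC Pool.Agent.Helper87.CC
  Pool.Agent.Helper65.CC.KFn
open Pool.Agent.Helper9.QP (A4 isoA4 mem_A4 Cst)
open Pool.Agent.Helper9.TP (CU InvU InvP FibT)
open Pool.Agent.Helper71.CP (ev ev_map)
open Pool.Agent.Helper71.PN
open Pool.Agent.Helper49.CP (scCls e1 aeval_e1 Gk ops_k mem_of_k mem_k_D1)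

section small

variable {k : Type} [Field k]

/-! ### Triple covers -/

/-- the triple cover `b - a r + r ^ 3 = 0` -/
def tri (Y : KFn k) (a b : Coord Y) : KFn k :=
  Y.line.cls ⟨fun x => b.val x.1 - x.2 * a.val x.1 + x.2 ^ 3, fun f x => by
    rw [map_add, map_sub, map_mul, map_pow, a.nat, b.nat]
    rfl⟩

instance (Y : KFn k) [Rp Y] (a b : Coord Y) : Rp (tri Y a b) := by
  unfold tri
  infer_instance

open Polynomial in
theorem rep_tri {Y : KFn k} (d c : Coord Y) {A : Type} [CommRing A] [Algebra k A] {a : Y.obj A}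
    (ha : Y.Rep A a) :
    ∃ b, (tri Y d c).Rep (AdjoinRoot (X ^ 3 + (C (c.val a) - C (d.val a) * X) : A[X])) b := by
  set g : A[X] := X ^ 3 + (C (c.val a) - C (d.val a) * X) with hg
  let ι : A →ₐ[k] AdjoinRoot g := IsScalarTower.toAlgHom k A (AdjoinRoot g)
  have hι : ∀ c, ι c = AdjoinRoot.of g c := fun c => rfl
  have hroot : c.val (Y.map ι a) - AdjoinRoot.root g * d.val (Y.map ι a) +
      AdjoinRoot.root g ^ 3 = 0 := by
    have h1 := AdjoinRoot.eval₂_root g
    rw [← d.nat, ← c.nat, hι, hι]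
    rw [hg] at h1 ⊢
    rw [eval₂_add, eval₂_sub, eval₂_mul, eval₂_pow, eval₂_X, eval₂_C, eval₂_C] at h1
    linear_combination h1
  refine ⟨⟨(Y.map ι a, AdjoinRoot.root g), hroot⟩, ?_⟩
  intro R _ _ x
  obtain ⟨f, hf, hu⟩ := ha R x.1.1
  have hx : c.val x.1.1 - x.1.2 * d.val x.1.1 + x.1.2 ^ 3 = 0 := x.2
  have he : eval₂ (f : A →+* R) x.1.2 g = 0 := by
    rw [hg, eval₂_add, eval₂_sub, eval₂_mul, eval₂_pow, eval₂_X, eval₂_C, eval₂_C]
    change x.1.2 ^ 3 + (f (c.val a) - f (d.val a) * x.1.2) = 0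
    rw [c.nat, d.nat, hf]
    linear_combination hx
  let g0 : AdjoinRoot g →ₐ[k] R :=
    { AdjoinRoot.lift (f : A →+* R) x.1.2 he with
      commutes' := fun k' => by
        rw [IsScalarTower.algebraMap_apply k A (AdjoinRoot g)]
        change AdjoinRoot.lift (f : A →+* R) x.1.2 he (AdjoinRoot.of g _) = _
        rw [AdjoinRoot.lift_of]
        exact f.commutes k' }
  have hg0 : g0.comp ι = f := by
    ext b
    change AdjoinRoot.lift (f : A →+* R) x.1.2 he (AdjoinRoot.of g _) = _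
    rw [AdjoinRoot.lift_of]
    rfl
  have hX : g0 (AdjoinRoot.root g) = x.1.2 := by
    change AdjoinRoot.lift (f : A →+* R) x.1.2 he (AdjoinRoot.root g) = _
    rw [AdjoinRoot.lift_root]
  refine ⟨g0, ?_, ?_⟩
  · apply Subtype.ext
    refine Prod.ext ?_ hX
    change Y.map _ (Y.map _ a) = x.1.1
    rw [← Y.comp_map, hg0, hf]
  · intro g' hg'
    have h0 := congrArg Subtype.val hg'
    have h1 : g'.comp ι = f := by
      apply hu
      rw [Y.comp_map]
      exact congrArg Prod.fst h0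
    have h2 : g' (AdjoinRoot.root g) = x.1.2 := congrArg Prod.snd h0
    apply AlgHom.coe_ringHom_injective
    apply AdjoinRoot.ringHom_ext
    · ext b
      exact DFunLike.congr_fun (h1.trans hg0.symm) b
    · exact h2.trans hX.symm

open Polynomial in
theorem D1_tri {Y : KFn k} [hY : Rp Y] (h : D1 Y) (d c : Coord Y) : D1 (tri Y d c) := by
  obtain ⟨A, _, _, a, hA, ha⟩ := hY.out
  obtain ⟨b, hb⟩ := rep_tri d c ha
  refine D1.of_rep hb ⟨hA.trans (inferInstance : Algebra.FiniteType A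
    (AdjoinRoot (X ^ 3 + (C (c.val a) - C (d.val a) * X) : A[X]))), ?_⟩
  have hm : (X ^ 3 + (C (c.val a) - C (d.val a) * X) : A[X]).Monic := by
    refine monic_X_pow_add ?_
    have h1 : (C (c.val a) - C (d.val a) * X : A[X]) = C (- d.val a) * X + C (c.val a) := by
      rw [C_neg]
      ring
    rw [h1]
    refine (degree_linear_le).trans_lt ?_
    norm_num
  have h1 : Module.Finite A (AdjoinRoot (X ^ 3 + (C (c.val a) - C (d.val a) * X) : A[X])) :=
    hm.finite_adjoinRoot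
  have h2 : Algebra.IsIntegral A
      (AdjoinRoot (X ^ 3 + (C (c.val a) - C (d.val a) * X) : A[X])) :=
    Algebra.IsIntegral.of_finite _ _
  exact (Pool.Agent.Helper62.TS.dim_integral_le (R := A)).trans (h A a hA ha).2

/-- functions on the triple cover -/
def up {Y : KFn k} (a b : Coord Y) (w : Coord Y) : Coord (tri Y a b) where
  val x := w.val x.1.1
  nat f x := w.nat f x.1.1

/-- closed subfunctors of triple covers -/
def triCls {Y : KFn k} (a b w : Coord Y) :
    Iso ((tri Y a b).cls (up a b w)) (tri (Y.cls w) (resC w a) (resC w b)) where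
  hom x := ⟨(⟨x.1.1.1, x.2⟩, x.1.1.2), x.1.2⟩
  inv x := ⟨⟨(x.1.1.1, x.1.2), x.2⟩, x.1.1.2⟩
  inv_hom _ := rfl
  hom_inv _ := rfl
  nat _ _ := rfl

/-- closed subfunctors of closed subfunctors of triple covers -/
def triCls2 {Y : KFn k} (a b w w' : Coord Y) :
    Iso (((tri Y a b).cls (up a b w)).cls (resC _ (up a b w')))
      (tri ((Y.cls w).cls (resC w w')) (resC _ (resC w a)) (resC _ (resC w b))) where
  hom x := ⟨(⟨⟨x.1.1.1.1, x.1.2⟩, x.2⟩, x.1.1.1.2), x.1.1.2⟩
  inv x := ⟨⟨⟨(x.1.1.1.1, x.1.2), x.2⟩, x.1.1.1.2⟩, x.1.1.2⟩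
  inv_hom _ := rfl
  hom_inv _ := rfl
  nat _ _ := rfl

/-- functions of weight `n` -/
def Wt {Y : KFn k} (s : Sc Y) (w : Coord Y) (n : ℕ) : Prop :=
  ∀ (R : Type) [CommRing R] [Algebra k R] (t : Rˣ) (x : Y.obj R),
    w.val (s.sc t x) = (t : R) ^ n * w.val x

/-- cones over curves -/
structure Cone1 (Y : KFn k) where
  /-- the action -/
  s : Sc Y
  /-- the first coordinate -/
  z : Coord Y
  /-- the second coordinate -/
  y : Coord Y
  hz : Wt s z 1
  hy : Wt s y 1
  d1 : D1 (Y.cls (subC z 1))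
  d2 : D1 ((Y.cls z).cls (resC z (subC y 1)))
  d3 : D1 ((Y.cls z).cls (resC z y))

/-- closed subfunctors of cones -/
noncomputable def Cone1.cls {Y : KFn k} [Rp Y] (c : Cone1 Y) (w : Coord Y) {n : ℕ}
    (hw : Wt c.s w n) : Cone1 (Y.cls w) where
  s := scCls c.s w n fun {R} _ _ t x => hw R t x
  z := resC w c.z
  y := resC w c.y
  hz R _ _ t x := c.hz R t x.1
  hy R _ _ t x := c.hy R t x.1
  d1 := D1.of_iso (F' := (Y.cls (subC c.z 1)).cls (resC _ w))
    { hom := fun x => ⟨⟨x.1.1, x.2⟩, x.1.2⟩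
      inv := fun x => ⟨⟨x.1.1, x.2⟩, x.1.2⟩
      inv_hom := fun _ => rfl
      hom_inv := fun _ => rfl
      nat := fun _ _ => rfl } (c.d1.cls (resC _ w))
  d2 := D1.of_iso (F' := ((Y.cls c.z).cls (resC _ (subC c.y 1))).cls (resC _ (resC _ w)))
    { hom := fun x => ⟨⟨⟨x.1.1.1, x.1.2⟩, x.2⟩, x.1.1.2⟩
      inv := fun x => ⟨⟨⟨x.1.1.1, x.2⟩, x.1.1.2⟩, x.1.2⟩
      inv_hom := fun _ => rfl
      hom_inv := fun _ => rfl
      nat := fun _ _ => rfl } (c.d2.cls (resC _ (resC _ w)))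
  d3 := D1.of_iso (F' := ((Y.cls c.z).cls (resC _ c.y)).cls (resC _ (resC _ w)))
    { hom := fun x => ⟨⟨⟨x.1.1.1, x.1.2⟩, x.2⟩, x.1.1.2⟩
      inv := fun x => ⟨⟨⟨x.1.1.1, x.2⟩, x.1.1.2⟩, x.1.2⟩
      inv_hom := fun _ => rfl
      hom_inv := fun _ => rfl
      nat := fun _ _ => rfl } (c.d3.cls (resC _ (resC _ w)))

/-- the action on triple covers -/
noncomputable def triSc {Y : KFn k} (s : Sc Y) (a b : Coord Y) (ha : Wt s a 2) (hb : Wt s b 3) :
    Sc (tri Y a b) where
  sc {R} _ _ t x := ⟨(s.sc t x.1.1, (t : R) * x.1.2), by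
    have h : b.val x.1.1 - x.1.2 * a.val x.1.1 + x.1.2 ^ 3 = 0 := x.2
    change b.val (s.sc t x.1.1) - ((t : R) * x.1.2) * a.val (s.sc t x.1.1) +
      ((t : R) * x.1.2) ^ 3 = 0
    rw [ha, hb]
    linear_combination (t : R) ^ 3 * h⟩
  one x := Subtype.ext (Prod.ext (s.one _) (one_mul _))
  mul t t' x := Subtype.ext (Prod.ext (s.mul t t' _) (mul_assoc _ _ _))
  nat f t x := Subtype.ext (Prod.ext (s.nat f t _) (map_mul f _ _))

/-- triple covers of cones -/
noncomputable def Cone1.tri {Y : KFn k} [Rp Y] (c : Cone1 Y) (a b : Coord Y)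
    (ha : Wt c.s a 2) (hb : Wt c.s b 3) : Cone1 (TP.tri Y a b) where
  s := triSc c.s a b ha hb
  z := up a b c.z
  y := up a b c.y
  hz R _ _ t x := c.hz R t x.1.1
  hy R _ _ t x := c.hy R t x.1.1
  d1 := D1.of_iso (triCls a b (subC c.z 1)) (D1_tri c.d1 _ _)
  d2 := D1.of_iso (triCls2 a b c.z (subC c.y 1)) (D1_tri c.d2 _ _)
  d3 := D1.of_iso (triCls2 a b c.z c.y) (D1_tri c.d3 _ _)

variable {K : Type} [Field K] [Algebra k K] {G : ∀ (R : Type) [CommRing R] [Algebra K R], Prop}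

theorem Cone1.mem [Finite k] (hG : KOps K G) (hW : Cst k G) {Y : KFn k} [Rp Y] (c : Cone1 Y) :
    Y.Mem (fun R _ _ => Gk k G R) := by
  have hO := ops_k (k := k) hG
  refine c.s.mem hO c.z (fun {R} _ _ t x => by
    have h := c.hz R t x
    rwa [pow_one] at h) (mem_k_D1 hW c.d1) ?_
  refine (scCls c.s c.z 1 fun {R} _ _ t x => c.hz R t x).mem hO (resC _ c.y)
    (fun {R} _ _ t x => by
    have h := c.hy R t x.1
    rwa [pow_one] at h) (mem_k_D1 hW c.d2) (mem_k_D1 hW c.d3)

/-! ### Cones over plane curves -/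

/-- the values of a homogeneous polynomial at multiples -/
theorem ev_smul {B : MvPolynomial (Fin 3) k} {d : ℕ} (hB : B.IsHomogeneous d) {R : Type}
    [CommRing R] [Algebra k R] (t x y z : R) :
    ev B (t * x) (t * y) (t * z) = t ^ d * ev B x y z := by
  unfold ev
  rw [MvPolynomial.aeval_def, MvPolynomial.aeval_def, MvPolynomial.eval₂_eq',
    MvPolynomial.eval₂_eq', Finset.mul_sum]
  refine Finset.sum_congr rfl fun m hm => ?_
  have h1 := hB (MvPolynomial.mem_support_iff.1 hm)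
  have h3 := DFunLike.congr_fun (Finsupp.degree_eq_weight_one (R := ℕ) (σ := Fin 3)) m
  have h4 : Finsupp.degree m = m 0 + m 1 + m 2 := by
    rw [Finsupp.degree_eq_sum, Fin.sum_univ_three]
  have h5 : m 0 + m 1 + m 2 = d := (h4.symm.trans h3).trans h1
  rw [← h5]
  simp only [Fin.prod_univ_three, Matrix.cons_val_zero, Matrix.cons_val_one, Matrix.cons_val]
  ring

theorem hom_zero {B : MvPolynomial (Fin 3) k} {d : ℕ} (hB : B.IsHomogeneous d)
    (h : ∀ (R : Type) [CommRing R] [Algebra k R] (x y : R), ev B x y 1 = 0) : B = 0 := by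
  let L := FractionRing (MvPolynomial (Fin 3) k)
  let ι : MvPolynomial (Fin 3) k →ₐ[k] L := IsScalarTower.toAlgHom k _ L
  have hι : Function.Injective ι := IsFractionRing.injective (MvPolynomial (Fin 3) k) L
  have hz : ι (MvPolynomial.X 2) ≠ 0 := by
    intro h0
    exact MvPolynomial.X_ne_zero (R := k) (2 : Fin 3) (hι (h0.trans (map_zero ι).symm))
  apply hι
  rw [map_zero]
  have h1 : ι B = ev B (ι (MvPolynomial.X 0)) (ι (MvPolynomial.X 1)) (ι (MvPolynomial.X 2)) := by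
    rw [← ev_map]
    congr 1
    have h2 : (MvPolynomial.aeval ![MvPolynomial.X 0, MvPolynomial.X 1, MvPolynomial.X 2] :
        MvPolynomial (Fin 3) k →ₐ[k] MvPolynomial (Fin 3) k) = AlgHom.id k _ := by
      apply MvPolynomial.algHom_ext
      intro i
      rw [MvPolynomial.aeval_X]
      fin_cases i <;> rfl
    exact (DFunLike.congr_fun h2 B).symm
  have h3 := ev_smul hB (ι (MvPolynomial.X 2)) (ι (MvPolynomial.X 0) / ι (MvPolynomial.X 2))
    (ι (MvPolynomial.X 1) / ι (MvPolynomial.X 2)) 1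
  rw [h, mul_zero, mul_div_cancel₀ _ hz, mul_div_cancel₀ _ hz, mul_one] at h3
  rw [h1, h3]

theorem e1_ne' {B : MvPolynomial (Fin 3) k} {d : ℕ} (hB : B.IsHomogeneous d) (h0 : B ≠ 0) :
    e1 B ≠ 0 := by
  intro h
  refine h0 (hom_zero hB fun R _ _ x y => ?_)
  rw [← aeval_e1, h, map_zero]

/-- the values of a polynomial on the space -/
noncomputable def g3 (B : MvPolynomial (Fin 3) k) : Coord (A3 k) :=
  ⟨fun x => ev B x.1 x.2.1 x.2.2, fun f x => by
    rw [ev_map]
    rfl⟩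

/-- the scaling of the space -/
def A3s : Sc (A3 k) where
  sc u x := (u * x.1, u * x.2.1, u * x.2.2)
  one _ := Prod.ext (one_mul _) (Prod.ext (one_mul _) (one_mul _))
  mul _ _ _ := Prod.ext (mul_assoc _ _ _) (Prod.ext (mul_assoc _ _ _) (mul_assoc _ _ _))
  nat f _ _ := Prod.ext (map_mul f _ _) (Prod.ext (map_mul f _ _) (map_mul f _ _))

theorem g3_wt {B : MvPolynomial (Fin 3) k} {d : ℕ} (hB : B.IsHomogeneous d) :
    Wt A3s (g3 B) d := fun R _ _ t x => ev_smul hB (t : R) x.1 x.2.1 x.2.2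

/-- the values of a polynomial on the lines `y = a`, `z = 0` -/
noncomputable def lnv (B : MvPolynomial (Fin 3) k) (a : k) : Coord (A1 k) :=
  ⟨fun {R} _ _ x => ev B (show R from x) (algebraMap k R a) 0, fun {R S} _ _ _ _ f x => by
    refine (ev_map B f (show R from x) (algebraMap k R a) 0).trans ?_
    rw [map_zero, AlgHom.commutes]
    rfl⟩

/-- the affine cone over a plane curve -/
noncomputable def base (B : MvPolynomial (Fin 3) k) {d : ℕ} (hB : B.IsHomogeneous d)
    (h0 : B ≠ 0) : Cone1 ((A3 k).cls (g3 B)) where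
  s := scCls A3s (g3 B) d fun {R} _ _ t x => g3_wt hB R t x
  z := ⟨fun x => x.1.2.2, fun _ _ => rfl⟩
  y := ⟨fun x => x.1.2.1, fun _ _ => rfl⟩
  hz R _ _ t x := by
    rw [pow_one]
    rfl
  hy R _ _ t x := by
    rw [pow_one]
    rfl
  d1 := by
    refine D1.of_iso (F' := PC (e1 B)) ?_ (D1.curve (e1_ne' hB h0))
    exact
      { hom := fun {R} _ _ x => ⟨(x.1.1.1, x.1.1.2.1), by
          have h : ev B x.1.1.1 x.1.1.2.1 x.1.1.2.2 = 0 := x.1.2
          have h1 : x.1.1.2.2 - algebraMap k R 1 = 0 := x.2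
          rw [map_one, sub_eq_zero] at h1
          rw [h1] at h
          exact (aeval_e1 B _ _).trans h⟩
        inv := fun {R} _ _ x => ⟨⟨(x.1.1, x.1.2, 1), (aeval_e1 B _ _).symm.trans x.2⟩, by
          change 1 - algebraMap k R 1 = 0
          rw [map_one, sub_self]⟩
        inv_hom := fun {R} _ _ x => by
          have h1 : x.1.1.2.2 - algebraMap k R 1 = 0 := x.2
          rw [map_one, sub_eq_zero] at h1
          exact Subtype.ext (Subtype.ext (Prod.ext rfl (Prod.ext rfl h1.symm)))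
        hom_inv := fun _ => rfl
        nat := fun _ _ => rfl }
  d2 := by
    refine D1.of_iso (F' := (A1 k).cls (lnv B 1)) ?_ (D1.line1.cls _)
    exact
      { hom := fun {R} _ _ x => ⟨x.1.1.1.1, by
          have h : ev B x.1.1.1.1 x.1.1.1.2.1 x.1.1.1.2.2 = 0 := x.1.1.2
          have h1 : x.1.1.1.2.2 = 0 := x.1.2
          have h2 : x.1.1.1.2.1 - algebraMap k R 1 = 0 := x.2
          rw [h1, sub_eq_zero.1 h2] at h
          exact h⟩
        inv := fun {R} _ _ x => ⟨⟨⟨(x.1, algebraMap k R 1, 0), x.2⟩, rfl⟩, sub_self _⟩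
        inv_hom := fun {R} _ _ x => by
          have h1 : x.1.1.1.2.2 = 0 := x.1.2
          have h2 : x.1.1.1.2.1 - algebraMap k R 1 = 0 := x.2
          exact Subtype.ext (Subtype.ext (Subtype.ext (Prod.ext rfl (Prod.ext
            (sub_eq_zero.1 h2).symm h1.symm))))
        hom_inv := fun _ => rfl
        nat := fun _ _ => rfl }
  d3 := by
    refine D1.of_iso (F' := (A1 k).cls (lnv B 0)) ?_ (D1.line1.cls _)
    exact
      { hom := fun {R} _ _ x => ⟨x.1.1.1.1, by
          have h : ev B x.1.1.1.1 x.1.1.1.2.1 x.1.1.1.2.2 = 0 := x.1.1.2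
          have h1 : x.1.1.1.2.2 = 0 := x.1.2
          have h2 : x.1.1.1.2.1 = 0 := x.2
          rw [h1, h2] at h
          change ev B x.1.1.1.1 (algebraMap k R 0) 0 = 0
          rw [map_zero]
          exact h⟩
        inv := fun {R} _ _ x => ⟨⟨⟨(x.1, algebraMap k R 0, 0), x.2⟩, rfl⟩, map_zero _⟩
        inv_hom := fun {R} _ _ x => by
          have h1 : x.1.1.1.2.2 = 0 := x.1.2
          have h2 : x.1.1.1.2.1 = 0 := x.2
          exact Subtype.ext (Subtype.ext (Subtype.ext (Prod.ext rfl (Prod.ext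
            ((map_zero (algebraMap k R)).trans h2.symm) h1.symm))))
        hom_inv := fun _ => rfl
        nat := fun _ _ => rfl }

end small

end Pool.Agent.Helper49.TP
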