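import Mathlib

/-!
# Common roots of units
-/

set_option autoImplicit false

namespace Pool.Agent.Helper49.TP

theorem root_ex {M : Type} [CommGroup M] {i j : ℕ} (h : i.Coprime j) {α β : M}
    (hαβ : α ^ i = β ^ j) : ∃ r : M, r ^ j = α ∧ r ^ i = β := by
  have hb : (1 : ℤ) = i * i.gcdA j + j * i.gcdB j := by
    rw [← Nat.gcd_eq_gcd_ab, h]
    rfl
  set a := i.gcdA j
  set b := i.gcdB j
  refine ⟨β ^ a * α ^ b, ?_, ?_⟩
  · rw [← zpow_natCast, mul_zpow, ← zpow_mul, ← zpow_mul, mul_comm a, zpow_mul, zpow_natCast,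
      ← hαβ, ← zpow_natCast, ← zpow_mul, ← zpow_add, mul_comm b, ← hb, zpow_one]
  · rw [← zpow_natCast, mul_zpow, ← zpow_mul, ← zpow_mul, mul_comm b, zpow_mul α, zpow_natCast,
      hαβ, ← zpow_natCast, ← zpow_mul, ← zpow_add, mul_comm a, ← hb, zpow_one]

theorem root_un {M : Type} [CommGroup M] {i j : ℕ} (h : i.Coprime j) {r s : M}
    (hi : r ^ i = s ^ i) (hj : r ^ j = s ^ j) : r = s := by
  have hb : (1 : ℤ) = i * i.gcdA j + j * i.gcdB j := by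
    rw [← Nat.gcd_eq_gcd_ab, h]
    rfl
  calc r = r ^ (1 : ℤ) := (zpow_one r).symm
    _ = s ^ (1 : ℤ) := by
      rw [hb, zpow_add, zpow_add, zpow_mul, zpow_mul, zpow_mul, zpow_mul, zpow_natCast,
        zpow_natCast, zpow_natCast, zpow_natCast, hi, hj]
    _ = s := zpow_one s

theorem root_unR {R : Type} [CommRing R] {i j : ℕ} (h : i.Coprime j) {r s : R} (hr : IsUnit r)
    (hs : IsUnit s) (hi : r ^ i = s ^ i) (hj : r ^ j = s ^ j) : r = s := by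
  obtain ⟨r, rfl⟩ := hr
  obtain ⟨s, rfl⟩ := hs
  have h1 : r = s := root_un h (Units.ext (by simpa using hi)) (Units.ext (by simpa using hj))
  rw [h1]

/-- the relation between the coordinates `r` and `v` -/
def Rel {R : Type} [CommRing R] (i j : ℕ) (c a₀ a₁ a₂ v r : R) : Prop :=
  r ^ j * (v * a₁) = a₀ ∧ r ^ i * (c * a₂) = a₁ * (1 - v)

theorem ex_r {R : Type} [CommRing R] {i j : ℕ} (hij : i.Coprime j) {a₀ a₁ a₂ v c : R}
    (h0 : IsUnit a₀) (h1 : IsUnit a₁) (h2 : IsUnit a₂) (hc : IsUnit c) (hv : IsUnit v)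
    (hw : IsUnit (1 - v))
    (h : c ^ j * (a₀ ^ i * a₂ ^ j) = a₁ ^ (i + j) * (v ^ i * (1 - v) ^ j)) :
    ∃ r : R, IsUnit r ∧ Rel i j c a₀ a₁ a₂ v r := by
  obtain ⟨w, hw⟩ := hw
  unfold Rel
  rw [← hw] at h ⊢
  obtain ⟨u₀, rfl⟩ := h0
  obtain ⟨u₁, rfl⟩ := h1
  obtain ⟨u₂, rfl⟩ := h2
  obtain ⟨c, rfl⟩ := hc
  obtain ⟨v, rfl⟩ := hv
  have h' : c ^ j * (u₀ ^ i * u₂ ^ j) = u₁ ^ (i + j) * (v ^ i * w ^ j) := by
    apply Units.ext
    simpa using h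
  have key : (u₀ * (v * u₁)⁻¹) ^ i = (u₁ * w * (c * u₂)⁻¹) ^ j := by
    have e1 : (u₀ * (v * u₁)⁻¹) ^ i * ((v * u₁) ^ i * (c * u₂) ^ j) = u₀ ^ i * (c * u₂) ^ j := by
      rw [mul_pow u₀, inv_pow]
      group
    have e2 : (u₁ * w * (c * u₂)⁻¹) ^ j * ((v * u₁) ^ i * (c * u₂) ^ j) =
        (u₁ * w) ^ j * (v * u₁) ^ i := by
      rw [mul_pow (u₁ * w), inv_pow, mul_comm ((v * u₁) ^ i)]
      group
    apply mul_right_cancel (b := (v * u₁) ^ i * (c * u₂) ^ j)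
    rw [e1, e2, mul_pow c, mul_pow u₁, mul_pow v]
    calc u₀ ^ i * (c ^ j * u₂ ^ j) = c ^ j * (u₀ ^ i * u₂ ^ j) := by
          rw [mul_left_comm]
      _ = u₁ ^ (i + j) * (v ^ i * w ^ j) := h'
      _ = u₁ ^ j * w ^ j * (v ^ i * u₁ ^ i) := by
          rw [pow_add]
          ac_rfl
  obtain ⟨r, hr1, hr2⟩ := root_ex hij key
  refine ⟨r, r.isUnit, ?_, ?_⟩
  · have e1 : r ^ j * (v * u₁) = u₀ := by
      rw [hr1, inv_mul_cancel_right]
    rw [← e1]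
    simp
  · have e1 : r ^ i * (c * u₂) = u₁ * w := by
      rw [hr2, inv_mul_cancel_right]
    have e2 := congrArg (fun u : Rˣ => (u : R)) e1
    simpa using e2

theorem rel_cb {R : Type} [CommRing R] {i j : ℕ} {c a₀ a₁ a₂ v r : R}
    (h : Rel i j c a₀ a₁ a₂ v r) : a₀ - r ^ j * a₁ + c * r ^ (i + j) * a₂ = 0 := by
  obtain ⟨h1, h2⟩ := h
  rw [pow_add]
  linear_combination (-1 : R) * h1 + r ^ j * h2

theorem rel_fib {R : Type} [CommRing R] {i j : ℕ} {c a₀ a₁ a₂ v r : R}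
    (h : Rel i j c a₀ a₁ a₂ v r) :
    c ^ j * (a₀ ^ i * a₂ ^ j) = a₁ ^ (i + j) * (v ^ i * (1 - v) ^ j) := by
  obtain ⟨h1, h2⟩ := h
  have h3 : (a₁ * v) ^ i * (a₁ * (1 - v)) ^ j = c ^ j * (a₀ ^ i * a₂ ^ j) := by
    rw [← h2, ← h1]
    ring
  rw [← h3, mul_pow, mul_pow, pow_add]
  ring

theorem rel_v {R : Type} [CommRing R] {i j : ℕ} {c a₀ a₁ a₂ r : R} (h1 : IsUnit a₁)
    (hr : IsUnit r) (h : a₀ - r ^ j * a₁ + c * r ^ (i + j) * a₂ = 0) :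
    Rel i j c a₀ a₁ a₂ (a₀ * Ring.inverse (r ^ j * a₁)) r := by
  have h3 : r ^ j * a₁ * Ring.inverse (r ^ j * a₁) = 1 :=
    Ring.mul_inverse_cancel _ ((hr.pow j).mul h1)
  rw [pow_add] at h
  set w := Ring.inverse (r ^ j * a₁)
  refine ⟨?_, ?_⟩
  · linear_combination a₀ * h3
  · linear_combination (a₁ * w) * h + (a₁ - c * r ^ i * a₂) * h3

theorem rel_un {R : Type} [CommRing R] {i j : ℕ} (hij : i.Coprime j) {c a₀ a₁ a₂ v r s : R}
    (h1 : IsUnit a₁) (h2 : IsUnit a₂) (hc : IsUnit c) (hv : IsUnit v) (hr : IsUnit r)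
    (hs : IsUnit s) (h : Rel i j c a₀ a₁ a₂ v r) (h' : Rel i j c a₀ a₁ a₂ v s) : r = s := by
  refine root_unR hij hr hs ?_ ?_
  · exact (hc.mul h2).mul_right_cancel (h.2.trans h'.2.symm)
  · exact (hv.mul h1).mul_right_cancel (h.1.trans h'.1.symm)

end Pool.Agent.Helper49.TP
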