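import Pool.Agent.Helper49.TP.ConstK
import Pool.Agent.Helper49.TP.Rt
import Pool.Agent.Helper71.PN.Root
import Pool.Agent.Helper9.TP.Defs2

/-!
# Constant cones over curves and their covers of degree `n`
-/

set_option autoImplicit false

namespace Pool.Agent.Helper49.TP

open Pool.Agent.Helper29.CQ Pool.Agent.Helper65.CC Pool.Agent.Helper87.CC
  Pool.Agent.Helper65.CC.KFn
open Pool.Agent.Helper9.QP (A4 isoA4 mem_A4 Cst)
open Pool.Agent.Helper9.TP (FibT CB)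
open Pool.Agent.Helper71.CP (ev ev_map ev_mul ev_pow)
open Pool.Agent.Helper71.PN
open Pool.Agent.Helper49.QP (rs bc)
open Pool.Agent.Helper49.CP (Gk mem_of_k ev_rs ops_k)

section small

variable {k : Type} [Field k]

/-- the action on open subfunctors -/
def scOpn {F : KFn k} (s : Sc F) (u : Coord F) (n : ℕ) (h : Wt s u n) : Sc (F.opn u) where
  sc {R} _ _ t x := ⟨s.sc t x.1, by
    have h1 : IsUnit (u.val x.1) := x.2
    change IsUnit (u.val (s.sc t x.1))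
    rw [h]
    exact (t.isUnit.pow n).mul h1⟩
  one x := Subtype.ext (s.one x.1)
  mul t t' x := Subtype.ext (s.mul t t' x.1)
  nat f t x := Subtype.ext (s.nat f t x.1)

/-- open subfunctors of cones -/
noncomputable def Cone1.opn {Y : KFn k} [Rp Y] (c : Cone1 Y) (w : Coord Y) {n : ℕ}
    (hw : Wt c.s w n) : Cone1 (Y.opn w) where
  s := scOpn c.s w n hw
  z := resO w c.z
  y := resO w c.y
  hz R _ _ t x := c.hz R t x.1
  hy R _ _ t x := c.hy R t x.1
  d1 := D1.of_iso (F' := (Y.cls (subC c.z 1)).opn (resC _ w))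
    { hom := fun x => ⟨⟨x.1.1, x.2⟩, x.1.2⟩
      inv := fun x => ⟨⟨x.1.1, x.2⟩, x.1.2⟩
      inv_hom := fun _ => rfl
      hom_inv := fun _ => rfl
      nat := fun _ _ => rfl } (c.d1.opn (resC _ w))
  d2 := D1.of_iso (F' := ((Y.cls c.z).cls (resC _ (subC c.y 1))).opn (resC _ (resC _ w)))
    { hom := fun x => ⟨⟨⟨x.1.1.1, x.1.2⟩, x.2⟩, x.1.1.2⟩
      inv := fun x => ⟨⟨⟨x.1.1.1, x.2⟩, x.1.1.2⟩, x.1.2⟩
      inv_hom := fun _ => rfl
      hom_inv := fun _ => rfl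
      nat := fun _ _ => rfl } (c.d2.opn (resC _ (resC _ w)))
  d3 := D1.of_iso (F' := ((Y.cls c.z).cls (resC _ c.y)).opn (resC _ (resC _ w)))
    { hom := fun x => ⟨⟨⟨x.1.1.1, x.1.2⟩, x.2⟩, x.1.1.2⟩
      inv := fun x => ⟨⟨⟨x.1.1.1, x.2⟩, x.1.1.2⟩, x.1.2⟩
      inv_hom := fun _ => rfl
      hom_inv := fun _ => rfl
      nat := fun _ _ => rfl } (c.d3.opn (resC _ (resC _ w)))

/-- covers of cones -/
noncomputable def Cone1.root {Y : KFn k} [Rp Y] (c : Cone1 Y) (a : Coord Y) (φ : Polynomial k)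
    (hφ : 0 < φ.natDegree) (ha : ∀ {R : Type} [CommRing R] [Algebra k R] (t : Rˣ) (x : Y.obj R),
      a.val (c.s.sc t x) = a.val x) : Cone1 (rootF Y a φ) where
  s := c.s.root a φ ha
  z := prC c.z
  y := prC c.y
  hz R _ _ t x := c.hz R t x.1.1
  hy R _ _ t x := c.hy R t x.1.1
  d1 := D1.of_iso (rootCls a φ (subC c.z 1)) (c.d1.root _ φ hφ)
  d2 := D1.of_iso (F' := rootF ((Y.cls c.z).cls (resC _ (subC c.y 1))) (resC _ (resC _ a)) φ)
    { hom := fun x => ⟨(⟨⟨x.1.1.1.1, x.1.2⟩, x.2⟩, x.1.1.1.2), x.1.1.2⟩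
      inv := fun x => ⟨⟨⟨(x.1.1.1.1, x.1.2), x.2⟩, x.1.1.1.2⟩, x.1.1.2⟩
      inv_hom := fun _ => rfl
      hom_inv := fun _ => rfl
      nat := fun _ _ => rfl } (c.d2.root _ φ hφ)
  d3 := D1.of_iso (F' := rootF ((Y.cls c.z).cls (resC _ c.y)) (resC _ (resC _ a)) φ)
    { hom := fun x => ⟨(⟨⟨x.1.1.1.1, x.1.2⟩, x.2⟩, x.1.1.1.2), x.1.1.2⟩
      inv := fun x => ⟨⟨⟨(x.1.1.1.1, x.1.2), x.2⟩, x.1.1.1.2⟩, x.1.1.2⟩
      inv_hom := fun _ => rfl
      hom_inv := fun _ => rfl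
      nat := fun _ _ => rfl } (c.d3.root _ φ hφ)

/-- the quotient of two functions on the open part where they are invertible -/
noncomputable def quo {Y : KFn k} (w a b : Coord Y)
    (hw : ∀ {R : Type} [CommRing R] [Algebra k R] (x : Y.obj R), w.val x = a.val x * b.val x) :
    Coord (Y.opn w) where
  val x := a.val x.1 * Ring.inverse (b.val x.1)
  nat f x := by
    have h1 : IsUnit (w.val x.1) := x.2
    rw [hw] at h1
    rw [map_mul, a.nat, inv_nat f (isUnit_of_mul_isUnit_right h1), b.nat]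
    rfl

/-- the cover `r ^ n = A / B` over the curve `D = 0` -/
noncomputable abbrev RC (D A B : MvPolynomial (Fin 3) k) (n : ℕ) : KFn k :=
  rootF (((A3 k).cls (g3 D)).opn (resC _ (g3 (A * B))))
    (quo (resC _ (g3 (A * B))) (resC _ (g3 A)) (resC _ (g3 B)) fun _ => ev_mul A B _ _ _)
    (Polynomial.X ^ n)

/-- the covers are cones -/
noncomputable def coneRC (D A B : MvPolynomial (Fin 3) k) {n d d' : ℕ} (hn : 0 < n)
    (hD : D.IsHomogeneous d') (h0 : D ≠ 0) (hA : A.IsHomogeneous d) (hB : B.IsHomogeneous d) :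
    Cone1 (RC D A B n) :=
  Cone1.root ((base D hD h0).opn (resC _ (g3 (A * B)))
    (fun R _ _ t x => g3_wt (hA.mul hB) R t x.1)) _ _ (by
      rw [Polynomial.natDegree_X_pow]
      exact hn) (fun {R} _ _ t x => by
      have hu : IsUnit (ev (A * B) x.1.1.1 x.1.1.2.1 x.1.1.2.2) := x.2
      rw [ev_mul] at hu
      have hB' := isUnit_of_mul_isUnit_right hu
      have k1 : ev A ((t : R) * x.1.1.1) ((t : R) * x.1.1.2.1) ((t : R) * x.1.1.2.2) =
        (t : R) ^ d * ev A x.1.1.1 x.1.1.2.1 x.1.1.2.2 := ev_smul hA _ _ _ _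
      have k2 : ev B ((t : R) * x.1.1.1) ((t : R) * x.1.1.2.1) ((t : R) * x.1.1.2.2) =
        (t : R) ^ d * ev B x.1.1.1 x.1.1.2.1 x.1.1.2.2 := ev_smul hB _ _ _ _
      have k3 : IsUnit ((t : R) ^ d * ev B x.1.1.1 x.1.1.2.1 x.1.1.2.2) :=
        (t.isUnit.pow d).mul hB'
      change ev A ((t : R) * x.1.1.1) ((t : R) * x.1.1.2.1) ((t : R) * x.1.1.2.2) *
        Ring.inverse (ev B ((t : R) * x.1.1.1) ((t : R) * x.1.1.2.1) ((t : R) * x.1.1.2.2)) =
        ev A x.1.1.1 x.1.1.2.1 x.1.1.2.2 * Ring.inverse (ev B x.1.1.1 x.1.1.2.1 x.1.1.2.2)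
      rw [k1, k2]
      have k4 := mul_inv' k3
      have k5 := mul_inv' hB'
      set a := ev A x.1.1.1 x.1.1.2.1 x.1.1.2.2
      set b := ev B x.1.1.1 x.1.1.2.1 x.1.1.2.2
      set w := Ring.inverse ((t : R) ^ d * b)
      set w' := Ring.inverse b
      linear_combination (a * w') * k4 - ((t : R) ^ d * a * w) * k5)

end small

variable {k K : Type} [Field k] [Field K] [Algebra k K]
  {G : ∀ (R : Type) [CommRing R] [Algebra K R], Prop}

/-- the value of a polynomial on the product of the space and the line -/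
noncomputable def e4 (F : MvPolynomial (Fin 3) K) : Coord (A4 K) :=
  ⟨fun x => ev F x.1 x.2.1 x.2.2.1, fun f x => by
    rw [ev_map]
    rfl⟩

/-- the equation `A = c r ^ n B` -/
noncomputable def eqn (A B : MvPolynomial (Fin 3) K) (n : ℕ) (c : K) : Coord (A4 K) :=
  ⟨fun {R} _ _ x => ev A x.1 x.2.1 x.2.2.1 - algebraMap K R c * x.2.2.2 ^ n *
      ev B x.1 x.2.1 x.2.2.1, fun f x => by
    rw [map_sub, map_mul, map_mul, map_pow, ev_map, ev_map, AlgHom.commutes]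
    rfl⟩

/-- the cover over the large field -/
noncomputable def RK (D A B : MvPolynomial (Fin 3) K) (n : ℕ) (c : K) : KFn K :=
  (((A4 K).cls (e4 D)).cls (resC _ (eqn A B n c))).opn (resC _ (resC _ (e4 (A * B))))

theorem mem_RK [IsAlgClosed K] [Finite k] (hG : KOps K G) (hW : Cst k G)
    (D A B : MvPolynomial (Fin 3) k) {n d d' : ℕ} (hn : 0 < n) (hD : D.IsHomogeneous d')
    (h0 : D ≠ 0) (hA : A.IsHomogeneous d) (hB : B.IsHomogeneous d) (c : K) (hc : c ≠ 0) :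
    (RK (up3 K D) (up3 K A) (up3 K B) n c).Mem G := by
  obtain ⟨s, hs⟩ := IsAlgClosed.exists_pow_nat_eq c hn
  have hs0 : s ≠ 0 := by
    rintro rfl
    apply hc
    rw [← hs]
    exact zero_pow hn.ne'
  have h2 : ∀ (R : Type) [CommRing R] [Algebra K R],
      algebraMap K R c = algebraMap K R s ^ n := fun R _ _ => by rw [← map_pow, hs]
  refine Mem.of_iso ?_ (mem_of_k hG ((coneRC D A B hn hD h0 hA hB).mem (K := K) hG hW))
  have hup : ∀ (R : Type) [CommRing R] [Algebra K R] (x y z : R),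
      ev (up3 K A * up3 K B) x y z = @ev k _ (A * B) R _ (rs k K R) x y z := by
    intro R _ _ x y z
    rw [← ev_rs, map_mul]
  have hpow : ∀ (R : Type) [CommRing R] [Algebra K R] (y : R),
      @Polynomial.aeval k R _ _ (rs k K R) y (Polynomial.X ^ n) = y ^ n := by
    intro R _ _ y
    let _ := rs k K R
    rw [map_pow, Polynomial.aeval_X]
  exact
    { hom := fun {R} _ _ x => ⟨(⟨⟨(x.1.1.1.1, x.1.1.1.2.1, x.1.1.1.2.2.1),
          (ev_rs D x.1.1.1.1 x.1.1.1.2.1 x.1.1.1.2.2.1).symm.trans x.1.1.2⟩, by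
            have h3 : IsUnit (ev (up3 K A * up3 K B) x.1.1.1.1 x.1.1.1.2.1 x.1.1.1.2.2.1) := x.2
            rw [hup] at h3
            exact h3⟩, algebraMap K R s * x.1.1.1.2.2.2), by
        have h3 : ev (up3 K A) x.1.1.1.1 x.1.1.1.2.1 x.1.1.1.2.2.1 - algebraMap K R c *
          x.1.1.1.2.2.2 ^ n * ev (up3 K B) x.1.1.1.1 x.1.1.1.2.1 x.1.1.1.2.2.1 = 0 := x.1.2
        have h4 : IsUnit (ev (up3 K A * up3 K B) x.1.1.1.1 x.1.1.1.2.1 x.1.1.1.2.2.1) := x.2
        rw [ev_mul] at h4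
        have h5 := mul_inv' (isUnit_of_mul_isUnit_right h4)
        change @Polynomial.aeval k R _ _ (rs k K R) (algebraMap K R s * x.1.1.1.2.2.2)
          (Polynomial.X ^ n) - @ev k _ A R _ (rs k K R) x.1.1.1.1 x.1.1.1.2.1 x.1.1.1.2.2.1 *
            Ring.inverse (@ev k _ B R _ (rs k K R) x.1.1.1.1 x.1.1.1.2.1 x.1.1.1.2.2.1) = 0
        rw [← ev_rs, ← ev_rs, hpow, mul_pow, ← h2]
        set a := ev (up3 K A) x.1.1.1.1 x.1.1.1.2.1 x.1.1.1.2.2.1
        set b := ev (up3 K B) x.1.1.1.1 x.1.1.1.2.1 x.1.1.1.2.2.1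
        linear_combination (-(algebraMap K R c * x.1.1.1.2.2.2 ^ n)) * h5 - Ring.inverse b * h3⟩
      inv := fun {R} _ _ y => ⟨⟨⟨(y.1.1.1.1.1, y.1.1.1.1.2.1, y.1.1.1.1.2.2,
          algebraMap K R s⁻¹ * y.1.2),
          (ev_rs (K := K) D y.1.1.1.1.1 y.1.1.1.1.2.1 y.1.1.1.1.2.2).trans y.1.1.1.2⟩, by
        have h3 : @Polynomial.aeval k R _ _ (rs k K R) y.1.2 (Polynomial.X ^ n) -
          @ev k _ A R _ (rs k K R) y.1.1.1.1.1 y.1.1.1.1.2.1 y.1.1.1.1.2.2 *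
            Ring.inverse (@ev k _ B R _ (rs k K R) y.1.1.1.1.1 y.1.1.1.1.2.1 y.1.1.1.1.2.2) =
            0 := y.2
        have h4 : IsUnit (@ev k _ (A * B) R _ (rs k K R) y.1.1.1.1.1 y.1.1.1.1.2.1
          y.1.1.1.1.2.2) := y.1.1.2
        rw [← hup, ev_mul] at h4
        have h5 := mul_inv' (isUnit_of_mul_isUnit_right h4)
        rw [← ev_rs, ← ev_rs, hpow] at h3
        have h6 : algebraMap K R s ^ n * algebraMap K R s⁻¹ ^ n = 1 := by
          rw [← mul_pow, inv_alg hs0, one_pow]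
        change ev (up3 K A) y.1.1.1.1.1 y.1.1.1.1.2.1 y.1.1.1.1.2.2 - algebraMap K R c *
          (algebraMap K R s⁻¹ * y.1.2) ^ n * ev (up3 K B) y.1.1.1.1.1 y.1.1.1.1.2.1
            y.1.1.1.1.2.2 = 0
        rw [h2, mul_pow]
        set a := ev (up3 K A) y.1.1.1.1.1 y.1.1.1.1.2.1 y.1.1.1.1.2.2
        set b := ev (up3 K B) y.1.1.1.1.1 y.1.1.1.1.2.1 y.1.1.1.1.2.2
        linear_combination (-(b * y.1.2 ^ n)) * h6 - b * h3 - a * h5⟩, by
        have h4 : IsUnit (@ev k _ (A * B) R _ (rs k K R) y.1.1.1.1.1 y.1.1.1.1.2.1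
          y.1.1.1.1.2.2) := y.1.1.2
        rw [← hup] at h4
        exact h4⟩
      inv_hom := fun {R} _ _ x => Subtype.ext (Subtype.ext (Subtype.ext (Prod.ext rfl
        (Prod.ext rfl (Prod.ext rfl (by
          change algebraMap K R s⁻¹ * (algebraMap K R s * x.1.1.1.2.2.2) = x.1.1.1.2.2.2
          linear_combination x.1.1.1.2.2.2 * inv_alg hs0 (R := R)))))))
      hom_inv := fun {R} _ _ y => Subtype.ext (Prod.ext rfl (by
        change algebraMap K R s * (algebraMap K R s⁻¹ * y.1.2) = y.1.2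
        linear_combination y.1.2 * inv_alg hs0 (R := R)))
      nat := fun {R S} _ _ _ _ f x => Subtype.ext (Prod.ext rfl (by
        change f (algebraMap K R s * x.1.1.1.2.2.2) = algebraMap K S s * f x.1.1.1.2.2.2
        rw [map_mul, AlgHom.commutes])) }

/-- the intersection of three curves -/
noncomputable def ZK (D A B : MvPolynomial (Fin 3) K) : KFn K :=
  (((A3 K).cls (g3 D)).cls (resC _ (g3 A))).cls (resC _ (resC _ (g3 B)))

instance (D A B : MvPolynomial (Fin 3) K) : Rp (ZK D A B) := by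
  have h : Rp (A3 K) := Rp.iso isoA3
  unfold ZK
  infer_instance

theorem mem_ZK [Finite k] (hG : KOps K G) (hW : Cst k G)
    (D A B : MvPolynomial (Fin 3) k) {d d' d'' : ℕ} (hD : D.IsHomogeneous d')
    (h0 : D ≠ 0) (hA : A.IsHomogeneous d) (hB : B.IsHomogeneous d'') :
    (ZK (up3 K D) (up3 K A) (up3 K B)).Mem G := by
  have c := ((base D hD h0).cls (resC _ (g3 A)) (fun R _ _ t x => g3_wt hA R t x.1)).cls
    (resC _ (resC _ (g3 B))) (fun R _ _ t x => g3_wt hB R t x.1.1)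
  refine Mem.of_iso ?_ (mem_of_k hG (c.mem (K := K) hG hW))
  exact
    { hom := fun {R} _ _ x => ⟨⟨⟨x.1.1.1,
          (ev_rs D x.1.1.1.1 x.1.1.1.2.1 x.1.1.1.2.2).symm.trans x.1.1.2⟩,
          (ev_rs A x.1.1.1.1 x.1.1.1.2.1 x.1.1.1.2.2).symm.trans x.1.2⟩,
          (ev_rs B x.1.1.1.1 x.1.1.1.2.1 x.1.1.1.2.2).symm.trans x.2⟩
      inv := fun {R} _ _ x => ⟨⟨⟨x.1.1.1,
          (ev_rs (K := K) D x.1.1.1.1 x.1.1.1.2.1 x.1.1.1.2.2).trans x.1.1.2⟩,
          (ev_rs (K := K) A x.1.1.1.1 x.1.1.1.2.1 x.1.1.1.2.2).trans x.1.2⟩,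
          (ev_rs (K := K) B x.1.1.1.1 x.1.1.1.2.1 x.1.1.1.2.2).trans x.2⟩
      inv_hom := fun _ => rfl
      hom_inv := fun _ => rfl
      nat := fun _ _ => rfl }

end Pool.Agent.Helper49.TP
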