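import Pool.Agent.Helper49.TP.Const

/-!
# The constant parts of the cones over cubic surfaces
-/

set_option autoImplicit false

namespace Pool.Agent.Helper49.TP

open Pool.Agent.Helper29.CQ Pool.Agent.Helper65.CC Pool.Agent.Helper87.CC
  Pool.Agent.Helper65.CC.KFn
open Pool.Agent.Helper9.QP (A4 isoA4 mem_A4 Cst)
open Pool.Agent.Helper9.TP (CU InvU InvP FibT)
open Pool.Agent.Helper71.CP (ev ev_map ev_mul ev_pow)
open Pool.Agent.Helper71.PN
open Pool.Agent.Helper49.QP (rs bc)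
open Pool.Agent.Helper49.CP (Gk mem_of_k ev_rs)

variable {k K : Type} [Field k] [Field K] [Algebra k K]
  {G : ∀ (R : Type) [CommRing R] [Algebra K R], Prop}

/-- the polynomial over the large field -/
noncomputable abbrev up3 (K : Type) [Field K] [Algebra k K] (B : MvPolynomial (Fin 3) k) :
    MvPolynomial (Fin 3) K := MvPolynomial.map (algebraMap k K) B

/-- constant cones over plane curves -/
theorem mem_B [Finite k] (hG : KOps K G) (hW : Cst k G) (B : MvPolynomial (Fin 3) k) {d : ℕ}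
    (hB : B.IsHomogeneous d) (h0 : B ≠ 0) : ((A3 K).cls (g3 (up3 K B))).Mem G := by
  refine Mem.of_iso ?_ (mem_of_k hG ((base B hB h0).mem (K := K) hG hW))
  exact
    { hom := fun {R} _ _ x => ⟨x.1, (ev_rs B x.1.1 x.1.2.1 x.1.2.2).symm.trans x.2⟩
      inv := fun {R} _ _ x => ⟨x.1, (ev_rs (K := K) B x.1.1 x.1.2.1 x.1.2.2).trans x.2⟩
      inv_hom := fun _ => rfl
      hom_inv := fun _ => rfl
      nat := fun _ _ => rfl }

/-- the values of a polynomial on the cone -/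
noncomputable def cuc (F Q : MvPolynomial (Fin 3) K) (e : K) (B : MvPolynomial (Fin 3) K) :
    Coord (CU F Q e) :=
  ⟨fun x => ev B x.1.1 x.1.2.1 x.1.2.2.1, fun f x => by
    rw [ev_map]
    rfl⟩

theorem cu_eq (F Q : MvPolynomial (Fin 3) K) (e : K) {R : Type} [CommRing R] [Algebra K R]
    (x : (CU F Q e).obj R) : ev F x.1.1 x.1.2.1 x.1.2.2.1 -
      x.1.2.2.2 * ev Q x.1.1 x.1.2.1 x.1.2.2.1 + algebraMap K R e * x.1.2.2.2 ^ 3 = 0 := x.2

theorem inv_alg {s : K} (hs : s ≠ 0) {R : Type} [CommRing R] [Algebra K R] :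
    algebraMap K R s * algebraMap K R s⁻¹ = 1 := by
  rw [← map_mul, mul_inv_cancel₀ hs, map_one]

/-- the part `F = 0` -/
theorem mem_cuF [IsAlgClosed K] [Finite k] (hG : KOps K G) (hW : Cst k G)
    (F Q : MvPolynomial (Fin 3) k) (hF : F.IsHomogeneous 3) (hQ : Q.IsHomogeneous 2)
    (hF0 : F ≠ 0) (e : K) (he : e ≠ 0) :
    ((CU (up3 K F) (up3 K Q) e).cls (cuc _ _ _ (up3 K F))).Mem G := by
  obtain ⟨s, hs⟩ := IsAlgClosed.exists_pow_nat_eq e (n := 2) two_pos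
  have hs0 : s ≠ 0 := by
    rintro rfl
    apply he
    rw [← hs]
    ring
  have h2 : ∀ (R : Type) [CommRing R] [Algebra K R],
      algebraMap K R e = algebraMap K R s ^ 2 := fun R _ _ => by rw [← map_pow, hs]
  have c := (base F hF hF0).tri (resC _ (g3 Q)) (resC _ (g3 F))
    (fun R _ _ t x => g3_wt hQ R t x.1) (fun R _ _ t x => g3_wt hF R t x.1)
  refine Mem.of_iso ?_ (mem_of_k hG (c.mem (K := K) hG hW))
  exact
    { hom := fun {R} _ _ x => ⟨(⟨(x.1.1.1, x.1.1.2.1, x.1.1.2.2.1),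
          (ev_rs F x.1.1.1 x.1.1.2.1 x.1.1.2.2.1).symm.trans x.2⟩,
          algebraMap K R s * x.1.1.2.2.2), by
        have h1 := cu_eq _ _ _ x.1
        have h3 : ev (up3 K F) x.1.1.1 x.1.1.2.1 x.1.1.2.2.1 = 0 := x.2
        change @ev k _ F R _ (rs k K R) x.1.1.1 x.1.1.2.1 x.1.1.2.2.1 -
          (algebraMap K R s * x.1.1.2.2.2) *
            @ev k _ Q R _ (rs k K R) x.1.1.1 x.1.1.2.1 x.1.1.2.2.1 +
          (algebraMap K R s * x.1.1.2.2.2) ^ 3 = 0
        rw [← ev_rs, ← ev_rs, h3]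
        rw [h3, h2] at h1
        linear_combination (algebraMap K R s) * h1⟩
      inv := fun {R} _ _ y => ⟨⟨(y.1.1.1.1, y.1.1.1.2.1, y.1.1.1.2.2,
          algebraMap K R s⁻¹ * y.1.2), by
        have h1 : @ev k _ F R _ (rs k K R) y.1.1.1.1 y.1.1.1.2.1 y.1.1.1.2.2 - y.1.2 *
            @ev k _ Q R _ (rs k K R) y.1.1.1.1 y.1.1.1.2.1 y.1.1.1.2.2 + y.1.2 ^ 3 = 0 := y.2
        have h3 : @ev k _ F R _ (rs k K R) y.1.1.1.1 y.1.1.1.2.1 y.1.1.1.2.2 = 0 := y.1.1.2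
        rw [← ev_rs] at h3
        rw [← ev_rs, ← ev_rs, h3] at h1
        have h4 := inv_alg hs0 (R := R)
        change ev (up3 K F) y.1.1.1.1 y.1.1.1.2.1 y.1.1.1.2.2 - (algebraMap K R s⁻¹ * y.1.2) *
          ev (up3 K Q) y.1.1.1.1 y.1.1.1.2.1 y.1.1.1.2.2 +
            algebraMap K R e * (algebraMap K R s⁻¹ * y.1.2) ^ 3 = 0
        rw [h3, h2]
        linear_combination (algebraMap K R s⁻¹) * h1 +
          (algebraMap K R s⁻¹ * y.1.2 ^ 3 * (algebraMap K R s * algebraMap K R s⁻¹ + 1)) * h4⟩,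
        (ev_rs (K := K) F y.1.1.1.1 y.1.1.1.2.1 y.1.1.1.2.2).trans y.1.1.2⟩
      inv_hom := fun {R} _ _ x => Subtype.ext (Subtype.ext (Prod.ext rfl (Prod.ext rfl
        (Prod.ext rfl (by
          change algebraMap K R s⁻¹ * (algebraMap K R s * x.1.1.2.2.2) = x.1.1.2.2.2
          linear_combination x.1.1.2.2.2 * inv_alg hs0 (R := R))))))
      hom_inv := fun {R} _ _ y => Subtype.ext (Prod.ext rfl (by
        change algebraMap K R s * (algebraMap K R s⁻¹ * y.1.2) = y.1.2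
        linear_combination y.1.2 * inv_alg hs0 (R := R)))
      nat := fun {R S} _ _ _ _ f x => Subtype.ext (Prod.ext rfl (by
        change f (algebraMap K R s * x.1.1.2.2.2) = algebraMap K S s * f x.1.1.2.2.2
        rw [map_mul, AlgHom.commutes])) }

/-- the part `F = Q = 0` -/
theorem mem_cuFQ [IsAlgClosed K] [Finite k] (hG : KOps K G) (hW : Cst k G)
    (F Q : MvPolynomial (Fin 3) k) (hF : F.IsHomogeneous 3) (hQ : Q.IsHomogeneous 2)
    (hF0 : F ≠ 0) (e : K) (he : e ≠ 0) :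
    (((CU (up3 K F) (up3 K Q) e).cls (cuc _ _ _ (up3 K F))).cls
      (resC _ (cuc _ _ _ (up3 K Q)))).Mem G := by
  obtain ⟨s, hs⟩ := IsAlgClosed.exists_pow_nat_eq e (n := 2) two_pos
  have hs0 : s ≠ 0 := by
    rintro rfl
    apply he
    rw [← hs]
    ring
  have h2 : ∀ (R : Type) [CommRing R] [Algebra K R],
      algebraMap K R e = algebraMap K R s ^ 2 := fun R _ _ => by rw [← map_pow, hs]
  have c := ((base F hF hF0).cls (resC _ (g3 Q))
    (fun R _ _ t x => g3_wt hQ R t x.1)).tri (resC _ (resC _ (g3 Q))) (resC _ (resC _ (g3 F)))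
    (fun R _ _ t x => g3_wt hQ R t x.1.1) (fun R _ _ t x => g3_wt hF R t x.1.1)
  refine Mem.of_iso ?_ (mem_of_k hG (c.mem (K := K) hG hW))
  exact
    { hom := fun {R} _ _ x => ⟨(⟨⟨(x.1.1.1.1, x.1.1.1.2.1, x.1.1.1.2.2.1),
          (ev_rs F x.1.1.1.1 x.1.1.1.2.1 x.1.1.1.2.2.1).symm.trans x.1.2⟩,
          (ev_rs Q x.1.1.1.1 x.1.1.1.2.1 x.1.1.1.2.2.1).symm.trans x.2⟩,
          algebraMap K R s * x.1.1.1.2.2.2), by
        have h1 := cu_eq _ _ _ x.1.1
        have h3 : ev (up3 K F) x.1.1.1.1 x.1.1.1.2.1 x.1.1.1.2.2.1 = 0 := x.1.2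
        change @ev k _ F R _ (rs k K R) x.1.1.1.1 x.1.1.1.2.1 x.1.1.1.2.2.1 -
          (algebraMap K R s * x.1.1.1.2.2.2) *
            @ev k _ Q R _ (rs k K R) x.1.1.1.1 x.1.1.1.2.1 x.1.1.1.2.2.1 +
          (algebraMap K R s * x.1.1.1.2.2.2) ^ 3 = 0
        rw [← ev_rs, ← ev_rs, h3]
        rw [h3, h2] at h1
        linear_combination (algebraMap K R s) * h1⟩
      inv := fun {R} _ _ y => ⟨⟨⟨(y.1.1.1.1.1, y.1.1.1.1.2.1, y.1.1.1.1.2.2,
          algebraMap K R s⁻¹ * y.1.2), by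
        have h1 : @ev k _ F R _ (rs k K R) y.1.1.1.1.1 y.1.1.1.1.2.1 y.1.1.1.1.2.2 - y.1.2 *
            @ev k _ Q R _ (rs k K R) y.1.1.1.1.1 y.1.1.1.1.2.1 y.1.1.1.1.2.2 + y.1.2 ^ 3 = 0 :=
          y.2
        have h3 : @ev k _ F R _ (rs k K R) y.1.1.1.1.1 y.1.1.1.1.2.1 y.1.1.1.1.2.2 = 0 :=
          y.1.1.1.2
        rw [← ev_rs] at h3
        rw [← ev_rs, ← ev_rs, h3] at h1
        have h4 := inv_alg hs0 (R := R)
        change ev (up3 K F) y.1.1.1.1.1 y.1.1.1.1.2.1 y.1.1.1.1.2.2 -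
          (algebraMap K R s⁻¹ * y.1.2) *
          ev (up3 K Q) y.1.1.1.1.1 y.1.1.1.1.2.1 y.1.1.1.1.2.2 +
            algebraMap K R e * (algebraMap K R s⁻¹ * y.1.2) ^ 3 = 0
        rw [h3, h2]
        linear_combination (algebraMap K R s⁻¹) * h1 +
          (algebraMap K R s⁻¹ * y.1.2 ^ 3 * (algebraMap K R s * algebraMap K R s⁻¹ + 1)) * h4⟩,
        (ev_rs (K := K) F y.1.1.1.1.1 y.1.1.1.1.2.1 y.1.1.1.1.2.2).trans y.1.1.1.2⟩,
        (ev_rs (K := K) Q y.1.1.1.1.1 y.1.1.1.1.2.1 y.1.1.1.1.2.2).trans y.1.1.2⟩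
      inv_hom := fun {R} _ _ x => Subtype.ext (Subtype.ext (Subtype.ext (Prod.ext rfl
        (Prod.ext rfl (Prod.ext rfl (by
          change algebraMap K R s⁻¹ * (algebraMap K R s * x.1.1.1.2.2.2) = x.1.1.1.2.2.2
          linear_combination x.1.1.1.2.2.2 * inv_alg hs0 (R := R)))))))
      hom_inv := fun {R} _ _ y => Subtype.ext (Prod.ext rfl (by
        change algebraMap K R s * (algebraMap K R s⁻¹ * y.1.2) = y.1.2
        linear_combination y.1.2 * inv_alg hs0 (R := R)))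
      nat := fun {R S} _ _ _ _ f x => Subtype.ext (Prod.ext rfl (by
        change f (algebraMap K R s * x.1.1.1.2.2.2) = algebraMap K S s * f x.1.1.1.2.2.2
        rw [map_mul, AlgHom.commutes])) }

/-- the part `Q = 0` -/
theorem mem_cuQ [IsAlgClosed K] [Finite k] (hG : KOps K G) (hW : Cst k G)
    (F Q : MvPolynomial (Fin 3) k) (hF : F.IsHomogeneous 3) (hQ : Q.IsHomogeneous 2)
    (hQ0 : Q ≠ 0) (e : K) (he : e ≠ 0) :
    ((CU (up3 K F) (up3 K Q) e).cls (cuc _ _ _ (up3 K Q))).Mem G := by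
  obtain ⟨s, hs⟩ := IsAlgClosed.exists_pow_nat_eq e (n := 3) three_pos
  have hs0 : s ≠ 0 := by
    rintro rfl
    apply he
    rw [← hs]
    ring
  have h2 : ∀ (R : Type) [CommRing R] [Algebra K R],
      algebraMap K R e = algebraMap K R s ^ 3 := fun R _ _ => by rw [← map_pow, hs]
  have c := (base Q hQ hQ0).tri (resC _ (g3 Q)) (resC _ (g3 F))
    (fun R _ _ t x => g3_wt hQ R t x.1) (fun R _ _ t x => g3_wt hF R t x.1)
  refine Mem.of_iso ?_ (mem_of_k hG (c.mem (K := K) hG hW))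
  exact
    { hom := fun {R} _ _ x => ⟨(⟨(x.1.1.1, x.1.1.2.1, x.1.1.2.2.1),
          (ev_rs Q x.1.1.1 x.1.1.2.1 x.1.1.2.2.1).symm.trans x.2⟩,
          algebraMap K R s * x.1.1.2.2.2), by
        have h1 := cu_eq _ _ _ x.1
        have h3 : ev (up3 K Q) x.1.1.1 x.1.1.2.1 x.1.1.2.2.1 = 0 := x.2
        change @ev k _ F R _ (rs k K R) x.1.1.1 x.1.1.2.1 x.1.1.2.2.1 -
          (algebraMap K R s * x.1.1.2.2.2) *
            @ev k _ Q R _ (rs k K R) x.1.1.1 x.1.1.2.1 x.1.1.2.2.1 +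
          (algebraMap K R s * x.1.1.2.2.2) ^ 3 = 0
        rw [← ev_rs, ← ev_rs, h3]
        rw [h3, h2] at h1
        linear_combination h1⟩
      inv := fun {R} _ _ y => ⟨⟨(y.1.1.1.1, y.1.1.1.2.1, y.1.1.1.2.2,
          algebraMap K R s⁻¹ * y.1.2), by
        have h1 : @ev k _ F R _ (rs k K R) y.1.1.1.1 y.1.1.1.2.1 y.1.1.1.2.2 - y.1.2 *
            @ev k _ Q R _ (rs k K R) y.1.1.1.1 y.1.1.1.2.1 y.1.1.1.2.2 + y.1.2 ^ 3 = 0 := y.2
        have h3 : @ev k _ Q R _ (rs k K R) y.1.1.1.1 y.1.1.1.2.1 y.1.1.1.2.2 = 0 := y.1.1.2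
        rw [← ev_rs] at h3
        rw [← ev_rs, ← ev_rs, h3] at h1
        have h4 := inv_alg hs0 (R := R)
        change ev (up3 K F) y.1.1.1.1 y.1.1.1.2.1 y.1.1.1.2.2 - (algebraMap K R s⁻¹ * y.1.2) *
          ev (up3 K Q) y.1.1.1.1 y.1.1.1.2.1 y.1.1.1.2.2 +
            algebraMap K R e * (algebraMap K R s⁻¹ * y.1.2) ^ 3 = 0
        rw [h3, h2]
        set t := algebraMap K R s * algebraMap K R s⁻¹ with ht
        linear_combination h1 + (y.1.2 ^ 3 * (t ^ 2 + t + 1)) * h4⟩,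
        (ev_rs (K := K) Q y.1.1.1.1 y.1.1.1.2.1 y.1.1.1.2.2).trans y.1.1.2⟩
      inv_hom := fun {R} _ _ x => Subtype.ext (Subtype.ext (Prod.ext rfl (Prod.ext rfl
        (Prod.ext rfl (by
          change algebraMap K R s⁻¹ * (algebraMap K R s * x.1.1.2.2.2) = x.1.1.2.2.2
          linear_combination x.1.1.2.2.2 * inv_alg hs0 (R := R))))))
      hom_inv := fun {R} _ _ y => Subtype.ext (Prod.ext rfl (by
        change algebraMap K R s * (algebraMap K R s⁻¹ * y.1.2) = y.1.2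
        linear_combination y.1.2 * inv_alg hs0 (R := R)))
      nat := fun {R S} _ _ _ _ f x => Subtype.ext (Prod.ext rfl (by
        change f (algebraMap K R s * x.1.1.2.2.2) = algebraMap K S s * f x.1.1.2.2.2
        rw [map_mul, AlgHom.commutes])) }

end Pool.Agent.Helper49.TP
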