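import Pool.Agent.Helper49.TP.Const2
import Pool.Agent.Helper71.PN.Insep

/-!
# Constant cones over weighted curves and their covers of degree `n`
-/

set_option autoImplicit false

namespace Pool.Agent.Helper49.TP

open Pool.Agent.Helper29.CQ Pool.Agent.Helper65.CC Pool.Agent.Helper87.CC
  Pool.Agent.Helper65.CC.KFn
open Pool.Agent.Helper9.QP (A4 isoA4 mem_A4 Cst)
open Pool.Agent.Helper71.CP (ev ev_map ev_mul ev_pow)
open Pool.Agent.Helper71.PN
open Pool.Agent.Helper49.QP (rs bc)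
open Pool.Agent.Helper49.CP (Gk mem_of_k ev_rs ops_k)
open MvPolynomial (IsWeightedHomogeneous)

section small

variable {k : Type} [Field k]

/-! ### Substitutions of powers -/

/-- the substitution of powers for the variables -/
noncomputable def pw (w : Fin 3 → ℕ) : MvPolynomial (Fin 3) k →ₐ[k] MvPolynomial (Fin 3) k :=
  MvPolynomial.aeval fun i => MvPolynomial.X i ^ w i

theorem ev_pw (w : Fin 3 → ℕ) (F : MvPolynomial (Fin 3) k) {R : Type} [CommRing R] [Algebra k R]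
    (x y z : R) : ev (pw w F) x y z = ev F (x ^ w 0) (y ^ w 1) (z ^ w 2) := by
  have h1 : (MvPolynomial.aeval ![x, y, z] : MvPolynomial (Fin 3) k →ₐ[k] R).comp (pw w) =
      MvPolynomial.aeval ![x ^ w 0, y ^ w 1, z ^ w 2] := by
    apply MvPolynomial.algHom_ext
    intro i
    rw [AlgHom.comp_apply, pw, MvPolynomial.aeval_X, MvPolynomial.aeval_X, map_pow,
      MvPolynomial.aeval_X]
    fin_cases i <;> rfl
  exact DFunLike.congr_fun h1 F

theorem pw_hom {w : Fin 3 → ℕ} {F : MvPolynomial (Fin 3) k} {d : ℕ}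
    (hF : IsWeightedHomogeneous w F d) : (pw w F).IsHomogeneous d := by
  rw [pw, MvPolynomial.aeval_def, MvPolynomial.eval₂_eq']
  refine MvPolynomial.IsHomogeneous.sum _ _ _ fun m hm => ?_
  have h1 := hF (MvPolynomial.mem_support_iff.1 hm)
  rw [Finsupp.weight_apply, Finsupp.sum_fintype _ _ (fun i => by simp)] at h1
  rw [MvPolynomial.algebraMap_eq, ← h1]
  have h2 : (∏ i, ((MvPolynomial.X i : MvPolynomial (Fin 3) k) ^ w i) ^ m i).IsHomogeneous
      (∑ i, m i • w i) := by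
    refine MvPolynomial.IsHomogeneous.prod _ _ _ fun i _ => ?_
    rw [← pow_mul, smul_eq_mul, mul_comm (m i)]
    exact MvPolynomial.isHomogeneous_X_pow _ _
  have h3 := (MvPolynomial.isHomogeneous_C (Fin 3) (F.coeff m)).mul h2
  rwa [zero_add] at h3

theorem pw_ne' {L : Type} [Field L] [IsAlgClosed L] [Algebra k L]
    (ι : MvPolynomial (Fin 3) k →ₐ[k] L) (hι : Function.Injective ι) {w : Fin 3 → ℕ}
    (hw : ∀ i, 0 < w i) {F : MvPolynomial (Fin 3) k} (h : pw w F = 0) : F = 0 := by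
  obtain ⟨x, hx⟩ := IsAlgClosed.exists_pow_nat_eq (ι (MvPolynomial.X 0)) (hw 0)
  obtain ⟨y, hy⟩ := IsAlgClosed.exists_pow_nat_eq (ι (MvPolynomial.X 1)) (hw 1)
  obtain ⟨z, hz⟩ := IsAlgClosed.exists_pow_nat_eq (ι (MvPolynomial.X 2)) (hw 2)
  apply hι
  have h1 : ι F = ev F (ι (MvPolynomial.X 0)) (ι (MvPolynomial.X 1)) (ι (MvPolynomial.X 2)) := by
    rw [← ev_map]
    congr 1
    have h2 : (MvPolynomial.aeval ![MvPolynomial.X 0, MvPolynomial.X 1, MvPolynomial.X 2] :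
        MvPolynomial (Fin 3) k →ₐ[k] MvPolynomial (Fin 3) k) = AlgHom.id k _ := by
      apply MvPolynomial.algHom_ext
      intro i
      rw [MvPolynomial.aeval_X]
      fin_cases i <;> rfl
    exact (DFunLike.congr_fun h2 F).symm
  rw [h1, ← hx, ← hy, ← hz, ← ev_pw, h, map_zero]
  exact map_zero (MvPolynomial.aeval ![x, y, z])

theorem pw_ne {w : Fin 3 → ℕ} (hw : ∀ i, 0 < w i) {F : MvPolynomial (Fin 3) k} (h0 : F ≠ 0) :
    pw w F ≠ 0 := by
  intro h
  let Q := FractionRing (MvPolynomial (Fin 3) k)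
  let f : Q →ₐ[k] AlgebraicClosure Q := IsScalarTower.toAlgHom k Q (AlgebraicClosure Q)
  have hf : Function.Injective f := RingHom.injective (f : Q →+* AlgebraicClosure Q)
  let g : MvPolynomial (Fin 3) k →ₐ[k] Q := IsScalarTower.toAlgHom k _ Q
  have hg : Function.Injective g := IsFractionRing.injective (MvPolynomial (Fin 3) k) Q
  exact h0 (pw_ne' (f.comp g) (hf.comp hg) hw h)

/-! ### Covers of cones -/

/-- the action on the cover `r ^ n = a` -/
noncomputable def rootSc {Y : KFn k} (s : Sc Y) (a : Coord Y) (n γ : ℕ) (ha : Wt s a (n * γ)) :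
    Sc (rootF Y a (Polynomial.X ^ n)) where
  sc {R} _ _ t x := ⟨(s.sc t x.1.1, (t : R) ^ γ * x.1.2), by
    have h : Polynomial.aeval x.1.2 (Polynomial.X ^ n : Polynomial k) - a.val x.1.1 = 0 := x.2
    change Polynomial.aeval ((t : R) ^ γ * x.1.2) (Polynomial.X ^ n : Polynomial k) -
      a.val (s.sc t x.1.1) = 0
    rw [map_pow, Polynomial.aeval_X] at h ⊢
    rw [ha, mul_pow, ← pow_mul, mul_comm γ]
    linear_combination (t : R) ^ (n * γ) * h⟩
  one {R} _ _ x := Subtype.ext (Prod.ext (s.one _) (by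
    change ((1 : Rˣ) : R) ^ γ * x.1.2 = x.1.2
    rw [Units.val_one, one_pow, one_mul]))
  mul {R} _ _ t t' x := Subtype.ext (Prod.ext (s.mul t t' _) (by
    change ((t * t' : Rˣ) : R) ^ γ * x.1.2 = (t : R) ^ γ * ((t' : R) ^ γ * x.1.2)
    rw [Units.val_mul, mul_pow, mul_assoc]))
  nat {R S} _ _ _ _ f t x := Subtype.ext (Prod.ext (s.nat f t _) (by
    change f ((t : R) ^ γ * x.1.2) = f (t : R) ^ γ * f x.1.2
    rw [map_mul, map_pow]))

/-- covers of cones -/
noncomputable def Cone1.rootW {Y : KFn k} [Rp Y] (c : Cone1 Y) (a : Coord Y) {n : ℕ}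
    (hn : 0 < n) (γ : ℕ) (ha : Wt c.s a (n * γ)) : Cone1 (rootF Y a (Polynomial.X ^ n)) where
  s := rootSc c.s a n γ ha
  z := prC c.z
  y := prC c.y
  hz R _ _ t x := c.hz R t x.1.1
  hy R _ _ t x := c.hy R t x.1.1
  d1 := D1.of_iso (rootCls a _ (subC c.z 1)) (c.d1.root _ _ (by
    rwa [Polynomial.natDegree_X_pow]))
  d2 := D1.of_iso (F' := rootF ((Y.cls c.z).cls (resC _ (subC c.y 1))) (resC _ (resC _ a))
      (Polynomial.X ^ n))
    { hom := fun x => ⟨(⟨⟨x.1.1.1.1, x.1.2⟩, x.2⟩, x.1.1.1.2), x.1.1.2⟩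
      inv := fun x => ⟨⟨⟨(x.1.1.1.1, x.1.2), x.2⟩, x.1.1.1.2⟩, x.1.1.2⟩
      inv_hom := fun _ => rfl
      hom_inv := fun _ => rfl
      nat := fun _ _ => rfl } (c.d2.root _ _ (by rwa [Polynomial.natDegree_X_pow]))
  d3 := D1.of_iso (F' := rootF ((Y.cls c.z).cls (resC _ c.y)) (resC _ (resC _ a))
      (Polynomial.X ^ n))
    { hom := fun x => ⟨(⟨⟨x.1.1.1.1, x.1.2⟩, x.2⟩, x.1.1.1.2), x.1.1.2⟩
      inv := fun x => ⟨⟨⟨(x.1.1.1.1, x.1.2), x.2⟩, x.1.1.1.2⟩, x.1.1.2⟩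
      inv_hom := fun _ => rfl
      hom_inv := fun _ => rfl
      nat := fun _ _ => rfl } (c.d3.root _ _ (by rwa [Polynomial.natDegree_X_pow]))

/-- the covers are cones -/
noncomputable def coneRCw (D A B : MvPolynomial (Fin 3) k) {n d d' γ : ℕ} (hn : 0 < n)
    (hD : D.IsHomogeneous d') (h0 : D ≠ 0) (hA : A.IsHomogeneous (d + n * γ))
    (hB : B.IsHomogeneous d) : Cone1 (RC D A B n) :=
  Cone1.rootW ((base D hD h0).opn (resC _ (g3 (A * B)))
    (fun R _ _ t x => g3_wt (hA.mul hB) R t x.1)) _ hn γ (fun R _ _ t x => by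
      have hu : IsUnit (ev (A * B) x.1.1.1 x.1.1.2.1 x.1.1.2.2) := x.2
      rw [ev_mul] at hu
      have hB' := isUnit_of_mul_isUnit_right hu
      have k1 : ev A ((t : R) * x.1.1.1) ((t : R) * x.1.1.2.1) ((t : R) * x.1.1.2.2) =
        (t : R) ^ (d + n * γ) * ev A x.1.1.1 x.1.1.2.1 x.1.1.2.2 := ev_smul hA _ _ _ _
      have k2 : ev B ((t : R) * x.1.1.1) ((t : R) * x.1.1.2.1) ((t : R) * x.1.1.2.2) =
        (t : R) ^ d * ev B x.1.1.1 x.1.1.2.1 x.1.1.2.2 := ev_smul hB _ _ _ _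
      have k3 : IsUnit ((t : R) ^ d * ev B x.1.1.1 x.1.1.2.1 x.1.1.2.2) :=
        (t.isUnit.pow d).mul hB'
      change ev A ((t : R) * x.1.1.1) ((t : R) * x.1.1.2.1) ((t : R) * x.1.1.2.2) *
        Ring.inverse (ev B ((t : R) * x.1.1.1) ((t : R) * x.1.1.2.1) ((t : R) * x.1.1.2.2)) =
        (t : R) ^ (n * γ) * (ev A x.1.1.1 x.1.1.2.1 x.1.1.2.2 *
          Ring.inverse (ev B x.1.1.1 x.1.1.2.1 x.1.1.2.2))
      rw [k1, k2, pow_add]
      have k4 := mul_inv' k3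
      have k5 := mul_inv' hB'
      set a := ev A x.1.1.1 x.1.1.2.1 x.1.1.2.2
      set b := ev B x.1.1.1 x.1.1.2.1 x.1.1.2.2
      set w := Ring.inverse ((t : R) ^ d * b)
      set w' := Ring.inverse b
      linear_combination ((t : R) ^ (n * γ) * a * w') * k4 -
        ((t : R) ^ d * (t : R) ^ (n * γ) * a * w) * k5)

end small

variable {k K : Type} [Field k] [Field K] [Algebra k K]
  {G : ∀ (R : Type) [CommRing R] [Algebra K R], Prop}

theorem mem_RKg [IsAlgClosed K] [Finite k] (hG : KOps K G) (hW : Cst k G)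
    (D A B : MvPolynomial (Fin 3) k) {n d d' γ : ℕ} (hn : 0 < n) (hD : D.IsHomogeneous d')
    (h0 : D ≠ 0) (hA : A.IsHomogeneous (d + n * γ)) (hB : B.IsHomogeneous d) (c : K)
    (hc : c ≠ 0) : (RK (up3 K D) (up3 K A) (up3 K B) n c).Mem G := by
  obtain ⟨s, hs⟩ := IsAlgClosed.exists_pow_nat_eq c hn
  have hs0 : s ≠ 0 := by
    rintro rfl
    apply hc
    rw [← hs]
    exact zero_pow hn.ne'
  have h2 : ∀ (R : Type) [CommRing R] [Algebra K R],
      algebraMap K R c = algebraMap K R s ^ n := fun R _ _ => by rw [← map_pow, hs]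
  refine Mem.of_iso ?_ (mem_of_k hG ((coneRCw D A B hn hD h0 hA hB).mem (K := K) hG hW))
  have hup : ∀ (R : Type) [CommRing R] [Algebra K R] (x y z : R),
      ev (up3 K A * up3 K B) x y z = @ev k _ (A * B) R _ (rs k K R) x y z := by
    intro R _ _ x y z
    rw [← ev_rs, map_mul]
  have hpow : ∀ (R : Type) [CommRing R] [Algebra K R] (y : R),
      @Polynomial.aeval k R _ _ (rs k K R) y (Polynomial.X ^ n) = y ^ n := by
    intro R _ _ y
    let _ := rs k K R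
    rw [map_pow, Polynomial.aeval_X]
  exact
    { hom := fun {R} _ _ x => ⟨(⟨⟨(x.1.1.1.1, x.1.1.1.2.1, x.1.1.1.2.2.1),
          (ev_rs D x.1.1.1.1 x.1.1.1.2.1 x.1.1.1.2.2.1).symm.trans x.1.1.2⟩, by
            have h3 : IsUnit (ev (up3 K A * up3 K B) x.1.1.1.1 x.1.1.1.2.1 x.1.1.1.2.2.1) := x.2
            rw [hup] at h3
            exact h3⟩, algebraMap K R s * x.1.1.1.2.2.2), by
        have h3 : ev (up3 K A) x.1.1.1.1 x.1.1.1.2.1 x.1.1.1.2.2.1 - algebraMap K R c *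
          x.1.1.1.2.2.2 ^ n * ev (up3 K B) x.1.1.1.1 x.1.1.1.2.1 x.1.1.1.2.2.1 = 0 := x.1.2
        have h4 : IsUnit (ev (up3 K A * up3 K B) x.1.1.1.1 x.1.1.1.2.1 x.1.1.1.2.2.1) := x.2
        rw [ev_mul] at h4
        have h5 := mul_inv' (isUnit_of_mul_isUnit_right h4)
        change @Polynomial.aeval k R _ _ (rs k K R) (algebraMap K R s * x.1.1.1.2.2.2)
          (Polynomial.X ^ n) - @ev k _ A R _ (rs k K R) x.1.1.1.1 x.1.1.1.2.1 x.1.1.1.2.2.1 *
            Ring.inverse (@ev k _ B R _ (rs k K R) x.1.1.1.1 x.1.1.1.2.1 x.1.1.1.2.2.1) = 0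
        rw [← ev_rs, ← ev_rs, hpow, mul_pow, ← h2]
        set a := ev (up3 K A) x.1.1.1.1 x.1.1.1.2.1 x.1.1.1.2.2.1
        set b := ev (up3 K B) x.1.1.1.1 x.1.1.1.2.1 x.1.1.1.2.2.1
        linear_combination (-(algebraMap K R c * x.1.1.1.2.2.2 ^ n)) * h5 - Ring.inverse b * h3⟩
      inv := fun {R} _ _ y => ⟨⟨⟨(y.1.1.1.1.1, y.1.1.1.1.2.1, y.1.1.1.1.2.2,
          algebraMap K R s⁻¹ * y.1.2),
          (ev_rs (K := K) D y.1.1.1.1.1 y.1.1.1.1.2.1 y.1.1.1.1.2.2).trans y.1.1.1.2⟩, by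
        have h3 : @Polynomial.aeval k R _ _ (rs k K R) y.1.2 (Polynomial.X ^ n) -
          @ev k _ A R _ (rs k K R) y.1.1.1.1.1 y.1.1.1.1.2.1 y.1.1.1.1.2.2 *
            Ring.inverse (@ev k _ B R _ (rs k K R) y.1.1.1.1.1 y.1.1.1.1.2.1 y.1.1.1.1.2.2) =
            0 := y.2
        have h4 : IsUnit (@ev k _ (A * B) R _ (rs k K R) y.1.1.1.1.1 y.1.1.1.1.2.1
          y.1.1.1.1.2.2) := y.1.1.2
        rw [← hup, ev_mul] at h4
        have h5 := mul_inv' (isUnit_of_mul_isUnit_right h4)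
        rw [← ev_rs, ← ev_rs, hpow] at h3
        have h6 : algebraMap K R s ^ n * algebraMap K R s⁻¹ ^ n = 1 := by
          rw [← mul_pow, inv_alg hs0, one_pow]
        change ev (up3 K A) y.1.1.1.1.1 y.1.1.1.1.2.1 y.1.1.1.1.2.2 - algebraMap K R c *
          (algebraMap K R s⁻¹ * y.1.2) ^ n * ev (up3 K B) y.1.1.1.1.1 y.1.1.1.1.2.1
            y.1.1.1.1.2.2 = 0
        rw [h2, mul_pow]
        set a := ev (up3 K A) y.1.1.1.1.1 y.1.1.1.1.2.1 y.1.1.1.1.2.2
        set b := ev (up3 K B) y.1.1.1.1.1 y.1.1.1.1.2.1 y.1.1.1.1.2.2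
        linear_combination (-(b * y.1.2 ^ n)) * h6 - b * h3 - a * h5⟩, by
        have h4 : IsUnit (@ev k _ (A * B) R _ (rs k K R) y.1.1.1.1.1 y.1.1.1.1.2.1
          y.1.1.1.1.2.2) := y.1.1.2
        rw [← hup] at h4
        exact h4⟩
      inv_hom := fun {R} _ _ x => Subtype.ext (Subtype.ext (Subtype.ext (Prod.ext rfl
        (Prod.ext rfl (Prod.ext rfl (by
          change algebraMap K R s⁻¹ * (algebraMap K R s * x.1.1.1.2.2.2) = x.1.1.1.2.2.2
          linear_combination x.1.1.1.2.2.2 * inv_alg hs0 (R := R)))))))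
      hom_inv := fun {R} _ _ y => Subtype.ext (Prod.ext rfl (by
        change algebraMap K R s * (algebraMap K R s⁻¹ * y.1.2) = y.1.2
        linear_combination y.1.2 * inv_alg hs0 (R := R)))
      nat := fun {R S} _ _ _ _ f x => Subtype.ext (Prod.ext rfl (by
        change f (algebraMap K R s * x.1.1.1.2.2.2) = algebraMap K S s * f x.1.1.1.2.2.2
        rw [map_mul, AlgHom.commutes])) }

/-! ### Weighted curves -/

/-- transfer along roots of three functions -/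
theorem mem_of_root3 (hG : GOps K G) {F : KFn K} (x y z : Coord F) {a b c : ℕ} (ha : 0 < a)
    (hb : 0 < b) (hc : 0 < c)
    (h : (rootF (rootF (rootF F x (Polynomial.X ^ a)) (prC y) (Polynomial.X ^ b)) (prC (prC z))
      (Polynomial.X ^ c)).Mem G) : F.Mem G := by
  refine mem_of_root hG x _ (Polynomial.monic_X_pow a) (by rwa [Polynomial.natDegree_X_pow]) ?_
  refine mem_of_root hG (prC y) _ (Polynomial.monic_X_pow b)
    (by rwa [Polynomial.natDegree_X_pow]) ?_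
  exact mem_of_root hG (prC (prC z)) _ (Polynomial.monic_X_pow c)
    (by rwa [Polynomial.natDegree_X_pow]) h

theorem ev_up_pw (w : Fin 3 → ℕ) (F : MvPolynomial (Fin 3) k) {R : Type} [CommRing R]
    [Algebra K R] (x y z : R) :
    ev (up3 K (pw w F)) x y z = ev (up3 K F) (x ^ w 0) (y ^ w 1) (z ^ w 2) := by
  rw [ev_rs, ev_rs]
  exact @ev_pw k _ w F R _ (rs k K R) x y z

theorem root_eq {F : KFn K} {a : Coord F} {n : ℕ} {R : Type} [CommRing R] [Algebra K R]
    (x : (rootF F a (Polynomial.X ^ n)).obj R) : x.1.2 ^ n = a.val x.1.1 := by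
  have h : Polynomial.aeval x.1.2 (Polynomial.X ^ n : Polynomial K) - a.val x.1.1 = 0 := x.2
  rw [map_pow, Polynomial.aeval_X] at h
  exact sub_eq_zero.1 h

theorem root_mk {n : ℕ} {R : Type} [CommRing R] [Algebra K R] (y : R) :
    Polynomial.aeval y (Polynomial.X ^ n : Polynomial K) - y ^ n = 0 := by
  rw [map_pow, Polynomial.aeval_X, sub_self]

/-- constant cones over weighted curves -/
theorem mem_Bw [Finite k] (hG : GOps K G) (hW : Cst k G) {w : Fin 3 → ℕ} (hw : ∀ i, 0 < w i)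
    (B : MvPolynomial (Fin 3) k) {d : ℕ} (hB : IsWeightedHomogeneous w B d) (h0 : B ≠ 0) :
    ((A3 K).cls (g3 (up3 K B))).Mem G := by
  refine mem_of_root3 hG ⟨fun x => x.1.1, fun _ _ => rfl⟩ ⟨fun x => x.1.2.1, fun _ _ => rfl⟩
    ⟨fun x => x.1.2.2, fun _ _ => rfl⟩ (hw 0) (hw 1) (hw 2) ?_
  refine Mem.of_iso ?_ (mem_B hG.toKOps hW (pw w B) (pw_hom hB) (pw_ne hw h0))
  exact
    { hom := fun {R} _ _ x => ⟨(x.1.1.1.1.1.2, x.1.1.1.2, x.1.2), by
        have h1 := root_eq x.1.1.1.1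
        have h2 := root_eq x.1.1
        have h3 := root_eq x
        have h4 : ev (up3 K B) x.1.1.1.1.1.1.1.1 x.1.1.1.1.1.1.1.2.1 x.1.1.1.1.1.1.1.2.2 = 0 :=
          x.1.1.1.1.1.1.2
        change ev (up3 K (pw w B)) x.1.1.1.1.1.2 x.1.1.1.2 x.1.2 = 0
        rw [ev_up_pw, h1, h2, h3]
        exact h4⟩
      inv := fun {R} _ _ y => ⟨(⟨(⟨(⟨(y.1.1 ^ w 0, y.1.2.1 ^ w 1, y.1.2.2 ^ w 2), by
        have h1 : ev (up3 K (pw w B)) y.1.1 y.1.2.1 y.1.2.2 = 0 := y.2
        rw [ev_up_pw] at h1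
        exact h1⟩, y.1.1), root_mk _⟩, y.1.2.1), root_mk _⟩, y.1.2.2), root_mk _⟩
      inv_hom := fun {R} _ _ x => by
        have h1 := root_eq x.1.1.1.1
        have h2 := root_eq x.1.1
        have h3 := root_eq x
        exact Subtype.ext (Prod.ext (Subtype.ext (Prod.ext (Subtype.ext (Prod.ext
          (Subtype.ext (Prod.ext h1 (Prod.ext h2 h3))) rfl)) rfl)) rfl)
      hom_inv := fun _ => rfl
      nat := fun _ _ => rfl }

end Pool.Agent.Helper49.TP
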