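import Pool.Agent.Helper49.TP.Dir

/-!
# Cones over cubic surfaces without vertex
-/

set_option autoImplicit false

namespace Pool.Agent.Helper49.TP

open Pool.Agent.Helper29.CQ Pool.Agent.Helper65.CC Pool.Agent.Helper87.CC
  Pool.Agent.Helper65.CC.KFn
open Pool.Agent.Helper9.QP (A4 isoA4 mem_A4 Cst)
open Pool.Agent.Helper9.TP (CU InvU InvP FibT)
open Pool.Agent.Helper71.CP (ev ev_map)

variable {K : Type} [Field K] {G : ∀ (R : Type) [CommRing R] [Algebra K R], Prop}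

/-- cones over cubic surfaces -/
theorem mem_cubic [IsAlgClosed K] (h2 : (2 : K) ≠ 0) (hG : GOps K G) (Ψ : MvPolynomial (Fin 4) K)
    (hΨ : Ψ.IsHomogeneous 3) (h : ∀ v : Fin 4 → K, v ≠ 0 → ¬ Inv4 (ev4 Ψ) v) :
    ((A4 K).cls (ev4 Ψ)).Mem G := by
  obtain ⟨M, N, q, c, h1, h1', hx⟩ := exists_normal hΨ h
  have hx' : ∀ (R : Type) [CommRing R] [Algebra K R] (x : R × R × R × R),
      (ev4 Ψ).val (R := R) (lv4 M x) = (nf q c).val (R := R) x := fun R _ _ x =>
    hx R x.1 x.2.1 x.2.2.1 x.2.2.2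
  refine Mem.of_iso (iso4 (ev4 Ψ) (nf q c) M N h1 h1' hx') (mem_nf h2 hG q c fun u hu hi => ?_)
  exact h _ (mulVec_ne h1' hu) (inv4_lin h1 hx' u hi)

/-- the inclusion of the variables -/
noncomputable def inc3 (K : Type) [Field K] : Fin 3 → MvPolynomial (Fin 4) K :=
  ![MvPolynomial.X 0, MvPolynomial.X 1, MvPolynomial.X 2]

theorem ev4_inc3 (F : MvPolynomial (Fin 3) K) {R : Type} [CommRing R] [Algebra K R]
    (x y z r : R) :
    MvPolynomial.aeval ![x, y, z, r] (MvPolynomial.aeval (inc3 K) F) = ev F x y z := by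
  have h1 : (MvPolynomial.aeval ![x, y, z, r] : MvPolynomial (Fin 4) K →ₐ[K] R).comp
      (MvPolynomial.aeval (inc3 K)) = MvPolynomial.aeval ![x, y, z] := by
    apply MvPolynomial.algHom_ext
    intro i
    rw [AlgHom.comp_apply, MvPolynomial.aeval_X, MvPolynomial.aeval_X]
    fin_cases i
    · exact MvPolynomial.aeval_X _ _
    · exact MvPolynomial.aeval_X _ _
    · exact MvPolynomial.aeval_X _ _
  exact DFunLike.congr_fun h1 F

/-- the quaternary cubic form -/
noncomputable def Psi (F Q : MvPolynomial (Fin 3) K) (e : K) : MvPolynomial (Fin 4) K :=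
  MvPolynomial.aeval (inc3 K) F - MvPolynomial.X 3 * MvPolynomial.aeval (inc3 K) Q +
    MvPolynomial.C e * MvPolynomial.X 3 ^ 3

theorem Psi_hom {F Q : MvPolynomial (Fin 3) K} (hF : F.IsHomogeneous 3) (hQ : Q.IsHomogeneous 2)
    (e : K) : (Psi F Q e).IsHomogeneous 3 := by
  have hL : ∀ i, (inc3 K i).IsHomogeneous 1 := by
    intro i
    fin_cases i
    · exact MvPolynomial.isHomogeneous_X K 0
    · exact MvPolynomial.isHomogeneous_X K 1
    · exact MvPolynomial.isHomogeneous_X K 2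
  have h1 := hF.aeval (inc3 K) hL
  have h2 := hQ.aeval (inc3 K) hL
  rw [one_mul] at h1 h2
  exact (h1.sub ((MvPolynomial.isHomogeneous_X K 3).mul h2)).add
    (((MvPolynomial.isHomogeneous_X K 3).pow 3).C_mul e)

theorem ev4_Psi (F Q : MvPolynomial (Fin 3) K) (e : K) {R : Type} [CommRing R] [Algebra K R]
    (x y z r : R) : (ev4 (Psi F Q e)).val (R := R) (x, y, z, r) =
      ev F x y z - r * ev Q x y z + algebraMap K R e * r ^ 3 := by
  change MvPolynomial.aeval ![x, y, z, r] (Psi F Q e) = _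
  have h3 : (MvPolynomial.aeval ![x, y, z, r] (MvPolynomial.X 3 : MvPolynomial (Fin 4) K)) = r :=
    MvPolynomial.aeval_X _ 3
  rw [Psi, map_add, map_sub, map_mul, map_mul, map_pow, ev4_inc3, ev4_inc3, h3,
    MvPolynomial.aeval_C]

/-- the cone as a closed subfunctor of the cone of the quaternary form -/
noncomputable def isoCU (F Q : MvPolynomial (Fin 3) K) (e : K) :
    Iso (CU F Q e) ((A4 K).cls (ev4 (Psi F Q e))) where
  hom x := ⟨x.1, (ev4_Psi F Q e x.1.1 x.1.2.1 x.1.2.2.1 x.1.2.2.2).trans x.2⟩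
  inv x := ⟨x.1, (ev4_Psi F Q e x.1.1 x.1.2.1 x.1.2.2.1 x.1.2.2.2).symm.trans x.2⟩
  inv_hom _ := rfl
  hom_inv _ := rfl
  nat _ _ := rfl

/-- **(G1)** the cone over a cubic surface without vertex -/
theorem cu_mem [IsAlgClosed K] (h2 : (2 : K) ≠ 0) (hG : GOps K G) (F Q : MvPolynomial (Fin 3) K)
    (hF : F.IsHomogeneous 3) (hQ : Q.IsHomogeneous 2) (e : K)
    (h : ∀ v : Fin 4 → K, v ≠ 0 → ¬ InvU F Q e v) : (CU F Q e).Mem G := by
  refine Mem.of_iso (isoCU F Q e) (mem_cubic h2 hG _ (Psi_hom hF hQ e) fun v hv hi => ?_)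
  refine h v hv fun R _ _ x y z r t => ?_
  have h1 := hi R x y z r t
  rw [ev4_Psi, ev4_Psi] at h1
  exact h1

end Pool.Agent.Helper49.TP
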