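import Pool.Agent.Helper49.TP.Nf

/-!
# Invariant directions of the branch curve
-/

set_option autoImplicit false

namespace Pool.Agent.Helper49.TP

open Pool.Agent.Helper29.CQ Pool.Agent.Helper65.CC Pool.Agent.Helper87.CC
  Pool.Agent.Helper65.CC.KFn
open Pool.Agent.Helper9.QP (A4 isoA4 mem_A4 CV sqc F4_sqc Inv)
open Pool.Agent.Helper71.PN
open Pool.Agent.Helper71.QP (CVz cone_mem)

variable {K : Type} [Field K] {G : ∀ (R : Type) [CommRing R] [Algebra K R], Prop}

theorem half (h2 : (2 : K) ≠ 0) {R : Type} [CommRing R] [Algebra K R] :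
    algebraMap K R 2⁻¹ * 2 = 1 := by
  rw [← map_ofNat (algebraMap K R) 2, ← map_mul, inv_mul_cancel₀ h2, map_one]

/-! ### The direction is not contained in `z = 0`: the form is reducible -/

/-- the linear form -/
def ml (q : Fin 6 → K) (a b : K) : Fin 3 → K :=
  ![q 3 + 2 * q 0 * a + q 1 * b, q 4 + q 1 * a + 2 * q 2 * b,
    q 5 - q 0 * a ^ 2 - q 1 * (a * b) - q 2 * b ^ 2]

theorem qf_ml (q : Fin 6 → K) (a b : K) {R : Type} [CommRing R] [Algebra K R] (x y z : R) :
    qf q x y z = qf q (x - algebraMap K R a * z) (y - algebraMap K R b * z) 0 +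
      z * lf (ml q a b) x y z := by
  simp only [qf, lf, ml, Matrix.cons_val, map_add, map_sub, map_mul, map_pow, map_ofNat]
  ring

theorem lf_map (l : Fin 3 → K) {R S : Type} [CommRing R] [Algebra K R] [CommRing S]
    [Algebra K S] (f : R →ₐ[K] S) (x y z : R) : f (lf l x y z) = lf l (f x) (f y) (f z) := by
  simp only [lf, map_add, map_mul, AlgHom.commutes]

theorem F3_of (q : Fin 6 → K) (c : ℕ → ℕ → K) (a b : K)
    (h : ∀ (R : Type) [CommRing R] [Algebra K R] (x y z : R),
      F4 (Dc q c) x y z = F4 (Dc q c) (x - algebraMap K R a * z) (y - algebraMap K R b * z) 0)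
    (R : Type) [CommRing R] [Algebra K R] (x y z : R) :
    4 * F3 c x y z = lf (ml q a b) x y z *
      (2 * qf q (x - algebraMap K R a * z) (y - algebraMap K R b * z) 0 +
        z * lf (ml q a b) x y z) := by
  let A := MvPolynomial (Fin 3) K
  let X0 : A := MvPolynomial.X 0
  let X1 : A := MvPolynomial.X 1
  let X2 : A := MvPolynomial.X 2
  have h1 := h A X0 X1 X2
  rw [F4_Dc, F4_Dc, qf_ml q a b X0 X1 X2] at h1
  have h0 : X2 ≠ 0 := MvPolynomial.X_ne_zero _
  have key : 4 * F3 c X0 X1 X2 = lf (ml q a b) X0 X1 X2 *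
      (2 * qf q (X0 - algebraMap K A a * X2) (X1 - algebraMap K A b * X2) 0 +
        X2 * lf (ml q a b) X0 X1 X2) := by
    apply mul_left_cancel₀ h0
    linear_combination -h1
  let φ : A →ₐ[K] R := MvPolynomial.aeval ![x, y, z]
  have f0 : φ X0 = x := MvPolynomial.aeval_X _ 0
  have f1 : φ X1 = y := MvPolynomial.aeval_X _ 1
  have f2 : φ X2 = z := MvPolynomial.aeval_X _ 2
  have h3 := congrArg φ key
  rw [map_mul, map_mul, map_add, map_mul, map_mul, F3_map, lf_map, qf_map, map_sub, map_sub,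
    map_mul, map_mul, AlgHom.commutes, AlgHom.commutes, f0, f1, f2, map_zero, map_ofNat,
    map_ofNat] at h3
  exact h3

/-- the reducible cone `s (s z + q(x, y)) = 0` -/
def rd (q : Fin 6 → K) : Coord (A4 K) where
  val x := x.2.2.2 * (x.2.2.2 * x.2.2.1 + qf q x.1 x.2.1 0)
  nat f x := by
    rw [map_mul, map_add, map_mul, qf_map, map_zero]
    rfl

theorem mem_rd (hG : GOps K G) (q : Fin 6 → K) : ((A4 K).cls (rd q)).Mem G := by
  let s : Coord ((A4 K).cls (rd q)) := ⟨fun x => x.1.2.2.2, fun _ _ => rfl⟩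
  refine Mem.glue hG.toKOps s ?_ ?_
  · refine Mem.of_iso (F' := gm (A2 K)) ?_ (mem_gm hG.toKOps (mem_A2 hG))
    exact
      { hom := fun {R} _ _ x => ⟨((x.1.1.1, x.1.1.2.1), x.1.1.2.2.2), x.2⟩
        inv := fun {R} _ _ y => ⟨⟨(y.1.1.1, y.1.1.2,
            - qf q y.1.1.1 y.1.1.2 0 * Ring.inverse y.1.2, y.1.2), by
          have h1 : y.1.2 * Ring.inverse y.1.2 = 1 := mul_inv' y.2
          change y.1.2 * (y.1.2 * (- qf q y.1.1.1 y.1.1.2 0 * Ring.inverse y.1.2) +
            qf q y.1.1.1 y.1.1.2 0) = 0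
          linear_combination (- y.1.2 * qf q y.1.1.1 y.1.1.2 0) * h1⟩, y.2⟩
        inv_hom := fun {R} _ _ x => by
          have h0 : IsUnit x.1.1.2.2.2 := x.2
          have h1 := mul_inv' h0
          have h2 : x.1.1.2.2.2 * (x.1.1.2.2.2 * x.1.1.2.2.1 + qf q x.1.1.1 x.1.1.2.1 0) = 0 :=
            x.1.2
          have h3 := h0.mul_right_eq_zero.1 h2
          refine Subtype.ext (Subtype.ext (Prod.ext rfl (Prod.ext rfl (Prod.ext ?_ rfl))))
          change - qf q x.1.1.1 x.1.1.2.1 0 * Ring.inverse x.1.1.2.2.2 = x.1.1.2.2.1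
          linear_combination x.1.1.2.2.1 * h1 - Ring.inverse x.1.1.2.2.2 * h3
        hom_inv := fun _ => rfl
        nat := fun _ _ => rfl }
  · refine Mem.of_iso (F' := A3 K) ?_ (mem_A3 hG)
    exact
      { hom := fun {R} _ _ x => (x.1.1.1, x.1.1.2.1, x.1.1.2.2.1)
        inv := fun {R} _ _ y => ⟨⟨(y.1, y.2.1, y.2.2, 0), zero_mul _⟩, rfl⟩
        inv_hom := fun {R} _ _ x => by
          have h2 : x.1.1.2.2.2 = 0 := x.2
          exact Subtype.ext (Subtype.ext (Prod.ext rfl (Prod.ext rfl (Prod.ext rfl h2.symm))))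
        hom_inv := fun _ => rfl
        nat := fun _ _ => rfl }

theorem mem_nf_red (h2 : (2 : K) ≠ 0) (hG : GOps K G) (q : Fin 6 → K) (c : ℕ → ℕ → K) (a b : K)
    (h : ∀ (R : Type) [CommRing R] [Algebra K R] (x y z : R),
      F4 (Dc q c) x y z = F4 (Dc q c) (x - algebraMap K R a * z) (y - algebraMap K R b * z) 0) :
    ((A4 K).cls (nf q c)).Mem G := by
  refine Mem.of_iso (F' := (A4 K).cls (rd q)) ?_ (mem_rd hG q)
  have key : ∀ (R : Type) [CommRing R] [Algebra K R] (x y z r : R),
      r ^ 2 * z + r * qf q x y z + F3 c x y z =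
        (r + algebraMap K R 2⁻¹ * lf (ml q a b) x y z) *
          ((r + algebraMap K R 2⁻¹ * lf (ml q a b) x y z) * z +
            qf q (x - algebraMap K R a * z) (y - algebraMap K R b * z) 0) := by
    intro R _ _ x y z r
    have e1 := F3_of q c a b h R x y z
    have e2 := half h2 (R := R)
    rw [qf_ml q a b x y z]
    set t := algebraMap K R 2⁻¹
    set l := lf (ml q a b) x y z
    set Q := qf q (x - algebraMap K R a * z) (y - algebraMap K R b * z) 0
    set C := F3 c x y z
    linear_combination (t ^ 2) * e1 + (-(2 * t + 1) * C + t * l * Q - r * z * l) * e2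
  exact
    { hom := fun {R} _ _ x => ⟨(x.1.1 - algebraMap K R a * x.1.2.2.1,
        x.1.2.1 - algebraMap K R b * x.1.2.2.1, x.1.2.2.1,
        x.1.2.2.2 + algebraMap K R 2⁻¹ * lf (ml q a b) x.1.1 x.1.2.1 x.1.2.2.1), by
          have h1 := nf_eq q c x
          rw [key] at h1
          exact h1⟩
      inv := fun {R} _ _ y => ⟨(y.1.1 + algebraMap K R a * y.1.2.2.1,
        y.1.2.1 + algebraMap K R b * y.1.2.2.1, y.1.2.2.1,
        y.1.2.2.2 - algebraMap K R 2⁻¹ * lf (ml q a b) (y.1.1 + algebraMap K R a * y.1.2.2.1)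
          (y.1.2.1 + algebraMap K R b * y.1.2.2.1) y.1.2.2.1), by
          have h1 : y.1.2.2.2 * (y.1.2.2.2 * y.1.2.2.1 + qf q y.1.1 y.1.2.1 0) = 0 := y.2
          refine (key R (y.1.1 + algebraMap K R a * y.1.2.2.1)
            (y.1.2.1 + algebraMap K R b * y.1.2.2.1) y.1.2.2.1 (y.1.2.2.2 -
              algebraMap K R 2⁻¹ * lf (ml q a b) (y.1.1 + algebraMap K R a * y.1.2.2.1)
          (y.1.2.1 + algebraMap K R b * y.1.2.2.1) y.1.2.2.1)).trans ?_
          rw [sub_add_cancel, add_sub_cancel_right, add_sub_cancel_right]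
          exact h1⟩
      inv_hom := fun {R} _ _ x => by
        refine Subtype.ext (Prod.ext ?_ (Prod.ext ?_ (Prod.ext rfl ?_)))
        · exact sub_add_cancel _ _
        · exact sub_add_cancel _ _
        · change x.1.2.2.2 + algebraMap K R 2⁻¹ * lf (ml q a b) x.1.1 x.1.2.1 x.1.2.2.1 -
            algebraMap K R 2⁻¹ * lf (ml q a b)
              (x.1.1 - algebraMap K R a * x.1.2.2.1 + algebraMap K R a * x.1.2.2.1)
              (x.1.2.1 - algebraMap K R b * x.1.2.2.1 + algebraMap K R b * x.1.2.2.1)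
              x.1.2.2.1 = x.1.2.2.2
          rw [sub_add_cancel, sub_add_cancel, add_sub_cancel_right]
      hom_inv := fun {R} _ _ y => by
        refine Subtype.ext (Prod.ext ?_ (Prod.ext ?_ (Prod.ext rfl ?_)))
        · exact add_sub_cancel_right _ _
        · exact add_sub_cancel_right _ _
        · exact sub_add_cancel _ _
      nat := fun {R S} _ _ _ _ f x => by
        refine Subtype.ext (Prod.ext ?_ (Prod.ext ?_ (Prod.ext rfl ?_)))
        · change f (x.1.1 - algebraMap K R a * x.1.2.2.1) =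
            f x.1.1 - algebraMap K S a * f x.1.2.2.1
          rw [map_sub, map_mul, AlgHom.commutes]
        · change f (x.1.2.1 - algebraMap K R b * x.1.2.2.1) =
            f x.1.2.1 - algebraMap K S b * f x.1.2.2.1
          rw [map_sub, map_mul, AlgHom.commutes]
        · change f (x.1.2.2.2 + algebraMap K R 2⁻¹ * lf (ml q a b) x.1.1 x.1.2.1 x.1.2.2.1) =
            f x.1.2.2.2 + algebraMap K S 2⁻¹ * lf (ml q a b) (f x.1.1) (f x.1.2.1) (f x.1.2.2.1)
          rw [map_add, map_mul, AlgHom.commutes, lf_map] }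

/-! ### The direction is contained in `z = 0`: the cubic form has a vertex -/

theorem qb_inv (h2 : (2 : K) ≠ 0) (q : Fin 6 → K) (a b : K)
    (h : ∀ (R : Type) [CommRing R] [Algebra K R] (x y t : R),
      qf q (x + t * algebraMap K R a) (y + t * algebraMap K R b) 0 ^ 2 = qf q x y 0 ^ 2) :
    2 * q 0 * a + q 1 * b = 0 ∧ q 1 * a + 2 * q 2 * b = 0 ∧
      q 0 * a ^ 2 + q 1 * (a * b) + q 2 * b ^ 2 = 0 := by
  let A := MvPolynomial (Fin 3) K
  let X0 : A := MvPolynomial.X 0
  let X1 : A := MvPolynomial.X 1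
  let X2 : A := MvPolynomial.X 2
  have h1 := h A X0 X1 X2
  have key : ∀ (x y t : K), qf q (x + t * a) (y + t * b) 0 = qf q x y 0 := by
    intro x y t
    let φ : K → K → K → A →ₐ[K] K := fun x y z => MvPolynomial.aeval ![x, y, z]
    have f0 : ∀ x y z, φ x y z X0 = x := fun x y z => MvPolynomial.aeval_X _ 0
    have f1 : ∀ x y z, φ x y z X1 = y := fun x y z => MvPolynomial.aeval_X _ 1
    have f2 : ∀ x y z, φ x y z X2 = z := fun x y z => MvPolynomial.aeval_X _ 2
    have h3 : (qf q (X0 + X2 * algebraMap K A a) (X1 + X2 * algebraMap K A b) 0 - qf q X0 X1 0) *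
        (qf q (X0 + X2 * algebraMap K A a) (X1 + X2 * algebraMap K A b) 0 + qf q X0 X1 0) = 0 := by
      linear_combination h1
    rcases mul_eq_zero.1 h3 with h4 | h4
    · have h5 := congrArg (φ x y t) h4
      rw [map_sub, qf_map, qf_map, map_add, map_add, map_mul, map_mul, AlgHom.commutes,
        AlgHom.commutes, f0, f1, f2, map_zero] at h5
      exact sub_eq_zero.1 h5
    · have h6 : ∀ x y : K, qf q x y 0 = 0 := by
        intro x y
        have h5 := congrArg (φ x y 0) h4
        rw [map_add, qf_map, qf_map, map_add, map_add, map_mul, map_mul, AlgHom.commutes,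
          AlgHom.commutes, f0, f1, f2, map_zero, zero_mul, zero_mul, add_zero,
          add_zero] at h5
        have h7 : 2 * qf q x y 0 = 0 := by linear_combination h5
        exact (mul_eq_zero.1 h7).resolve_left h2
      rw [h6, h6]
  have k0 := key 0 0 1
  have k1 := key 1 0 1
  have k2 := key 0 1 1
  simp only [qf, Algebra.algebraMap_self, RingHom.id_apply] at k0 k1 k2
  refine ⟨?_, ?_, ?_⟩
  · linear_combination k1 - k0
  · linear_combination k2 - k0
  · linear_combination k0

theorem vertex_of (h2 : (2 : K) ≠ 0) (q : Fin 6 → K) (c : ℕ → ℕ → K) (v : Fin 3 → K)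
    (hv : v ≠ 0) (h0 : v 2 = 0) (h : Inv (Dc q c) v) :
    ∃ u : Fin 4 → K, u ≠ 0 ∧ Inv4 (nf q c) u := by
  obtain ⟨a, b, ha, hb⟩ : ∃ a b, v 0 = a ∧ v 1 = b := ⟨_, _, rfl, rfl⟩
  have hD : ∀ (R : Type) [CommRing R] [Algebra K R] (x y z t : R),
      F4 (Dc q c) (x + t * algebraMap K R a) (y + t * algebraMap K R b) z = F4 (Dc q c) x y z := by
    intro R _ _ x y z t
    have h3 := h R x y z t
    rw [ha, hb, h0, map_zero, mul_zero, add_zero] at h3
    exact h3
  obtain ⟨k0, k1, k2⟩ := qb_inv h2 q a b fun R _ _ x y t => by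
    have h3 := hD R x y 0 t
    rw [F4_Dc, F4_Dc] at h3
    linear_combination h3
  set κ := q 3 * a + q 4 * b with hκ
  have hq : ∀ (R : Type) [CommRing R] [Algebra K R] (x y z t : R),
      qf q (x + t * algebraMap K R a) (y + t * algebraMap K R b) z =
        qf q x y z + t * algebraMap K R κ * z := by
    intro R _ _ x y z t
    have e0 := congrArg (algebraMap K R) k0
    have e1 := congrArg (algebraMap K R) k1
    have e2 := congrArg (algebraMap K R) k2
    simp only [map_add, map_mul, map_pow, map_ofNat, map_zero] at e0 e1 e2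
    rw [hκ]
    simp only [qf, map_add, map_mul]
    linear_combination (x * t) * e0 + (y * t) * e1 + t ^ 2 * e2
  have hc : ∀ (R : Type) [CommRing R] [Algebra K R] (x y z t : R),
      4 * F3 c (x + t * algebraMap K R a) (y + t * algebraMap K R b) z =
        4 * F3 c x y z + 2 * qf q x y z * t * algebraMap K R κ +
          t ^ 2 * algebraMap K R κ ^ 2 * z := by
    intro R _ _ x y z t
    let A := MvPolynomial (Fin 4) K
    let X0 : A := MvPolynomial.X 0
    let X1 : A := MvPolynomial.X 1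
    let X2 : A := MvPolynomial.X 2
    let X3 : A := MvPolynomial.X 3
    have h1 := hD A X0 X1 X2 X3
    rw [F4_Dc, F4_Dc, hq] at h1
    have h0 : X2 ≠ 0 := MvPolynomial.X_ne_zero _
    have key : 4 * F3 c (X0 + X3 * algebraMap K A a) (X1 + X3 * algebraMap K A b) X2 =
        4 * F3 c X0 X1 X2 + 2 * qf q X0 X1 X2 * X3 * algebraMap K A κ +
          X3 ^ 2 * algebraMap K A κ ^ 2 * X2 := by
      apply mul_left_cancel₀ h0
      linear_combination -h1
    let φ : A →ₐ[K] R := MvPolynomial.aeval ![x, y, z, t]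
    have f0 : φ X0 = x := MvPolynomial.aeval_X _ 0
    have f1 : φ X1 = y := MvPolynomial.aeval_X _ 1
    have f2 : φ X2 = z := MvPolynomial.aeval_X _ 2
    have f3 : φ X3 = t := MvPolynomial.aeval_X _ 3
    have h3 := congrArg φ key
    simp only [map_mul, map_add, map_pow, map_ofNat, F3_map, qf_map, AlgHom.commutes, f0, f1, f2,
      f3] at h3
    exact h3
  refine ⟨![a, b, 0, -(κ * 2⁻¹)], ?_, ?_⟩
  · intro h1
    apply hv
    funext i
    fin_cases i
    · exact ha.trans (congrFun h1 0)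
    · exact hb.trans (congrFun h1 1)
    · exact h0
  · intro R _ _ x y z r t
    have e1 := hc R x y z t
    have e2 := half h2 (R := R)
    change (r + t * algebraMap K R (-(κ * 2⁻¹))) ^ 2 * (z + t * algebraMap K R 0) +
      (r + t * algebraMap K R (-(κ * 2⁻¹))) * qf q (x + t * algebraMap K R a)
        (y + t * algebraMap K R b) (z + t * algebraMap K R 0) +
      F3 c (x + t * algebraMap K R a) (y + t * algebraMap K R b) (z + t * algebraMap K R 0) =
      r ^ 2 * z + r * qf q x y z + F3 c x y z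
    rw [map_zero, mul_zero, add_zero, hq, map_neg, map_mul]
    set s := algebraMap K R 2⁻¹
    set k := algebraMap K R κ
    set Q := qf q x y z
    set C := F3 c x y z
    set C' := F3 c (x + t * algebraMap K R a) (y + t * algebraMap K R b) z
    have e3 : C' = C + s * Q * t * k + s ^ 2 * t ^ 2 * k ^ 2 * z := by
      linear_combination (s ^ 2) * e1 + (-(2 * s + 1) * C' + (2 * s + 1) * C + s * Q * t * k) * e2
    rw [e3]
    linear_combination (-(r * t * k * z) + s * t ^ 2 * k ^ 2 * z) * e2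

/-- **cones over cubic surfaces in normal form** -/
theorem mem_nf [IsAlgClosed K] (h2 : (2 : K) ≠ 0) (hG : GOps K G) (q : Fin 6 → K)
    (c : ℕ → ℕ → K) (h : ∀ u : Fin 4 → K, u ≠ 0 → ¬ Inv4 (nf q c) u) :
    ((A4 K).cls (nf q c)).Mem G := by
  by_cases hI : ∃ v : Fin 3 → K, v ≠ 0 ∧ Inv (Dc q c) v
  · obtain ⟨v, hv, hi⟩ := hI
    by_cases h0 : v 2 = 0
    · obtain ⟨u, hu, hi'⟩ := vertex_of h2 q c v hv h0 hi
      exact absurd hi' (h u hu)
    · refine mem_nf_red h2 hG q c (v 0 * (v 2)⁻¹) (v 1 * (v 2)⁻¹) fun R _ _ x y z => ?_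
      have h1 := hi R x y z (-(z * algebraMap K R (v 2)⁻¹))
      have h3 : algebraMap K R (v 2)⁻¹ * algebraMap K R (v 2) = 1 := by
        rw [← map_mul, inv_mul_cancel₀ h0, map_one]
      rw [← h1]
      congr 1
      · rw [map_mul]
        ring
      · rw [map_mul]
        ring
      · linear_combination (-z) * h3
  · push Not at hI
    exact mem_nf_of h2 hG q c hI

end Pool.Agent.Helper49.TP
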