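import Pool.Agent.Helper49.TP.ConstK

/-!
# The fibres of a pencil of cubics
-/

set_option autoImplicit false

namespace Pool.Agent.Helper49.TP

open Pool.Agent.Helper29.CQ Pool.Agent.Helper65.CC Pool.Agent.Helper87.CC
  Pool.Agent.Helper65.CC.KFn
open Pool.Agent.Helper9.QP (A4 isoA4 mem_A4 Cst)
open Pool.Agent.Helper9.TP (CU InvU InvP FibT)
open Pool.Agent.Helper71.CP (ev ev_map ev_mul ev_pow)
open Pool.Agent.Helper71.PN
open Pool.Agent.Helper49.QP (rs bc)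
open Pool.Agent.Helper49.CP (Gk mem_of_k ev_rs)

variable {k K : Type} [Field k] [Field K] [Algebra k K]
  {G : ∀ (R : Type) [CommRing R] [Algebra K R], Prop}

theorem ev_upF2 (F : MvPolynomial (Fin 3) k) {R : Type} [CommRing R] [Algebra K R] (x y z : R) :
    ev (MvPolynomial.map (algebraMap k K) (F ^ 2)) x y z = ev (up3 K F) x y z ^ 2 := by
  rw [map_pow, ev_pow]

theorem ev_upQ3 (Q : MvPolynomial (Fin 3) k) {R : Type} [CommRing R] [Algebra K R] (x y z : R) :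
    ev (MvPolynomial.map (algebraMap k K) (Q ^ 3)) x y z = ev (up3 K Q) x y z ^ 3 := by
  rw [map_pow, ev_pow]

theorem ev_upFQ (F Q : MvPolynomial (Fin 3) k) {R : Type} [CommRing R] [Algebra K R]
    (x y z : R) : ev (MvPolynomial.map (algebraMap k K) (F * Q)) x y z =
      ev (up3 K F) x y z * ev (up3 K Q) x y z := by
  rw [map_mul, ev_mul]

/-- the complement of the curves -/
theorem mem_UFQ [Finite k] (hG : GOps K G) (hW : Cst k G) (F Q : MvPolynomial (Fin 3) k)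
    (hF : F.IsHomogeneous 3) (hQ : Q.IsHomogeneous 2) (hF0 : F ≠ 0) (hQ0 : Q ≠ 0) :
    ((A3 K).opn (g3 (up3 K (F * Q)))).Mem G := by
  have hR : Rp (A3 K) := Rp.iso isoA3
  exact mem_opn hG.toKOps _ (mem_A3 hG) (mem_B hG.toKOps hW (F * Q) (hF.mul hQ)
    (mul_ne_zero hF0 hQ0))

theorem fibT_eq (F Q : MvPolynomial (Fin 3) k) (e : K) {R : Type} [CommRing R] [Algebra K R]
    (x : (FibT (MvPolynomial.map (algebraMap k K) (F ^ 2)) (MvPolynomial.map (algebraMap k K)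
      (Q ^ 3)) (MvPolynomial.map (algebraMap k K) (F * Q)) 2 1 e).obj R) :
    algebraMap K R e * ev (up3 K F) x.1.1.1 x.1.1.2.1 x.1.1.2.2.1 ^ 2 =
      ev (up3 K Q) x.1.1.1 x.1.1.2.1 x.1.1.2.2.1 ^ 3 *
        (x.1.1.2.2.2 ^ 2 * (1 - x.1.1.2.2.2)) := by
  have h1 : algebraMap K R e * ev (MvPolynomial.map (algebraMap k K) (F ^ 2)) x.1.1.1 x.1.1.2.1
      x.1.1.2.2.1 - ev (MvPolynomial.map (algebraMap k K) (Q ^ 3)) x.1.1.1 x.1.1.2.1
      x.1.1.2.2.1 * (x.1.1.2.2.2 ^ 2 * (1 - x.1.1.2.2.2) ^ 1) = 0 := x.1.2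
  rw [ev_upF2, ev_upQ3, pow_one] at h1
  exact sub_eq_zero.1 h1

theorem fibT_mk (F Q : MvPolynomial (Fin 3) k) (e : K) {R : Type} [CommRing R] [Algebra K R]
    (x y z v : R) (h : algebraMap K R e * ev (up3 K F) x y z ^ 2 =
      ev (up3 K Q) x y z ^ 3 * (v ^ 2 * (1 - v))) :
    algebraMap K R e * ev (MvPolynomial.map (algebraMap k K) (F ^ 2)) x y z -
      ev (MvPolynomial.map (algebraMap k K) (Q ^ 3)) x y z * (v ^ 2 * (1 - v) ^ 1) = 0 := by
  rw [ev_upF2, ev_upQ3, pow_one, h, sub_self]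

theorem fibT_unit (F Q : MvPolynomial (Fin 3) k) (e : K) {R : Type} [CommRing R] [Algebra K R]
    (x : (FibT (MvPolynomial.map (algebraMap k K) (F ^ 2)) (MvPolynomial.map (algebraMap k K)
      (Q ^ 3)) (MvPolynomial.map (algebraMap k K) (F * Q)) 2 1 e).obj R) :
    IsUnit (ev (up3 K F) x.1.1.1 x.1.1.2.1 x.1.1.2.2.1) ∧
      IsUnit (ev (up3 K Q) x.1.1.1 x.1.1.2.1 x.1.1.2.2.1) := by
  have h1 : IsUnit (ev (MvPolynomial.map (algebraMap k K) (F * Q)) x.1.1.1 x.1.1.2.1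
      x.1.1.2.2.1) := x.2
  rw [ev_upFQ] at h1
  exact ⟨isUnit_of_mul_isUnit_left h1, isUnit_of_mul_isUnit_right h1⟩

/-- **(G3)** the fibre over zero -/
theorem fib3_zero (hG : GOps K G) [Finite k] (hW : Cst k G)
    (F Q : MvPolynomial (Fin 3) k) (hF : F.IsHomogeneous 3) (hQ : Q.IsHomogeneous 2)
    (hF0 : F ≠ 0) (hQ0 : Q ≠ 0) :
    (FibT (MvPolynomial.map (algebraMap k K) (F ^ 2)) (MvPolynomial.map (algebraMap k K) (Q ^ 3))
      (MvPolynomial.map (algebraMap k K) (F * Q)) 2 1 0).Mem G := by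
  have hU := mem_UFQ hG hW F Q hF hQ hF0 hQ0
  let v : Coord (FibT (MvPolynomial.map (algebraMap k K) (F ^ 2))
    (MvPolynomial.map (algebraMap k K) (Q ^ 3))
      (MvPolynomial.map (algebraMap k K) (F * Q)) 2 1 0) := ⟨fun x => x.1.1.2.2.2, fun _ _ => rfl⟩
  have key : ∀ (R : Type) [CommRing R] [Algebra K R] (x : (FibT (MvPolynomial.map
      (algebraMap k K) (F ^ 2)) (MvPolynomial.map (algebraMap k K) (Q ^ 3))
      (MvPolynomial.map (algebraMap k K) (F * Q)) 2 1 0).obj R),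
      x.1.1.2.2.2 ^ 2 * (1 - x.1.1.2.2.2) = 0 := by
    intro R _ _ x
    have h1 := fibT_eq F Q 0 x
    have h2 := (fibT_unit F Q 0 x).2
    rw [map_zero, zero_mul] at h1
    exact (h2.pow 3).mul_right_eq_zero.1 h1.symm
  refine Mem.glue hG.toKOps v ?_ ?_
  · refine Mem.of_iso ?_ hU
    exact
      { hom := fun {R} _ _ x => ⟨(x.1.1.1.1, x.1.1.1.2.1, x.1.1.1.2.2.1), x.1.2⟩
        inv := fun {R} _ _ y => ⟨⟨⟨(y.1.1, y.1.2.1, y.1.2.2, 1), by
          refine fibT_mk F Q 0 _ _ _ _ ?_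
          rw [map_zero]
          ring⟩, y.2⟩, isUnit_one⟩
        inv_hom := fun {R} _ _ x => by
          have h1 := key R x.1
          have h2 : IsUnit x.1.1.1.2.2.2 := x.2
          have h3 : (1 : R) = x.1.1.1.2.2.2 := sub_eq_zero.1 ((h2.pow 2).mul_right_eq_zero.1 h1)
          exact Subtype.ext (Subtype.ext (Subtype.ext (Prod.ext rfl
            (Prod.ext rfl (Prod.ext rfl h3)))))
        hom_inv := fun {R} _ _ y => rfl
        nat := fun {R S} _ _ _ _ f x => rfl }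
  · refine Mem.of_iso ?_ hU
    exact
      { hom := fun {R} _ _ x => ⟨(x.1.1.1.1, x.1.1.1.2.1, x.1.1.1.2.2.1), x.1.2⟩
        inv := fun {R} _ _ y => ⟨⟨⟨(y.1.1, y.1.2.1, y.1.2.2, 0), by
          refine fibT_mk F Q 0 _ _ _ _ ?_
          rw [map_zero]
          ring⟩, y.2⟩, rfl⟩
        inv_hom := fun {R} _ _ x => by
          have h2 : x.1.1.1.2.2.2 = 0 := x.2
          exact Subtype.ext (Subtype.ext (Subtype.ext (Prod.ext rfl
            (Prod.ext rfl (Prod.ext rfl h2.symm)))))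
        hom_inv := fun {R} _ _ y => rfl
        nat := fun {R S} _ _ _ _ f x => rfl }

/-- the part `F Q = 0` of the cone -/
theorem mem_cu_cls [IsAlgClosed K] [Finite k] (hG : KOps K G) (hW : Cst k G)
    (F Q : MvPolynomial (Fin 3) k) (hF : F.IsHomogeneous 3) (hQ : Q.IsHomogeneous 2)
    (hF0 : F ≠ 0) (hQ0 : Q ≠ 0) (e : K) (he : e ≠ 0) :
    ((CU (up3 K F) (up3 K Q) e).cls (cuc _ _ _ (up3 K (F * Q)))).Mem G := by
  refine Mem.glue hG (resC _ (cuc _ _ _ (up3 K Q))) ?_ ?_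
  · refine Mem.of_iso (F' := ((CU (up3 K F) (up3 K Q) e).cls (cuc _ _ _ (up3 K F))).opn
      (resC _ (cuc _ _ _ (up3 K Q)))) ?_
      (mem_opn hG _ (mem_cuF hG hW F Q hF hQ hF0 e he) (mem_cuFQ hG hW F Q hF hQ hF0 e he))
    exact
      { hom := fun {R} _ _ x => ⟨⟨x.1.1, by
          have h1 : ev (up3 K (F * Q)) x.1.1.1.1 x.1.1.1.2.1 x.1.1.1.2.2.1 = 0 := x.1.2
          have h2 : IsUnit (ev (up3 K Q) x.1.1.1.1 x.1.1.1.2.1 x.1.1.1.2.2.1) := x.2
          rw [ev_upFQ] at h1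
          exact h2.mul_left_eq_zero.1 h1⟩, x.2⟩
        inv := fun {R} _ _ x => ⟨⟨x.1.1, by
          have h1 : ev (up3 K F) x.1.1.1.1 x.1.1.1.2.1 x.1.1.1.2.2.1 = 0 := x.1.2
          change ev (up3 K (F * Q)) x.1.1.1.1 x.1.1.1.2.1 x.1.1.1.2.2.1 = 0
          rw [ev_upFQ, h1, zero_mul]⟩, x.2⟩
        inv_hom := fun _ => rfl
        hom_inv := fun _ => rfl
        nat := fun _ _ => rfl }
  · refine Mem.of_iso (F' := (CU (up3 K F) (up3 K Q) e).cls (cuc _ _ _ (up3 K Q))) ?_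
      (mem_cuQ hG hW F Q hF hQ hQ0 e he)
    exact
      { hom := fun {R} _ _ x => ⟨x.1.1, x.2⟩
        inv := fun {R} _ _ x => ⟨⟨x.1, by
          have h1 : ev (up3 K Q) x.1.1.1 x.1.1.2.1 x.1.1.2.2.1 = 0 := x.2
          change ev (up3 K (F * Q)) x.1.1.1 x.1.1.2.1 x.1.1.2.2.1 = 0
          rw [ev_upFQ, h1, mul_zero]⟩, x.2⟩
        inv_hom := fun _ => rfl
        hom_inv := fun _ => rfl
        nat := fun _ _ => rfl }

theorem nat_aux (F Q : MvPolynomial (Fin 3) K) {R S : Type} [CommRing R] [CommRing S]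
    [Algebra K R] [Algebra K S] (f : R →ₐ[K] S) (x y z v : R) (h : IsUnit (ev Q x y z * v)) :
    f (ev F x y z * Ring.inverse (ev Q x y z * v)) =
      ev F (f x) (f y) (f z) * Ring.inverse (ev Q (f x) (f y) (f z) * f v) := by
  rw [map_mul, inv_nat f h, map_mul, ev_map, ev_map]

/-- the fibre as an open part of the cone -/
noncomputable def isoFib (F Q : MvPolynomial (Fin 3) k) (e : K) (he : e ≠ 0) :
    Iso (FibT (MvPolynomial.map (algebraMap k K) (F ^ 2))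
      (MvPolynomial.map (algebraMap k K) (Q ^ 3)) (MvPolynomial.map (algebraMap k K) (F * Q)) 2 1
        e) ((CU (up3 K F) (up3 K Q) e).opn (cuc _ _ _ (up3 K (F * Q)))) := by
  have hv : ∀ (R : Type) [CommRing R] [Algebra K R] (x : (FibT (MvPolynomial.map
      (algebraMap k K) (F ^ 2)) (MvPolynomial.map (algebraMap k K) (Q ^ 3))
      (MvPolynomial.map (algebraMap k K) (F * Q)) 2 1 e).obj R),
      IsUnit (ev (up3 K Q) x.1.1.1 x.1.1.2.1 x.1.1.2.2.1 * x.1.1.2.2.2) := by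
    intro R _ _ x
    have h1 := fibT_eq F Q e x
    obtain ⟨h2, h3⟩ := fibT_unit F Q e x
    have h4 : IsUnit (algebraMap K R e * ev (up3 K F) x.1.1.1 x.1.1.2.1 x.1.1.2.2.1 ^ 2) :=
      (unit_const he).mul (h2.pow 2)
    rw [h1] at h4
    have h5 := isUnit_of_mul_isUnit_left (isUnit_of_mul_isUnit_right h4)
    exact h3.mul ((isUnit_pow_iff two_ne_zero).1 h5)
  have hr : ∀ (R : Type) [CommRing R] [Algebra K R] (x : ((CU (up3 K F) (up3 K Q) e).opn
      (cuc _ _ _ (up3 K (F * Q)))).obj R),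
      IsUnit (x.1.1.2.2.2 * ev (up3 K Q) x.1.1.1 x.1.1.2.1 x.1.1.2.2.1) := by
    intro R _ _ x
    have h1 := cu_eq _ _ _ x.1
    have h2 : IsUnit (ev (up3 K (F * Q)) x.1.1.1 x.1.1.2.1 x.1.1.2.2.1) := x.2
    rw [ev_upFQ] at h2
    have h3 := isUnit_of_mul_isUnit_left h2
    have h4 : ev (up3 K F) x.1.1.1 x.1.1.2.1 x.1.1.2.2.1 = x.1.1.2.2.2 *
        (ev (up3 K Q) x.1.1.1 x.1.1.2.1 x.1.1.2.2.1 - algebraMap K R e * x.1.1.2.2.2 ^ 2) := by
      linear_combination h1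
    rw [h4] at h3
    exact (isUnit_of_mul_isUnit_left h3).mul (isUnit_of_mul_isUnit_right h2)
  exact
    { hom := fun {R} _ _ x => ⟨⟨(x.1.1.1, x.1.1.2.1, x.1.1.2.2.1,
        ev (up3 K F) x.1.1.1 x.1.1.2.1 x.1.1.2.2.1 *
          Ring.inverse (ev (up3 K Q) x.1.1.1 x.1.1.2.1 x.1.1.2.2.1 * x.1.1.2.2.2)), by
          have h1 := fibT_eq F Q e x
          have h2 := mul_inv' (hv R x)
          change ev (up3 K F) x.1.1.1 x.1.1.2.1 x.1.1.2.2.1 -
            (ev (up3 K F) x.1.1.1 x.1.1.2.1 x.1.1.2.2.1 *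
          Ring.inverse (ev (up3 K Q) x.1.1.1 x.1.1.2.1 x.1.1.2.2.1 * x.1.1.2.2.2)) *
            ev (up3 K Q) x.1.1.1 x.1.1.2.1 x.1.1.2.2.1 + algebraMap K R e *
            (ev (up3 K F) x.1.1.1 x.1.1.2.1 x.1.1.2.2.1 *
          Ring.inverse (ev (up3 K Q) x.1.1.1 x.1.1.2.1 x.1.1.2.2.1 * x.1.1.2.2.2)) ^ 3 = 0
          set f := ev (up3 K F) x.1.1.1 x.1.1.2.1 x.1.1.2.2.1
          set g := ev (up3 K Q) x.1.1.1 x.1.1.2.1 x.1.1.2.2.1
          set v := x.1.1.2.2.2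
          set w := Ring.inverse (g * v)
          linear_combination (f * w ^ 3) * h1 +
            (f * w * g * (1 - v) * (g * v * w + 1) - f) * h2⟩, x.2⟩
      inv := fun {R} _ _ y => ⟨⟨(y.1.1.1, y.1.1.2.1, y.1.1.2.2.1,
        ev (up3 K F) y.1.1.1 y.1.1.2.1 y.1.1.2.2.1 *
          Ring.inverse (y.1.1.2.2.2 * ev (up3 K Q) y.1.1.1 y.1.1.2.1 y.1.1.2.2.1)), by
          have h1 := cu_eq _ _ _ y.1
          have h2 := mul_inv' (hr R y)
          refine fibT_mk F Q e _ _ _ _ ?_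
          change algebraMap K R e * ev (up3 K F) y.1.1.1 y.1.1.2.1 y.1.1.2.2.1 ^ 2 =
            ev (up3 K Q) y.1.1.1 y.1.1.2.1 y.1.1.2.2.1 ^ 3 *
            ((ev (up3 K F) y.1.1.1 y.1.1.2.1 y.1.1.2.2.1 *
          Ring.inverse (y.1.1.2.2.2 * ev (up3 K Q) y.1.1.1 y.1.1.2.1 y.1.1.2.2.1)) ^ 2 *
          (1 - ev (up3 K F) y.1.1.1 y.1.1.2.1 y.1.1.2.2.1 *
          Ring.inverse (y.1.1.2.2.2 * ev (up3 K Q) y.1.1.1 y.1.1.2.1 y.1.1.2.2.1)))
          set f := ev (up3 K F) y.1.1.1 y.1.1.2.1 y.1.1.2.2.1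
          set g := ev (up3 K Q) y.1.1.1 y.1.1.2.1 y.1.1.2.2.1
          set r := y.1.1.2.2.2
          set w := Ring.inverse (r * g)
          set ε := algebraMap K R e
          linear_combination (g ^ 3 * f ^ 2 * w ^ 3) * h1 +
            (g ^ 3 * f ^ 2 * w ^ 2 - ε * f ^ 2 * ((r * g * w) ^ 2 + r * g * w + 1)) * h2⟩, y.2⟩
      inv_hom := fun {R} _ _ x => by
        have h2 := mul_inv' (hv R x)
        refine Subtype.ext (Subtype.ext (Prod.ext rfl (Prod.ext rfl (Prod.ext rfl ?_))))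
        have h5 : IsUnit ((ev (up3 K F) x.1.1.1 x.1.1.2.1 x.1.1.2.2.1 *
          Ring.inverse (ev (up3 K Q) x.1.1.1 x.1.1.2.1 x.1.1.2.2.1 * x.1.1.2.2.2)) *
            ev (up3 K Q) x.1.1.1 x.1.1.2.1 x.1.1.2.2.1) := by
          have h6 := IsUnit.of_mul_eq_one_right _ h2
          exact ((fibT_unit F Q e x).1.mul h6).mul (fibT_unit F Q e x).2
        have h7 := mul_inv' h5
        change ev (up3 K F) x.1.1.1 x.1.1.2.1 x.1.1.2.2.1 * Ring.inverse
          ((ev (up3 K F) x.1.1.1 x.1.1.2.1 x.1.1.2.2.1 *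
          Ring.inverse (ev (up3 K Q) x.1.1.1 x.1.1.2.1 x.1.1.2.2.1 * x.1.1.2.2.2)) *
            ev (up3 K Q) x.1.1.1 x.1.1.2.1 x.1.1.2.2.1) = x.1.1.2.2.2
        set f := ev (up3 K F) x.1.1.1 x.1.1.2.1 x.1.1.2.2.1
        set g := ev (up3 K Q) x.1.1.1 x.1.1.2.1 x.1.1.2.2.1
        set v := x.1.1.2.2.2
        set w := Ring.inverse (g * v)
        set w' := Ring.inverse (f * w * g)
        linear_combination (-(f * w')) * h2 + v * h7
      hom_inv := fun {R} _ _ y => by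
        have h2 := mul_inv' (hr R y)
        refine Subtype.ext (Subtype.ext (Prod.ext rfl (Prod.ext rfl (Prod.ext rfl ?_))))
        have h0 : IsUnit (ev (up3 K (F * Q)) y.1.1.1 y.1.1.2.1 y.1.1.2.2.1) := y.2
        rw [ev_upFQ] at h0
        have h5 : IsUnit (ev (up3 K Q) y.1.1.1 y.1.1.2.1 y.1.1.2.2.1 *
          (ev (up3 K F) y.1.1.1 y.1.1.2.1 y.1.1.2.2.1 *
          Ring.inverse (y.1.1.2.2.2 * ev (up3 K Q) y.1.1.1 y.1.1.2.1 y.1.1.2.2.1))) := by
          have h6 := IsUnit.of_mul_eq_one_right _ h2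
          exact (isUnit_of_mul_isUnit_right h0).mul ((isUnit_of_mul_isUnit_left h0).mul h6)
        have h7 := mul_inv' h5
        change ev (up3 K F) y.1.1.1 y.1.1.2.1 y.1.1.2.2.1 * Ring.inverse
          (ev (up3 K Q) y.1.1.1 y.1.1.2.1 y.1.1.2.2.1 *
          (ev (up3 K F) y.1.1.1 y.1.1.2.1 y.1.1.2.2.1 *
          Ring.inverse (y.1.1.2.2.2 * ev (up3 K Q) y.1.1.1 y.1.1.2.1 y.1.1.2.2.1))) =
          y.1.1.2.2.2
        set f := ev (up3 K F) y.1.1.1 y.1.1.2.1 y.1.1.2.2.1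
        set g := ev (up3 K Q) y.1.1.1 y.1.1.2.1 y.1.1.2.2.1
        set r := y.1.1.2.2.2
        set w := Ring.inverse (r * g)
        set w' := Ring.inverse (g * (f * w))
        linear_combination (-(f * w')) * h2 + r * h7
      nat := fun {R S} _ _ _ _ f x => by
        refine Subtype.ext (Subtype.ext (Prod.ext rfl (Prod.ext rfl (Prod.ext rfl ?_))))
        exact nat_aux (up3 K F) (up3 K Q) f _ _ _ _ (hv R x) }

/-- **(G3)** the fibre over a point `e ≠ 0` -/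
theorem fib3_ne [IsAlgClosed K] (hG : GOps K G) [Finite k] (hW : Cst k G)
    (F Q : MvPolynomial (Fin 3) k) (hF : F.IsHomogeneous 3) (hQ : Q.IsHomogeneous 2)
    (hF0 : F ≠ 0) (hQ0 : Q ≠ 0) (e : K) (he : e ≠ 0)
    (h : (CU (MvPolynomial.map (algebraMap k K) F) (MvPolynomial.map (algebraMap k K) Q) e).Mem
      G) :
    (FibT (MvPolynomial.map (algebraMap k K) (F ^ 2)) (MvPolynomial.map (algebraMap k K) (Q ^ 3))
      (MvPolynomial.map (algebraMap k K) (F * Q)) 2 1 e).Mem G :=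
  Mem.of_iso (isoFib F Q e he) (mem_opn hG.toKOps _ h
    (mem_cu_cls hG.toKOps hW F Q hF hQ hF0 hQ0 e he))

end Pool.Agent.Helper49.TP
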