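import Pool.Agent.Helper49.TP.Const2
import Pool.Agent.Helper49.TP.Fib

/-!
# The fibres of a pencil given by three conics
-/

set_option autoImplicit false

namespace Pool.Agent.Helper49.TP

open Pool.Agent.Helper29.CQ Pool.Agent.Helper65.CC Pool.Agent.Helper87.CC
  Pool.Agent.Helper65.CC.KFn
open Pool.Agent.Helper9.QP (A4 isoA4 mem_A4 Cst)
open Pool.Agent.Helper9.TP (FibT CB)
open Pool.Agent.Helper71.CP (ev ev_map ev_mul ev_pow)
open Pool.Agent.Helper71.PN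

variable {k K : Type} [Field k] [Field K] [Algebra k K]
  {G : ∀ (R : Type) [CommRing R] [Algebra K R], Prop}

/-- the values of a polynomial on the conic bundle -/
noncomputable def cbc (F₀ F₁ F₂ : MvPolynomial (Fin 3) K) (i j : ℕ) (c : K)
    (B : MvPolynomial (Fin 3) K) : Coord (CB F₀ F₁ F₂ i j c) :=
  ⟨fun x => ev B x.1.1.1 x.1.1.2.1 x.1.1.2.2.1, fun f x => by
    rw [ev_map]
    rfl⟩

theorem cb_eq (F₀ F₁ F₂ : MvPolynomial (Fin 3) K) (i j : ℕ) (c : K) {R : Type} [CommRing R]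
    [Algebra K R] (x : (CB F₀ F₁ F₂ i j c).obj R) :
    ev F₀ x.1.1.1 x.1.1.2.1 x.1.1.2.2.1 - x.1.1.2.2.2 ^ j *
      ev F₁ x.1.1.1 x.1.1.2.1 x.1.1.2.2.1 + algebraMap K R c * x.1.1.2.2.2 ^ (i + j) *
      ev F₂ x.1.1.1 x.1.1.2.1 x.1.1.2.2.1 = 0 := x.1.2

theorem unit_of_pow {R : Type} [CommRing R] {r : R} {n : ℕ} (hn : 0 < n) (h : IsUnit (r ^ n)) :
    IsUnit r := (isUnit_pow_iff hn.ne').1 h

/-- the part `F₀ F₁ F₂ = 0` of the conic bundle -/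
theorem mem_cb_cls [IsAlgClosed K] [Finite k] (hG : KOps K G) (hW : Cst k G)
    (F₀ F₁ F₂ : MvPolynomial (Fin 3) k) (h₀ : F₀.IsHomogeneous 2) (h₁ : F₁.IsHomogeneous 2)
    (h₂ : F₂.IsHomogeneous 2) (n₀ : F₀ ≠ 0) (n₁ : F₁ ≠ 0) (n₂ : F₂ ≠ 0)
    (i j : ℕ) (hi : 0 < i) (hj : 0 < j) (c : K) (hc : c ≠ 0) :
    ((CB (up3 K F₀) (up3 K F₁) (up3 K F₂) i j c).cls
      (cbc _ _ _ i j c (up3 K F₀ * up3 K F₁ * up3 K F₂))).Mem G := by
  refine Mem.glue hG (resC _ (cbc _ _ _ i j c (up3 K F₀))) ?_ ?_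
  · refine Mem.glue hG (resO _ (resC _ (cbc _ _ _ i j c (up3 K F₁)))) ?_ ?_
    · refine Mem.of_iso ?_ (mem_RK hG hW F₂ F₀ F₁ hj h₂ n₂ h₀ h₁ 1 one_ne_zero)
      exact
        { hom := fun {R} _ _ x => by
            have e0 : IsUnit (ev (up3 K F₀) x.1.1.1.1.1.1 x.1.1.1.1.1.2.1 x.1.1.1.1.1.2.2.1) :=
              x.1.2
            have e1 : IsUnit (ev (up3 K F₁) x.1.1.1.1.1.1 x.1.1.1.1.1.2.1 x.1.1.1.1.1.2.2.1) :=
              x.2
            have e2 : ev (up3 K F₀ * up3 K F₁ * up3 K F₂) x.1.1.1.1.1.1 x.1.1.1.1.1.2.1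
              x.1.1.1.1.1.2.2.1 = 0 := x.1.1.2
            rw [ev_mul, ev_mul] at e2
            have e3 := (e0.mul e1).mul_right_eq_zero.1 e2
            have e4 := cb_eq _ _ _ i j c x.1.1.1
            rw [e3, mul_zero, add_zero] at e4
            refine ⟨⟨⟨x.1.1.1.1.1, e3⟩, ?_⟩, ?_⟩
            · change ev (up3 K F₀) x.1.1.1.1.1.1 x.1.1.1.1.1.2.1 x.1.1.1.1.1.2.2.1 -
                algebraMap K R 1 * x.1.1.1.1.1.2.2.2 ^ j *
                ev (up3 K F₁) x.1.1.1.1.1.1 x.1.1.1.1.1.2.1 x.1.1.1.1.1.2.2.1 = 0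
              rw [map_one, one_mul]
              exact e4
            · change IsUnit (ev (up3 K F₀ * up3 K F₁) x.1.1.1.1.1.1 x.1.1.1.1.1.2.1
                x.1.1.1.1.1.2.2.1)
              rw [ev_mul]
              exact e0.mul e1
          inv := fun {R} _ _ y => by
            have e2 : ev (up3 K F₂) y.1.1.1.1 y.1.1.1.2.1 y.1.1.1.2.2.1 = 0 := y.1.1.2
            have e4 : ev (up3 K F₀) y.1.1.1.1 y.1.1.1.2.1 y.1.1.1.2.2.1 -
                algebraMap K R 1 * y.1.1.1.2.2.2 ^ j *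
                ev (up3 K F₁) y.1.1.1.1 y.1.1.1.2.1 y.1.1.1.2.2.1 = 0 := y.1.2
            have e5 : IsUnit (ev (up3 K F₀ * up3 K F₁) y.1.1.1.1 y.1.1.1.2.1
                y.1.1.1.2.2.1) := y.2
            rw [ev_mul] at e5
            rw [map_one, one_mul] at e4
            have e0 := isUnit_of_mul_isUnit_left e5
            have e1 := isUnit_of_mul_isUnit_right e5
            have e6 : IsUnit y.1.1.1.2.2.2 := by
              refine unit_of_pow hj ?_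
              rw [sub_eq_zero.1 e4] at e0
              exact isUnit_of_mul_isUnit_left e0
            refine ⟨⟨⟨⟨⟨y.1.1.1, ?_⟩, e6⟩, ?_⟩, e0⟩, e1⟩
            · change ev (up3 K F₀) y.1.1.1.1 y.1.1.1.2.1 y.1.1.1.2.2.1 - y.1.1.1.2.2.2 ^ j *
                ev (up3 K F₁) y.1.1.1.1 y.1.1.1.2.1 y.1.1.1.2.2.1 + algebraMap K R c *
                y.1.1.1.2.2.2 ^ (i + j) * ev (up3 K F₂) y.1.1.1.1 y.1.1.1.2.1 y.1.1.1.2.2.1 = 0
              rw [e2, mul_zero, add_zero]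
              exact e4
            · change ev (up3 K F₀ * up3 K F₁ * up3 K F₂) y.1.1.1.1 y.1.1.1.2.1
                y.1.1.1.2.2.1 = 0
              rw [ev_mul, e2, mul_zero]
          inv_hom := fun _ => rfl
          hom_inv := fun _ => rfl
          nat := fun _ _ => rfl }
    · refine Mem.of_iso ?_ (mem_RK hG hW F₁ F₀ F₂ (Nat.add_pos_left hi j) h₁ n₁ h₀ h₂ (-c)
        (neg_ne_zero.2 hc))
      exact
        { hom := fun {R} _ _ x => by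
            have e0 : IsUnit (ev (up3 K F₀) x.1.1.1.1.1.1 x.1.1.1.1.1.2.1 x.1.1.1.1.1.2.2.1) :=
              x.1.2
            have e1 : ev (up3 K F₁) x.1.1.1.1.1.1 x.1.1.1.1.1.2.1 x.1.1.1.1.1.2.2.1 = 0 :=
              x.2
            have e4 := cb_eq _ _ _ i j c x.1.1.1
            rw [e1, mul_zero, sub_zero] at e4
            have e5 : ev (up3 K F₀) x.1.1.1.1.1.1 x.1.1.1.1.1.2.1 x.1.1.1.1.1.2.2.1 =
                algebraMap K R (-c) * x.1.1.1.1.1.2.2.2 ^ (i + j) *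
                ev (up3 K F₂) x.1.1.1.1.1.1 x.1.1.1.1.1.2.1 x.1.1.1.1.1.2.2.1 := by
              rw [map_neg]
              linear_combination e4
            have e6 := e0
            rw [e5] at e6
            refine ⟨⟨⟨x.1.1.1.1.1, e1⟩, sub_eq_zero.2 e5⟩, ?_⟩
            change IsUnit (ev (up3 K F₀ * up3 K F₂) x.1.1.1.1.1.1 x.1.1.1.1.1.2.1
                x.1.1.1.1.1.2.2.1)
            rw [ev_mul]
            exact e0.mul (isUnit_of_mul_isUnit_right e6)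
          inv := fun {R} _ _ y => by
            have e1 : ev (up3 K F₁) y.1.1.1.1 y.1.1.1.2.1 y.1.1.1.2.2.1 = 0 := y.1.1.2
            have e4 : ev (up3 K F₀) y.1.1.1.1 y.1.1.1.2.1 y.1.1.1.2.2.1 -
                algebraMap K R (-c) * y.1.1.1.2.2.2 ^ (i + j) *
                ev (up3 K F₂) y.1.1.1.1 y.1.1.1.2.1 y.1.1.1.2.2.1 = 0 := y.1.2
            have e5 : IsUnit (ev (up3 K F₀ * up3 K F₂) y.1.1.1.1 y.1.1.1.2.1
                y.1.1.1.2.2.1) := y.2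
            rw [ev_mul] at e5
            have e0 := isUnit_of_mul_isUnit_left e5
            have e6 : IsUnit y.1.1.1.2.2.2 := by
              refine unit_of_pow (Nat.add_pos_left hi j) ?_
              have e7 := e0
              rw [sub_eq_zero.1 e4] at e7
              exact isUnit_of_mul_isUnit_right (isUnit_of_mul_isUnit_left e7)
            refine ⟨⟨⟨⟨⟨y.1.1.1, ?_⟩, e6⟩, ?_⟩, e0⟩, e1⟩
            · change ev (up3 K F₀) y.1.1.1.1 y.1.1.1.2.1 y.1.1.1.2.2.1 - y.1.1.1.2.2.2 ^ j *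
                ev (up3 K F₁) y.1.1.1.1 y.1.1.1.2.1 y.1.1.1.2.2.1 + algebraMap K R c *
                y.1.1.1.2.2.2 ^ (i + j) * ev (up3 K F₂) y.1.1.1.1 y.1.1.1.2.1 y.1.1.1.2.2.1 = 0
              rw [e1]
              rw [map_neg] at e4
              linear_combination e4
            · change ev (up3 K F₀ * up3 K F₁ * up3 K F₂) y.1.1.1.1 y.1.1.1.2.1
                y.1.1.1.2.2.1 = 0
              rw [ev_mul, ev_mul, e1, mul_zero, zero_mul]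
          inv_hom := fun _ => rfl
          hom_inv := fun _ => rfl
          nat := fun _ _ => rfl }
  · refine Mem.glue hG (resC _ (resC _ (cbc _ _ _ i j c (up3 K F₂)))) ?_ ?_
    · refine Mem.of_iso ?_ (mem_RK hG hW F₀ F₁ F₂ hi h₀ n₀ h₁ h₂ c hc)
      exact
        { hom := fun {R} _ _ x => by
            have e0 : ev (up3 K F₀) x.1.1.1.1.1.1 x.1.1.1.1.1.2.1 x.1.1.1.1.1.2.2.1 = 0 :=
              x.1.2
            have e2 : IsUnit (ev (up3 K F₂) x.1.1.1.1.1.1 x.1.1.1.1.1.2.1 x.1.1.1.1.1.2.2.1) :=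
              x.2
            have e4 := cb_eq _ _ _ i j c x.1.1.1
            have e3 : IsUnit x.1.1.1.1.1.2.2.2 := x.1.1.1.2
            rw [e0] at e4
            have e5 : ev (up3 K F₁) x.1.1.1.1.1.1 x.1.1.1.1.1.2.1 x.1.1.1.1.1.2.2.1 =
                algebraMap K R c * x.1.1.1.1.1.2.2.2 ^ i *
                ev (up3 K F₂) x.1.1.1.1.1.1 x.1.1.1.1.1.2.1 x.1.1.1.1.1.2.2.1 := by
              apply (e3.pow j).mul_left_cancel
              rw [pow_add] at e4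
              linear_combination -e4
            refine ⟨⟨⟨x.1.1.1.1.1, e0⟩, sub_eq_zero.2 e5⟩, ?_⟩
            change IsUnit (ev (up3 K F₁ * up3 K F₂) x.1.1.1.1.1.1 x.1.1.1.1.1.2.1
                x.1.1.1.1.1.2.2.1)
            rw [ev_mul, e5]
            exact (((unit_const hc).mul (e3.pow i)).mul e2).mul e2
          inv := fun {R} _ _ y => by
            have e0 : ev (up3 K F₀) y.1.1.1.1 y.1.1.1.2.1 y.1.1.1.2.2.1 = 0 := y.1.1.2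
            have e4 : ev (up3 K F₁) y.1.1.1.1 y.1.1.1.2.1 y.1.1.1.2.2.1 -
                algebraMap K R c * y.1.1.1.2.2.2 ^ i *
                ev (up3 K F₂) y.1.1.1.1 y.1.1.1.2.1 y.1.1.1.2.2.1 = 0 := y.1.2
            have e5 : IsUnit (ev (up3 K F₁ * up3 K F₂) y.1.1.1.1 y.1.1.1.2.1
                y.1.1.1.2.2.1) := y.2
            rw [ev_mul] at e5
            have e1 := isUnit_of_mul_isUnit_left e5
            have e2 := isUnit_of_mul_isUnit_right e5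
            have e6 : IsUnit y.1.1.1.2.2.2 := by
              refine unit_of_pow hi ?_
              rw [sub_eq_zero.1 e4] at e1
              exact isUnit_of_mul_isUnit_right (isUnit_of_mul_isUnit_left e1)
            refine ⟨⟨⟨⟨⟨y.1.1.1, ?_⟩, e6⟩, ?_⟩, e0⟩, e2⟩
            · change ev (up3 K F₀) y.1.1.1.1 y.1.1.1.2.1 y.1.1.1.2.2.1 - y.1.1.1.2.2.2 ^ j *
                ev (up3 K F₁) y.1.1.1.1 y.1.1.1.2.1 y.1.1.1.2.2.1 + algebraMap K R c *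
                y.1.1.1.2.2.2 ^ (i + j) * ev (up3 K F₂) y.1.1.1.1 y.1.1.1.2.1 y.1.1.1.2.2.1 = 0
              rw [e0, pow_add]
              linear_combination (- y.1.1.1.2.2.2 ^ j) * e4
            · change ev (up3 K F₀ * up3 K F₁ * up3 K F₂) y.1.1.1.1 y.1.1.1.2.1
                y.1.1.1.2.2.1 = 0
              rw [ev_mul, ev_mul, e0, zero_mul, zero_mul]
          inv_hom := fun _ => rfl
          hom_inv := fun _ => rfl
          nat := fun _ _ => rfl }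
    · refine Mem.of_iso (F' := gm (ZK (up3 K F₀) (up3 K F₁) (up3 K F₂))) ?_
        (mem_gm hG (mem_ZK hG hW F₀ F₁ F₂ h₀ n₀ h₁ h₂))
      exact
        { hom := fun {R} _ _ x => by
            have e0 : ev (up3 K F₀) x.1.1.1.1.1.1 x.1.1.1.1.1.2.1 x.1.1.1.1.1.2.2.1 = 0 :=
              x.1.2
            have e2 : ev (up3 K F₂) x.1.1.1.1.1.1 x.1.1.1.1.1.2.1 x.1.1.1.1.1.2.2.1 = 0 := x.2
            have e4 := cb_eq _ _ _ i j c x.1.1.1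
            have e3 : IsUnit x.1.1.1.1.1.2.2.2 := x.1.1.1.2
            rw [e0, e2, mul_zero, add_zero, zero_sub, neg_eq_zero] at e4
            have e5 := (e3.pow j).mul_right_eq_zero.1 e4
            exact ⟨(⟨⟨⟨(x.1.1.1.1.1.1, x.1.1.1.1.1.2.1, x.1.1.1.1.1.2.2.1), e0⟩, e5⟩, e2⟩,
              x.1.1.1.1.1.2.2.2), e3⟩
          inv := fun {R} _ _ y => by
            have e0 : ev (up3 K F₀) y.1.1.1.1.1.1 y.1.1.1.1.1.2.1 y.1.1.1.1.1.2.2 = 0 :=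
              y.1.1.1.1.2
            have e1 : ev (up3 K F₁) y.1.1.1.1.1.1 y.1.1.1.1.1.2.1 y.1.1.1.1.1.2.2 = 0 :=
              y.1.1.1.2
            have e2 : ev (up3 K F₂) y.1.1.1.1.1.1 y.1.1.1.1.1.2.1 y.1.1.1.1.1.2.2 = 0 :=
              y.1.1.2
            refine ⟨⟨⟨⟨⟨(y.1.1.1.1.1.1, y.1.1.1.1.1.2.1, y.1.1.1.1.1.2.2, y.1.2), ?_⟩, y.2⟩, ?_⟩,
              e0⟩, e2⟩
            · change ev (up3 K F₀) y.1.1.1.1.1.1 y.1.1.1.1.1.2.1 y.1.1.1.1.1.2.2 - y.1.2 ^ j *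
                ev (up3 K F₁) y.1.1.1.1.1.1 y.1.1.1.1.1.2.1 y.1.1.1.1.1.2.2 + algebraMap K R c *
                y.1.2 ^ (i + j) * ev (up3 K F₂) y.1.1.1.1.1.1 y.1.1.1.1.1.2.1
                  y.1.1.1.1.1.2.2 = 0
              rw [e0, e1, e2]
              ring
            · change ev (up3 K F₀ * up3 K F₁ * up3 K F₂) y.1.1.1.1.1.1 y.1.1.1.1.1.2.1
                y.1.1.1.1.1.2.2 = 0
              rw [ev_mul, ev_mul, e0, zero_mul, zero_mul]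
          inv_hom := fun _ => rfl
          hom_inv := fun _ => rfl
          nat := fun _ _ => rfl }

/-- the fibre -/
noncomputable abbrev F2T (F₀ F₁ F₂ : MvPolynomial (Fin 3) k) (i j : ℕ) (e : K) : KFn K :=
  FibT (MvPolynomial.map (algebraMap k K) (F₀ ^ i * F₂ ^ j))
    (MvPolynomial.map (algebraMap k K) (F₁ ^ (i + j)))
    (MvPolynomial.map (algebraMap k K) (F₀ * F₁ * F₂)) i j e

theorem ev_upA (F₀ F₂ : MvPolynomial (Fin 3) k) (i j : ℕ) {R : Type} [CommRing R] [Algebra K R]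
    (x y z : R) : ev (MvPolynomial.map (algebraMap k K) (F₀ ^ i * F₂ ^ j)) x y z =
      ev (up3 K F₀) x y z ^ i * ev (up3 K F₂) x y z ^ j := by
  rw [map_mul, map_pow, map_pow, ev_mul, ev_pow, ev_pow]

theorem ev_upB (F₁ : MvPolynomial (Fin 3) k) (n : ℕ) {R : Type} [CommRing R] [Algebra K R]
    (x y z : R) : ev (MvPolynomial.map (algebraMap k K) (F₁ ^ n)) x y z =
      ev (up3 K F₁) x y z ^ n := by
  rw [map_pow, ev_pow]

theorem ev_upU (F₀ F₁ F₂ : MvPolynomial (Fin 3) k) {R : Type} [CommRing R] [Algebra K R]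
    (x y z : R) : ev (MvPolynomial.map (algebraMap k K) (F₀ * F₁ * F₂)) x y z =
      ev (up3 K F₀) x y z * ev (up3 K F₁) x y z * ev (up3 K F₂) x y z := by
  rw [map_mul, map_mul, ev_mul, ev_mul]

theorem f2_eq (F₀ F₁ F₂ : MvPolynomial (Fin 3) k) (i j : ℕ) (e : K) {R : Type} [CommRing R]
    [Algebra K R] (x : (F2T F₀ F₁ F₂ i j e).obj R) :
    algebraMap K R e * (ev (up3 K F₀) x.1.1.1 x.1.1.2.1 x.1.1.2.2.1 ^ i *
      ev (up3 K F₂) x.1.1.1 x.1.1.2.1 x.1.1.2.2.1 ^ j) =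
      ev (up3 K F₁) x.1.1.1 x.1.1.2.1 x.1.1.2.2.1 ^ (i + j) *
        (x.1.1.2.2.2 ^ i * (1 - x.1.1.2.2.2) ^ j) := by
  have h1 : algebraMap K R e * ev (MvPolynomial.map (algebraMap k K) (F₀ ^ i * F₂ ^ j)) x.1.1.1
      x.1.1.2.1 x.1.1.2.2.1 - ev (MvPolynomial.map (algebraMap k K) (F₁ ^ (i + j))) x.1.1.1
      x.1.1.2.1 x.1.1.2.2.1 * (x.1.1.2.2.2 ^ i * (1 - x.1.1.2.2.2) ^ j) = 0 := x.1.2
  rw [ev_upA, ev_upB] at h1
  exact sub_eq_zero.1 h1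

theorem f2_mk (F₀ F₁ F₂ : MvPolynomial (Fin 3) k) (i j : ℕ) (e : K) {R : Type} [CommRing R]
    [Algebra K R] (x y z v : R) (h : algebraMap K R e * (ev (up3 K F₀) x y z ^ i *
      ev (up3 K F₂) x y z ^ j) = ev (up3 K F₁) x y z ^ (i + j) * (v ^ i * (1 - v) ^ j)) :
    algebraMap K R e * ev (MvPolynomial.map (algebraMap k K) (F₀ ^ i * F₂ ^ j)) x y z -
      ev (MvPolynomial.map (algebraMap k K) (F₁ ^ (i + j))) x y z *
        (v ^ i * (1 - v) ^ j) = 0 := by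
  rw [ev_upA, ev_upB, h, sub_self]

theorem f2_unit (F₀ F₁ F₂ : MvPolynomial (Fin 3) k) (i j : ℕ) (e : K) {R : Type} [CommRing R]
    [Algebra K R] (x : (F2T F₀ F₁ F₂ i j e).obj R) :
    IsUnit (ev (up3 K F₀) x.1.1.1 x.1.1.2.1 x.1.1.2.2.1) ∧
      IsUnit (ev (up3 K F₁) x.1.1.1 x.1.1.2.1 x.1.1.2.2.1) ∧
      IsUnit (ev (up3 K F₂) x.1.1.1 x.1.1.2.1 x.1.1.2.2.1) := by
  have h1 : IsUnit (ev (MvPolynomial.map (algebraMap k K) (F₀ * F₁ * F₂)) x.1.1.1 x.1.1.2.1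
      x.1.1.2.2.1) := x.2
  rw [ev_upU] at h1
  exact ⟨isUnit_of_mul_isUnit_left (isUnit_of_mul_isUnit_left h1),
    isUnit_of_mul_isUnit_right (isUnit_of_mul_isUnit_left h1), isUnit_of_mul_isUnit_right h1⟩

theorem f2_v (F₀ F₁ F₂ : MvPolynomial (Fin 3) k) {i j : ℕ} (hi : 0 < i) (hj : 0 < j) {e : K}
    (he : e ≠ 0) {R : Type} [CommRing R] [Algebra K R] (x : (F2T F₀ F₁ F₂ i j e).obj R) :
    IsUnit x.1.1.2.2.2 ∧ IsUnit (1 - x.1.1.2.2.2) := by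
  have h1 := f2_eq F₀ F₁ F₂ i j e x
  obtain ⟨u0, u1, u2⟩ := f2_unit F₀ F₁ F₂ i j e x
  have h2 := (unit_const (R := R) he).mul ((u0.pow i).mul (u2.pow j))
  rw [h1] at h2
  have h3 := isUnit_of_mul_isUnit_right h2
  exact ⟨unit_of_pow hi (isUnit_of_mul_isUnit_left h3),
    unit_of_pow hj (isUnit_of_mul_isUnit_right h3)⟩

theorem f2_r (F₀ F₁ F₂ : MvPolynomial (Fin 3) k) {i j : ℕ} (hi : 0 < i) (hj : 0 < j)
    (hij : i.Coprime j) {c : K} (hc : c ≠ 0) {R : Type} [CommRing R] [Algebra K R]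
    (x : (F2T F₀ F₁ F₂ i j (c ^ j)).obj R) :
    ∃ r : R, IsUnit r ∧ Rel i j (algebraMap K R c)
      (ev (up3 K F₀) x.1.1.1 x.1.1.2.1 x.1.1.2.2.1)
      (ev (up3 K F₁) x.1.1.1 x.1.1.2.1 x.1.1.2.2.1)
      (ev (up3 K F₂) x.1.1.1 x.1.1.2.1 x.1.1.2.2.1) x.1.1.2.2.2 r := by
  obtain ⟨u0, u1, u2⟩ := f2_unit F₀ F₁ F₂ i j (c ^ j) x
  obtain ⟨v1, v2⟩ := f2_v F₀ F₁ F₂ hi hj (pow_ne_zero j hc) x
  have h1 := f2_eq F₀ F₁ F₂ i j (c ^ j) x
  rw [map_pow] at h1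
  exact ex_r hij u0 u1 u2 (unit_const hc) v1 v2 h1

theorem rel_map {R S : Type} [CommRing R] [CommRing S] (f : R →+* S) {i j : ℕ}
    {c a₀ a₁ a₂ v r : R} (h : Rel i j c a₀ a₁ a₂ v r) :
    Rel i j (f c) (f a₀) (f a₁) (f a₂) (f v) (f r) := by
  obtain ⟨h1, h2⟩ := h
  refine ⟨?_, ?_⟩
  · rw [← h1, map_mul, map_mul, map_pow]
  · have h3 := congrArg f h2
    rw [map_mul, map_mul, map_mul, map_pow, map_sub, map_one] at h3
    exact h3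

theorem rel_map' (F₀ F₁ F₂ : MvPolynomial (Fin 3) K) {i j : ℕ} {c : K} {R S : Type}
    [CommRing R] [CommRing S] [Algebra K R] [Algebra K S] (f : R →ₐ[K] S) {x y z v r : R}
    (h : Rel i j (algebraMap K R c) (ev F₀ x y z) (ev F₁ x y z) (ev F₂ x y z) v r) :
    Rel i j (algebraMap K S c) (ev F₀ (f x) (f y) (f z)) (ev F₁ (f x) (f y) (f z))
      (ev F₂ (f x) (f y) (f z)) (f v) (f r) := by
  have h1 := rel_map (f : R →+* S) h
  change Rel i j (f (algebraMap K R c)) (f (ev F₀ x y z)) (f (ev F₁ x y z)) (f (ev F₂ x y z))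
    (f v) (f r) at h1
  rw [AlgHom.commutes, ev_map, ev_map, ev_map] at h1
  exact h1

open Classical in
/-- the root -/
noncomputable def rsel {R : Type} [CommRing R] (i j : ℕ) (c a₀ a₁ a₂ v : R) : R :=
  if h : ∃ r : R, IsUnit r ∧ Rel i j c a₀ a₁ a₂ v r then Classical.choose h else 0

theorem rsel_spec {R : Type} [CommRing R] {i j : ℕ} {c a₀ a₁ a₂ v : R}
    (h : ∃ r : R, IsUnit r ∧ Rel i j c a₀ a₁ a₂ v r) :
    IsUnit (rsel i j c a₀ a₁ a₂ v) ∧ Rel i j c a₀ a₁ a₂ v (rsel i j c a₀ a₁ a₂ v) := by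
  rw [rsel, dif_pos h]
  exact Classical.choose_spec h

/-- the root on the fibre -/
noncomputable def rs2 (F₀ F₁ F₂ : MvPolynomial (Fin 3) K) (i j : ℕ) (c : K) {R : Type}
    [CommRing R] [Algebra K R] (x y z v : R) : R :=
  rsel i j (algebraMap K R c) (ev F₀ x y z) (ev F₁ x y z) (ev F₂ x y z) v

theorem rs2_nat (F₀ F₁ F₂ : MvPolynomial (Fin 3) K) {i j : ℕ} (hij : i.Coprime j) {c : K}
    (hc : c ≠ 0) {R S : Type} [CommRing R] [CommRing S] [Algebra K R] [Algebra K S]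
    (f : R →ₐ[K] S) (x y z v : R) (u1 : IsUnit (ev F₁ x y z)) (u2 : IsUnit (ev F₂ x y z))
    (hv : IsUnit v)
    (h : ∃ r : R, IsUnit r ∧ Rel i j (algebraMap K R c) (ev F₀ x y z) (ev F₁ x y z)
      (ev F₂ x y z) v r) :
    f (rs2 F₀ F₁ F₂ i j c x y z v) = rs2 F₀ F₁ F₂ i j c (f x) (f y) (f z) (f v) := by
  obtain ⟨h1, h2⟩ := rsel_spec h
  have h5 := rel_map' F₀ F₁ F₂ f h2
  obtain ⟨h3, h4⟩ := rsel_spec ⟨_, h1.map f, h5⟩
  have u1' := u1.map f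
  have u2' := u2.map f
  rw [ev_map] at u1' u2'
  exact rel_un hij u1' u2' (unit_const hc) (hv.map f) (h1.map f) h3 h5 h4

/-- the open part of the cone over the conic bundle -/
noncomputable abbrev CBo (F₀ F₁ F₂ : MvPolynomial (Fin 3) K) (i j : ℕ) (c : K) : KFn K :=
  (CB F₀ F₁ F₂ i j c).opn (cbc _ _ _ i j c (F₀ * F₁ * F₂))

theorem cbo_unit (F₀ F₁ F₂ : MvPolynomial (Fin 3) K) {i j : ℕ} {c : K} {R : Type} [CommRing R]
    [Algebra K R] (x : (CBo F₀ F₁ F₂ i j c).obj R) :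
    IsUnit (ev F₀ x.1.1.1.1 x.1.1.1.2.1 x.1.1.1.2.2.1) ∧
      IsUnit (ev F₁ x.1.1.1.1 x.1.1.1.2.1 x.1.1.1.2.2.1) ∧
      IsUnit (ev F₂ x.1.1.1.1 x.1.1.1.2.1 x.1.1.1.2.2.1) := by
  have h1 : IsUnit (ev (F₀ * F₁ * F₂) x.1.1.1.1 x.1.1.1.2.1 x.1.1.1.2.2.1) := x.2
  rw [ev_mul, ev_mul] at h1
  exact ⟨isUnit_of_mul_isUnit_left (isUnit_of_mul_isUnit_left h1),
    isUnit_of_mul_isUnit_right (isUnit_of_mul_isUnit_left h1), isUnit_of_mul_isUnit_right h1⟩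

theorem cbo_rel (F₀ F₁ F₂ : MvPolynomial (Fin 3) K) {i j : ℕ} {c : K} {R : Type} [CommRing R]
    [Algebra K R] (x : (CBo F₀ F₁ F₂ i j c).obj R) :
    Rel i j (algebraMap K R c) (ev F₀ x.1.1.1.1 x.1.1.1.2.1 x.1.1.1.2.2.1)
      (ev F₁ x.1.1.1.1 x.1.1.1.2.1 x.1.1.1.2.2.1) (ev F₂ x.1.1.1.1 x.1.1.1.2.1 x.1.1.1.2.2.1)
      (ev F₀ x.1.1.1.1 x.1.1.1.2.1 x.1.1.1.2.2.1 * Ring.inverse
        (x.1.1.1.2.2.2 ^ j * ev F₁ x.1.1.1.1 x.1.1.1.2.1 x.1.1.1.2.2.1)) x.1.1.1.2.2.2 :=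
  rel_v (cbo_unit F₀ F₁ F₂ x).2.1 x.1.2 (cb_eq _ _ _ i j c x.1)

/-- the map from the fibre to the bundle -/
noncomputable def hom2 (F₀ F₁ F₂ : MvPolynomial (Fin 3) k) {i j : ℕ} (hi : 0 < i)
    (hj : 0 < j) (hij : i.Coprime j) {c : K} (hc : c ≠ 0) {R : Type} [CommRing R] [Algebra K R]
    (x : (F2T F₀ F₁ F₂ i j (c ^ j)).obj R) :
    (CBo (up3 K F₀) (up3 K F₁) (up3 K F₂) i j c).obj R :=
  ⟨⟨⟨(x.1.1.1, x.1.1.2.1, x.1.1.2.2.1,
        rs2 (up3 K F₀) (up3 K F₁) (up3 K F₂) i j c x.1.1.1 x.1.1.2.1 x.1.1.2.2.1 x.1.1.2.2.2),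
          rel_cb (rsel_spec (f2_r F₀ F₁ F₂ hi hj hij hc x)).2⟩,
          (rsel_spec (f2_r F₀ F₁ F₂ hi hj hij hc x)).1⟩, by
          obtain ⟨u0, u1, u2⟩ := f2_unit F₀ F₁ F₂ i j (c ^ j) x
          change IsUnit (ev (up3 K F₀ * up3 K F₁ * up3 K F₂) x.1.1.1 x.1.1.2.1 x.1.1.2.2.1)
          rw [ev_mul, ev_mul]
          exact (u0.mul u1).mul u2⟩

/-- the map from the bundle to the fibre -/
noncomputable def inv2 (F₀ F₁ F₂ : MvPolynomial (Fin 3) k) {i j : ℕ} {c : K} {R : Type}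
    [CommRing R] [Algebra K R] (y : (CBo (up3 K F₀) (up3 K F₁) (up3 K F₂) i j c).obj R) :
    (F2T F₀ F₁ F₂ i j (c ^ j)).obj R :=
  ⟨⟨(y.1.1.1.1, y.1.1.1.2.1, y.1.1.1.2.2.1,
        ev (up3 K F₀) y.1.1.1.1 y.1.1.1.2.1 y.1.1.1.2.2.1 * Ring.inverse
        (y.1.1.1.2.2.2 ^ j * ev (up3 K F₁) y.1.1.1.1 y.1.1.1.2.1 y.1.1.1.2.2.1)), by
          refine f2_mk F₀ F₁ F₂ i j (c ^ j) _ _ _ _ ?_
          rw [map_pow]
          exact rel_fib (cbo_rel _ _ _ y)⟩, by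
          obtain ⟨u0, u1, u2⟩ := cbo_unit _ _ _ y
          change IsUnit (ev (MvPolynomial.map (algebraMap k K) (F₀ * F₁ * F₂)) y.1.1.1.1
            y.1.1.1.2.1 y.1.1.1.2.2.1)
          rw [ev_upU]
          exact (u0.mul u1).mul u2⟩

theorem f2_ext {F₀ F₁ F₂ : MvPolynomial (Fin 3) k} {i j : ℕ} {e : K} {R : Type} [CommRing R]
    [Algebra K R] {x y : (F2T F₀ F₁ F₂ i j e).obj R} (h0 : x.1.1.1 = y.1.1.1)
    (h1 : x.1.1.2.1 = y.1.1.2.1) (h2 : x.1.1.2.2.1 = y.1.1.2.2.1)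
    (h3 : x.1.1.2.2.2 = y.1.1.2.2.2) : x = y :=
  Subtype.ext (Subtype.ext (Prod.ext h0 (Prod.ext h1 (Prod.ext h2 h3))))

theorem cbo_ext {F₀ F₁ F₂ : MvPolynomial (Fin 3) K} {i j : ℕ} {c : K} {R : Type} [CommRing R]
    [Algebra K R] {x y : (CBo F₀ F₁ F₂ i j c).obj R} (h0 : x.1.1.1.1 = y.1.1.1.1)
    (h1 : x.1.1.1.2.1 = y.1.1.1.2.1) (h2 : x.1.1.1.2.2.1 = y.1.1.1.2.2.1)
    (h3 : x.1.1.1.2.2.2 = y.1.1.1.2.2.2) : x = y :=
  Subtype.ext (Subtype.ext (Subtype.ext (Prod.ext h0 (Prod.ext h1 (Prod.ext h2 h3)))))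

theorem inv2_hom2 (F₀ F₁ F₂ : MvPolynomial (Fin 3) k) {i j : ℕ} (hi : 0 < i)
    (hj : 0 < j) (hij : i.Coprime j) {c : K} (hc : c ≠ 0) {R : Type} [CommRing R] [Algebra K R]
    (x : (F2T F₀ F₁ F₂ i j (c ^ j)).obj R) :
    inv2 F₀ F₁ F₂ (hom2 F₀ F₁ F₂ hi hj hij hc x) = x := by
  obtain ⟨u0, u1, u2⟩ := f2_unit F₀ F₁ F₂ i j (c ^ j) x
  obtain ⟨h1, h2⟩ := rsel_spec (f2_r F₀ F₁ F₂ hi hj hij hc x)
  refine f2_ext rfl rfl rfl ?_
  have h3 := mul_inv' ((h1.pow j).mul u1)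
  change ev (up3 K F₀) x.1.1.1 x.1.1.2.1 x.1.1.2.2.1 * Ring.inverse
    (rsel i j (algebraMap K R c) (ev (up3 K F₀) x.1.1.1 x.1.1.2.1 x.1.1.2.2.1)
      (ev (up3 K F₁) x.1.1.1 x.1.1.2.1 x.1.1.2.2.1)
      (ev (up3 K F₂) x.1.1.1 x.1.1.2.1 x.1.1.2.2.1) x.1.1.2.2.2 ^ j *
      ev (up3 K F₁) x.1.1.1 x.1.1.2.1 x.1.1.2.2.1) = x.1.1.2.2.2
  set r := rsel i j (algebraMap K R c) (ev (up3 K F₀) x.1.1.1 x.1.1.2.1 x.1.1.2.2.1)
      (ev (up3 K F₁) x.1.1.1 x.1.1.2.1 x.1.1.2.2.1)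
      (ev (up3 K F₂) x.1.1.1 x.1.1.2.1 x.1.1.2.2.1) x.1.1.2.2.2
  set w := Ring.inverse (r ^ j * ev (up3 K F₁) x.1.1.1 x.1.1.2.1 x.1.1.2.2.1)
  linear_combination (-w) * h2.1 + x.1.1.2.2.2 * h3

theorem hom2_inv2 (F₀ F₁ F₂ : MvPolynomial (Fin 3) k) {i j : ℕ} (hi : 0 < i)
    (hj : 0 < j) (hij : i.Coprime j) {c : K} (hc : c ≠ 0) {R : Type} [CommRing R] [Algebra K R]
    (y : (CBo (up3 K F₀) (up3 K F₁) (up3 K F₂) i j c).obj R) :
    hom2 F₀ F₁ F₂ hi hj hij hc (inv2 F₀ F₁ F₂ y) = y := by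
  refine cbo_ext rfl rfl rfl ?_
  obtain ⟨u0, u1, u2⟩ := cbo_unit _ _ _ y
  have h0 := cbo_rel _ _ _ y
  have hv : IsUnit (ev (up3 K F₀) y.1.1.1.1 y.1.1.1.2.1 y.1.1.1.2.2.1 * Ring.inverse
      (y.1.1.1.2.2.2 ^ j * ev (up3 K F₁) y.1.1.1.1 y.1.1.1.2.1 y.1.1.1.2.2.1)) :=
    u0.mul (IsUnit.of_mul_eq_one_right _ (mul_inv' ((IsUnit.pow j y.1.2).mul u1)))
  obtain ⟨h3, h4⟩ := rsel_spec ⟨_, y.1.2, h0⟩
  exact rel_un hij u1 u2 (unit_const hc) hv h3 y.1.2 h4 h0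

theorem hom2_nat (F₀ F₁ F₂ : MvPolynomial (Fin 3) k) {i j : ℕ} (hi : 0 < i)
    (hj : 0 < j) (hij : i.Coprime j) {c : K} (hc : c ≠ 0) {R S : Type} [CommRing R]
    [CommRing S] [Algebra K R] [Algebra K S] (f : R →ₐ[K] S)
    (x : (F2T F₀ F₁ F₂ i j (c ^ j)).obj R) :
    (CBo (up3 K F₀) (up3 K F₁) (up3 K F₂) i j c).map f (hom2 F₀ F₁ F₂ hi hj hij hc x) =
      hom2 F₀ F₁ F₂ hi hj hij hc ((F2T F₀ F₁ F₂ i j (c ^ j)).map f x) := by
  obtain ⟨u0, u1, u2⟩ := f2_unit F₀ F₁ F₂ i j (c ^ j) x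
  exact cbo_ext rfl rfl rfl (rs2_nat (up3 K F₀) (up3 K F₁) (up3 K F₂) hij hc f _ _ _ _ u1 u2
    (f2_v F₀ F₁ F₂ hi hj (pow_ne_zero j hc) x).1 (f2_r F₀ F₁ F₂ hi hj hij hc x))

/-- the fibre as an open part of the cone over the conic bundle -/
noncomputable def isoFib2 (F₀ F₁ F₂ : MvPolynomial (Fin 3) k) {i j : ℕ} (hi : 0 < i)
    (hj : 0 < j) (hij : i.Coprime j) {c : K} (hc : c ≠ 0) :
    Iso (F2T F₀ F₁ F₂ i j (c ^ j)) (CBo (up3 K F₀) (up3 K F₁) (up3 K F₂) i j c) where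
  hom x := hom2 F₀ F₁ F₂ hi hj hij hc x
  inv y := inv2 F₀ F₁ F₂ y
  inv_hom x := inv2_hom2 F₀ F₁ F₂ hi hj hij hc x
  hom_inv y := hom2_inv2 F₀ F₁ F₂ hi hj hij hc y
  nat f x := hom2_nat F₀ F₁ F₂ hi hj hij hc f x

/-- **(C5)** the fibre over a point `e ≠ 0` -/
theorem fib2_ne [IsAlgClosed K] (hG : GOps K G) [Finite k] (hW : Cst k G)
    (F₀ F₁ F₂ : MvPolynomial (Fin 3) k) (h₀ : F₀.IsHomogeneous 2)
    (h₁ : F₁.IsHomogeneous 2) (h₂ : F₂.IsHomogeneous 2) (n₀ : F₀ ≠ 0) (n₁ : F₁ ≠ 0) (n₂ : F₂ ≠ 0)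
    (i j : ℕ) (hi : 0 < i) (hj : 0 < j) (hij : i.Coprime j) (c : K) (hc : c ≠ 0)
    (h : (CB (MvPolynomial.map (algebraMap k K) F₀) (MvPolynomial.map (algebraMap k K) F₁)
      (MvPolynomial.map (algebraMap k K) F₂) i j c).Mem G) :
    (FibT (MvPolynomial.map (algebraMap k K) (F₀ ^ i * F₂ ^ j))
      (MvPolynomial.map (algebraMap k K) (F₁ ^ (i + j)))
      (MvPolynomial.map (algebraMap k K) (F₀ * F₁ * F₂)) i j (c ^ j)).Mem G :=
  Mem.of_iso (isoFib2 F₀ F₁ F₂ hi hj hij hc) (mem_opn hG.toKOps _ h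
    (mem_cb_cls hG.toKOps hW F₀ F₁ F₂ h₀ h₁ h₂ n₀ n₁ n₂ i j hi hj c hc))

/-- **(C5)** the fibre over zero -/
theorem fib2_zero (hG : GOps K G) [Finite k] (hW : Cst k G)
    (F₀ F₁ F₂ : MvPolynomial (Fin 3) k) (h₀ : F₀.IsHomogeneous 2)
    (h₁ : F₁.IsHomogeneous 2) (h₂ : F₂.IsHomogeneous 2) (n₀ : F₀ ≠ 0) (n₁ : F₁ ≠ 0) (n₂ : F₂ ≠ 0)
    (i j : ℕ) (hi : 0 < i) (hj : 0 < j) :
    (FibT (MvPolynomial.map (algebraMap k K) (F₀ ^ i * F₂ ^ j))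
      (MvPolynomial.map (algebraMap k K) (F₁ ^ (i + j)))
      (MvPolynomial.map (algebraMap k K) (F₀ * F₁ * F₂)) i j 0).Mem G := by
  have hU : ((A3 K).opn (g3 (up3 K (F₀ * F₁ * F₂)))).Mem G := by
    have hR : Rp (A3 K) := Rp.iso isoA3
    exact mem_opn hG.toKOps _ (mem_A3 hG) (mem_B hG.toKOps hW _ ((h₀.mul h₁).mul h₂)
      (mul_ne_zero (mul_ne_zero n₀ n₁) n₂))
  let v : Coord (F2T F₀ F₁ F₂ i j (0 : K)) := ⟨fun x => x.1.1.2.2.2, fun _ _ => rfl⟩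
  have key : ∀ (R : Type) [CommRing R] [Algebra K R] (x : (F2T F₀ F₁ F₂ i j (0 : K)).obj R),
      x.1.1.2.2.2 ^ i * (1 - x.1.1.2.2.2) ^ j = 0 := by
    intro R _ _ x
    have h1 := f2_eq F₀ F₁ F₂ i j 0 x
    have h2 := (f2_unit F₀ F₁ F₂ i j 0 x).2.1
    rw [map_zero, zero_mul] at h1
    exact (h2.pow (i + j)).mul_right_eq_zero.1 h1.symm
  refine Mem.glue hG.toKOps v ?_ ?_
  · let w : Coord ((F2T F₀ F₁ F₂ i j (0 : K)).opn v) := ⟨fun x => 1 - x.1.1.1.2.2.2,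
      fun f x => by
        rw [map_sub, map_one]
        rfl⟩
    refine Mem.glue hG.toKOps w (Mem.of_trivial hG.toKOps fun A _ _ x => ?_) ?_
    · have h1 := key A x.1.1
      have h2 : IsUnit x.1.1.1.1.2.2.2 := x.1.2
      have h3 : IsUnit (1 - x.1.1.1.1.2.2.2) := x.2
      have h4 := (h2.pow i).mul (h3.pow j)
      rw [h1] at h4
      exact subsingleton_of_zero_eq_one (isUnit_zero_iff.1 h4)
    · refine Mem.of_iso ?_ hU
      exact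
        { hom := fun {R} _ _ x => ⟨(x.1.1.1.1.1, x.1.1.1.1.2.1, x.1.1.1.1.2.2.1), x.1.1.2⟩
          inv := fun {R} _ _ y => ⟨⟨⟨⟨(y.1.1, y.1.2.1, y.1.2.2, 1), by
            refine f2_mk F₀ F₁ F₂ i j 0 _ _ _ _ ?_
            rw [map_zero, sub_self, zero_pow hj.ne']
            ring⟩, y.2⟩, isUnit_one⟩, sub_self _⟩
          inv_hom := fun {R} _ _ x => by
            have h3 : 1 - x.1.1.1.1.2.2.2 = 0 := x.2
            exact Subtype.ext (Subtype.ext (Subtype.ext (Subtype.ext (Prod.ext rfl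
              (Prod.ext rfl (Prod.ext rfl (sub_eq_zero.1 h3)))))))
          hom_inv := fun {R} _ _ y => rfl
          nat := fun {R S} _ _ _ _ f x => rfl }
  · refine Mem.of_iso ?_ hU
    exact
      { hom := fun {R} _ _ x => ⟨(x.1.1.1.1, x.1.1.1.2.1, x.1.1.1.2.2.1), x.1.2⟩
        inv := fun {R} _ _ y => ⟨⟨⟨(y.1.1, y.1.2.1, y.1.2.2, 0), by
          refine f2_mk F₀ F₁ F₂ i j 0 _ _ _ _ ?_
          rw [map_zero, zero_pow hi.ne']
          ring⟩, y.2⟩, rfl⟩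
        inv_hom := fun {R} _ _ x => by
          have h2 : x.1.1.1.2.2.2 = 0 := x.2
          exact Subtype.ext (Subtype.ext (Subtype.ext (Prod.ext rfl
            (Prod.ext rfl (Prod.ext rfl h2.symm)))))
        hom_inv := fun {R} _ _ y => rfl
        nat := fun {R S} _ _ _ _ f x => rfl }

end Pool.Agent.Helper49.TP
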