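import Pool.Agent.Helper49.TP.ConstW
import Pool.Agent.Helper49.TP.Fib2
import Pool.Agent.Helper9.TP.Defs3

/-!
# The fibres of a trinomial pencil with arbitrary weights
-/

set_option autoImplicit false

namespace Pool.Agent.Helper49.TP

open Pool.Agent.Helper29.CQ Pool.Agent.Helper65.CC Pool.Agent.Helper87.CC
  Pool.Agent.Helper65.CC.KFn
open Pool.Agent.Helper9.QP (A4 isoA4 mem_A4 Cst)
open Pool.Agent.Helper9.TP (FibT CB TS)
open Pool.Agent.Helper71.CP (ev ev_map ev_mul ev_pow)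
open Pool.Agent.Helper71.PN
open MvPolynomial (IsWeightedHomogeneous)

variable {k K : Type} [Field k] [Field K] [Algebra k K]
  {G : ∀ (R : Type) [CommRing R] [Algebra K R], Prop}

/-- covers of constant cones over weighted curves -/
theorem mem_RKw [IsAlgClosed K] [Finite k] (hG : GOps K G) (hW : Cst k G) {w : Fin 3 → ℕ}
    (hw : ∀ i, 0 < w i) (D A B : MvPolynomial (Fin 3) k) {n d d' γ : ℕ} (hn : 0 < n)
    (hD : IsWeightedHomogeneous w D d') (h0 : D ≠ 0) (hA : IsWeightedHomogeneous w A (d + n * γ))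
    (hB : IsWeightedHomogeneous w B d) (c : K) (hc : c ≠ 0) :
    (RK (up3 K D) (up3 K A) (up3 K B) n c).Mem G := by
  refine mem_of_root3 hG ⟨fun x => x.1.1.1.1, fun _ _ => rfl⟩
    ⟨fun x => x.1.1.1.2.1, fun _ _ => rfl⟩ ⟨fun x => x.1.1.1.2.2.1, fun _ _ => rfl⟩ (hw 0) (hw 1)
    (hw 2) ?_
  refine Mem.of_iso ?_ (mem_RKg hG.toKOps hW (pw w D) (pw w A) (pw w B) hn (pw_hom hD)
    (pw_ne hw h0) (pw_hom hA) (pw_hom hB) c hc)
  exact
    { hom := fun {R} _ _ x => ⟨⟨⟨(x.1.1.1.1.1.2, x.1.1.1.2, x.1.2,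
          x.1.1.1.1.1.1.1.1.1.2.2.2), by
            have h4 : ev (up3 K D) x.1.1.1.1.1.1.1.1.1.1 x.1.1.1.1.1.1.1.1.1.2.1
              x.1.1.1.1.1.1.1.1.1.2.2.1 = 0 := x.1.1.1.1.1.1.1.1.2
            change ev (up3 K (pw w D)) x.1.1.1.1.1.2 x.1.1.1.2 x.1.2 = 0
            rw [ev_up_pw, root_eq x.1.1.1.1, root_eq x.1.1, root_eq x]
            exact h4⟩, by
            have h4 : ev (up3 K A) x.1.1.1.1.1.1.1.1.1.1 x.1.1.1.1.1.1.1.1.1.2.1
              x.1.1.1.1.1.1.1.1.1.2.2.1 - algebraMap K R c * x.1.1.1.1.1.1.1.1.1.2.2.2 ^ n *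
              ev (up3 K B) x.1.1.1.1.1.1.1.1.1.1 x.1.1.1.1.1.1.1.1.1.2.1
              x.1.1.1.1.1.1.1.1.1.2.2.1 = 0 := x.1.1.1.1.1.1.1.2
            change ev (up3 K (pw w A)) x.1.1.1.1.1.2 x.1.1.1.2 x.1.2 - algebraMap K R c *
              x.1.1.1.1.1.1.1.1.1.2.2.2 ^ n * ev (up3 K (pw w B)) x.1.1.1.1.1.2 x.1.1.1.2
              x.1.2 = 0
            rw [ev_up_pw, ev_up_pw, root_eq x.1.1.1.1, root_eq x.1.1, root_eq x]
            exact h4⟩, by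
            have h4 : IsUnit (ev (up3 K A * up3 K B) x.1.1.1.1.1.1.1.1.1.1
              x.1.1.1.1.1.1.1.1.1.2.1 x.1.1.1.1.1.1.1.1.1.2.2.1) := x.1.1.1.1.1.1.2
            change IsUnit (ev (up3 K (pw w A) * up3 K (pw w B)) x.1.1.1.1.1.2 x.1.1.1.2 x.1.2)
            rw [ev_mul] at h4 ⊢
            rw [ev_up_pw, ev_up_pw, root_eq x.1.1.1.1, root_eq x.1.1, root_eq x]
            exact h4⟩
      inv := fun {R} _ _ y => ⟨(⟨(⟨(⟨⟨⟨(y.1.1.1.1 ^ w 0, y.1.1.1.2.1 ^ w 1,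
          y.1.1.1.2.2.1 ^ w 2, y.1.1.1.2.2.2), by
            have h1 : ev (up3 K (pw w D)) y.1.1.1.1 y.1.1.1.2.1 y.1.1.1.2.2.1 = 0 := y.1.1.2
            rw [ev_up_pw] at h1
            exact h1⟩, by
            have h1 : ev (up3 K (pw w A)) y.1.1.1.1 y.1.1.1.2.1 y.1.1.1.2.2.1 -
              algebraMap K R c * y.1.1.1.2.2.2 ^ n *
              ev (up3 K (pw w B)) y.1.1.1.1 y.1.1.1.2.1 y.1.1.1.2.2.1 = 0 := y.1.2
            rw [ev_up_pw, ev_up_pw] at h1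
            exact h1⟩, by
            have h1 : IsUnit (ev (up3 K (pw w A) * up3 K (pw w B)) y.1.1.1.1 y.1.1.1.2.1
              y.1.1.1.2.2.1) := y.2
            change IsUnit (ev (up3 K A * up3 K B) (y.1.1.1.1 ^ w 0) (y.1.1.1.2.1 ^ w 1)
              (y.1.1.1.2.2.1 ^ w 2))
            rw [ev_mul] at h1 ⊢
            rw [ev_up_pw, ev_up_pw] at h1
            exact h1⟩, y.1.1.1.1), root_mk _⟩, y.1.1.1.2.1), root_mk _⟩, y.1.1.1.2.2.1),
            root_mk _⟩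
      inv_hom := fun {R} _ _ x => Subtype.ext (Prod.ext (Subtype.ext (Prod.ext (Subtype.ext
        (Prod.ext (Subtype.ext (Subtype.ext (Subtype.ext (Prod.ext (root_eq x.1.1.1.1)
          (Prod.ext (root_eq x.1.1) (Prod.ext (root_eq x) rfl)))))) rfl)) rfl)) rfl)
      hom_inv := fun _ => rfl
      nat := fun _ _ => rfl }

/-- intersections of weighted curves -/
theorem mem_ZKw [Finite k] (hG : GOps K G) (hW : Cst k G) {w : Fin 3 → ℕ} (hw : ∀ i, 0 < w i)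
    (D A B : MvPolynomial (Fin 3) k) {d d' d'' : ℕ} (hD : IsWeightedHomogeneous w D d')
    (h0 : D ≠ 0) (hA : IsWeightedHomogeneous w A d) (hB : IsWeightedHomogeneous w B d'') :
    (ZK (up3 K D) (up3 K A) (up3 K B)).Mem G := by
  refine mem_of_root3 hG ⟨fun x => x.1.1.1.1, fun _ _ => rfl⟩
    ⟨fun x => x.1.1.1.2.1, fun _ _ => rfl⟩ ⟨fun x => x.1.1.1.2.2, fun _ _ => rfl⟩ (hw 0) (hw 1)
    (hw 2) ?_
  refine Mem.of_iso ?_ (mem_ZK hG.toKOps hW (pw w D) (pw w A) (pw w B) (pw_hom hD)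
    (pw_ne hw h0) (pw_hom hA) (pw_hom hB))
  exact
    { hom := fun {R} _ _ x => ⟨⟨⟨(x.1.1.1.1.1.2, x.1.1.1.2, x.1.2), by
            have h4 : ev (up3 K D) x.1.1.1.1.1.1.1.1.1.1 x.1.1.1.1.1.1.1.1.1.2.1
              x.1.1.1.1.1.1.1.1.1.2.2 = 0 := x.1.1.1.1.1.1.1.1.2
            change ev (up3 K (pw w D)) x.1.1.1.1.1.2 x.1.1.1.2 x.1.2 = 0
            rw [ev_up_pw, root_eq x.1.1.1.1, root_eq x.1.1, root_eq x]
            exact h4⟩, by
            have h4 : ev (up3 K A) x.1.1.1.1.1.1.1.1.1.1 x.1.1.1.1.1.1.1.1.1.2.1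
              x.1.1.1.1.1.1.1.1.1.2.2 = 0 := x.1.1.1.1.1.1.1.2
            change ev (up3 K (pw w A)) x.1.1.1.1.1.2 x.1.1.1.2 x.1.2 = 0
            rw [ev_up_pw, root_eq x.1.1.1.1, root_eq x.1.1, root_eq x]
            exact h4⟩, by
            have h4 : ev (up3 K B) x.1.1.1.1.1.1.1.1.1.1 x.1.1.1.1.1.1.1.1.1.2.1
              x.1.1.1.1.1.1.1.1.1.2.2 = 0 := x.1.1.1.1.1.1.2
            change ev (up3 K (pw w B)) x.1.1.1.1.1.2 x.1.1.1.2 x.1.2 = 0
            rw [ev_up_pw, root_eq x.1.1.1.1, root_eq x.1.1, root_eq x]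
            exact h4⟩
      inv := fun {R} _ _ y => ⟨(⟨(⟨(⟨⟨⟨(y.1.1.1.1 ^ w 0, y.1.1.1.2.1 ^ w 1,
          y.1.1.1.2.2 ^ w 2), by
            have h1 : ev (up3 K (pw w D)) y.1.1.1.1 y.1.1.1.2.1 y.1.1.1.2.2 = 0 := y.1.1.2
            rw [ev_up_pw] at h1
            exact h1⟩, by
            have h1 : ev (up3 K (pw w A)) y.1.1.1.1 y.1.1.1.2.1 y.1.1.1.2.2 = 0 := y.1.2
            rw [ev_up_pw] at h1
            exact h1⟩, by
            have h1 : ev (up3 K (pw w B)) y.1.1.1.1 y.1.1.1.2.1 y.1.1.1.2.2 = 0 := y.2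
            rw [ev_up_pw] at h1
            exact h1⟩, y.1.1.1.1), root_mk _⟩, y.1.1.1.2.1), root_mk _⟩, y.1.1.1.2.2),
            root_mk _⟩
      inv_hom := fun {R} _ _ x => Subtype.ext (Prod.ext (Subtype.ext (Prod.ext (Subtype.ext
        (Prod.ext (Subtype.ext (Subtype.ext (Subtype.ext (Prod.ext (root_eq x.1.1.1.1)
          (Prod.ext (root_eq x.1.1) (root_eq x)))))) rfl)) rfl)) rfl)
      hom_inv := fun _ => rfl
      nat := fun _ _ => rfl }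

/-- the part `F₀ F₁ F₂ = 0` of the bundle -/
theorem mem_cb_clsW (hG : KOps K G)
    (F₀ F₁ F₂ : MvPolynomial (Fin 3) k) (i j : ℕ) (hi : 0 < i) (hj : 0 < j) (c : K) (hc : c ≠ 0)
    (r₂ : (RK (up3 K F₂) (up3 K F₀) (up3 K F₁) j 1).Mem G)
    (r₁ : (RK (up3 K F₁) (up3 K F₀) (up3 K F₂) (i + j) (-c)).Mem G)
    (r₀ : (RK (up3 K F₀) (up3 K F₁) (up3 K F₂) i c).Mem G)
    (rz : (ZK (up3 K F₀) (up3 K F₁) (up3 K F₂)).Mem G) :
    ((CB (up3 K F₀) (up3 K F₁) (up3 K F₂) i j c).cls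
      (cbc _ _ _ i j c (up3 K F₀ * up3 K F₁ * up3 K F₂))).Mem G := by
  refine Mem.glue hG (resC _ (cbc _ _ _ i j c (up3 K F₀))) ?_ ?_
  · refine Mem.glue hG (resO _ (resC _ (cbc _ _ _ i j c (up3 K F₁)))) ?_ ?_
    · refine Mem.of_iso ?_ r₂
      exact
        { hom := fun {R} _ _ x => by
            have e0 : IsUnit (ev (up3 K F₀) x.1.1.1.1.1.1 x.1.1.1.1.1.2.1 x.1.1.1.1.1.2.2.1) :=
              x.1.2
            have e1 : IsUnit (ev (up3 K F₁) x.1.1.1.1.1.1 x.1.1.1.1.1.2.1 x.1.1.1.1.1.2.2.1) :=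
              x.2
            have e2 : ev (up3 K F₀ * up3 K F₁ * up3 K F₂) x.1.1.1.1.1.1 x.1.1.1.1.1.2.1
              x.1.1.1.1.1.2.2.1 = 0 := x.1.1.2
            rw [ev_mul, ev_mul] at e2
            have e3 := (e0.mul e1).mul_right_eq_zero.1 e2
            have e4 := cb_eq _ _ _ i j c x.1.1.1
            rw [e3, mul_zero, add_zero] at e4
            refine ⟨⟨⟨x.1.1.1.1.1, e3⟩, ?_⟩, ?_⟩
            · change ev (up3 K F₀) x.1.1.1.1.1.1 x.1.1.1.1.1.2.1 x.1.1.1.1.1.2.2.1 -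
                algebraMap K R 1 * x.1.1.1.1.1.2.2.2 ^ j *
                ev (up3 K F₁) x.1.1.1.1.1.1 x.1.1.1.1.1.2.1 x.1.1.1.1.1.2.2.1 = 0
              rw [map_one, one_mul]
              exact e4
            · change IsUnit (ev (up3 K F₀ * up3 K F₁) x.1.1.1.1.1.1 x.1.1.1.1.1.2.1
                x.1.1.1.1.1.2.2.1)
              rw [ev_mul]
              exact e0.mul e1
          inv := fun {R} _ _ y => by
            have e2 : ev (up3 K F₂) y.1.1.1.1 y.1.1.1.2.1 y.1.1.1.2.2.1 = 0 := y.1.1.2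
            have e4 : ev (up3 K F₀) y.1.1.1.1 y.1.1.1.2.1 y.1.1.1.2.2.1 -
                algebraMap K R 1 * y.1.1.1.2.2.2 ^ j *
                ev (up3 K F₁) y.1.1.1.1 y.1.1.1.2.1 y.1.1.1.2.2.1 = 0 := y.1.2
            have e5 : IsUnit (ev (up3 K F₀ * up3 K F₁) y.1.1.1.1 y.1.1.1.2.1
                y.1.1.1.2.2.1) := y.2
            rw [ev_mul] at e5
            rw [map_one, one_mul] at e4
            have e0 := isUnit_of_mul_isUnit_left e5
            have e1 := isUnit_of_mul_isUnit_right e5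
            have e6 : IsUnit y.1.1.1.2.2.2 := by
              refine unit_of_pow hj ?_
              rw [sub_eq_zero.1 e4] at e0
              exact isUnit_of_mul_isUnit_left e0
            refine ⟨⟨⟨⟨⟨y.1.1.1, ?_⟩, e6⟩, ?_⟩, e0⟩, e1⟩
            · change ev (up3 K F₀) y.1.1.1.1 y.1.1.1.2.1 y.1.1.1.2.2.1 - y.1.1.1.2.2.2 ^ j *
                ev (up3 K F₁) y.1.1.1.1 y.1.1.1.2.1 y.1.1.1.2.2.1 + algebraMap K R c *
                y.1.1.1.2.2.2 ^ (i + j) * ev (up3 K F₂) y.1.1.1.1 y.1.1.1.2.1 y.1.1.1.2.2.1 = 0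
              rw [e2, mul_zero, add_zero]
              exact e4
            · change ev (up3 K F₀ * up3 K F₁ * up3 K F₂) y.1.1.1.1 y.1.1.1.2.1
                y.1.1.1.2.2.1 = 0
              rw [ev_mul, e2, mul_zero]
          inv_hom := fun _ => rfl
          hom_inv := fun _ => rfl
          nat := fun _ _ => rfl }
    · refine Mem.of_iso ?_ r₁
      exact
        { hom := fun {R} _ _ x => by
            have e0 : IsUnit (ev (up3 K F₀) x.1.1.1.1.1.1 x.1.1.1.1.1.2.1 x.1.1.1.1.1.2.2.1) :=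
              x.1.2
            have e1 : ev (up3 K F₁) x.1.1.1.1.1.1 x.1.1.1.1.1.2.1 x.1.1.1.1.1.2.2.1 = 0 :=
              x.2
            have e4 := cb_eq _ _ _ i j c x.1.1.1
            rw [e1, mul_zero, sub_zero] at e4
            have e5 : ev (up3 K F₀) x.1.1.1.1.1.1 x.1.1.1.1.1.2.1 x.1.1.1.1.1.2.2.1 =
                algebraMap K R (-c) * x.1.1.1.1.1.2.2.2 ^ (i + j) *
                ev (up3 K F₂) x.1.1.1.1.1.1 x.1.1.1.1.1.2.1 x.1.1.1.1.1.2.2.1 := by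
              rw [map_neg]
              linear_combination e4
            have e6 := e0
            rw [e5] at e6
            refine ⟨⟨⟨x.1.1.1.1.1, e1⟩, sub_eq_zero.2 e5⟩, ?_⟩
            change IsUnit (ev (up3 K F₀ * up3 K F₂) x.1.1.1.1.1.1 x.1.1.1.1.1.2.1
                x.1.1.1.1.1.2.2.1)
            rw [ev_mul]
            exact e0.mul (isUnit_of_mul_isUnit_right e6)
          inv := fun {R} _ _ y => by
            have e1 : ev (up3 K F₁) y.1.1.1.1 y.1.1.1.2.1 y.1.1.1.2.2.1 = 0 := y.1.1.2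
            have e4 : ev (up3 K F₀) y.1.1.1.1 y.1.1.1.2.1 y.1.1.1.2.2.1 -
                algebraMap K R (-c) * y.1.1.1.2.2.2 ^ (i + j) *
                ev (up3 K F₂) y.1.1.1.1 y.1.1.1.2.1 y.1.1.1.2.2.1 = 0 := y.1.2
            have e5 : IsUnit (ev (up3 K F₀ * up3 K F₂) y.1.1.1.1 y.1.1.1.2.1
                y.1.1.1.2.2.1) := y.2
            rw [ev_mul] at e5
            have e0 := isUnit_of_mul_isUnit_left e5
            have e6 : IsUnit y.1.1.1.2.2.2 := by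
              refine unit_of_pow (Nat.add_pos_left hi j) ?_
              have e7 := e0
              rw [sub_eq_zero.1 e4] at e7
              exact isUnit_of_mul_isUnit_right (isUnit_of_mul_isUnit_left e7)
            refine ⟨⟨⟨⟨⟨y.1.1.1, ?_⟩, e6⟩, ?_⟩, e0⟩, e1⟩
            · change ev (up3 K F₀) y.1.1.1.1 y.1.1.1.2.1 y.1.1.1.2.2.1 - y.1.1.1.2.2.2 ^ j *
                ev (up3 K F₁) y.1.1.1.1 y.1.1.1.2.1 y.1.1.1.2.2.1 + algebraMap K R c *
                y.1.1.1.2.2.2 ^ (i + j) * ev (up3 K F₂) y.1.1.1.1 y.1.1.1.2.1 y.1.1.1.2.2.1 = 0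
              rw [e1]
              rw [map_neg] at e4
              linear_combination e4
            · change ev (up3 K F₀ * up3 K F₁ * up3 K F₂) y.1.1.1.1 y.1.1.1.2.1
                y.1.1.1.2.2.1 = 0
              rw [ev_mul, ev_mul, e1, mul_zero, zero_mul]
          inv_hom := fun _ => rfl
          hom_inv := fun _ => rfl
          nat := fun _ _ => rfl }
  · refine Mem.glue hG (resC _ (resC _ (cbc _ _ _ i j c (up3 K F₂)))) ?_ ?_
    · refine Mem.of_iso ?_ r₀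
      exact
        { hom := fun {R} _ _ x => by
            have e0 : ev (up3 K F₀) x.1.1.1.1.1.1 x.1.1.1.1.1.2.1 x.1.1.1.1.1.2.2.1 = 0 :=
              x.1.2
            have e2 : IsUnit (ev (up3 K F₂) x.1.1.1.1.1.1 x.1.1.1.1.1.2.1 x.1.1.1.1.1.2.2.1) :=
              x.2
            have e4 := cb_eq _ _ _ i j c x.1.1.1
            have e3 : IsUnit x.1.1.1.1.1.2.2.2 := x.1.1.1.2
            rw [e0] at e4
            have e5 : ev (up3 K F₁) x.1.1.1.1.1.1 x.1.1.1.1.1.2.1 x.1.1.1.1.1.2.2.1 =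
                algebraMap K R c * x.1.1.1.1.1.2.2.2 ^ i *
                ev (up3 K F₂) x.1.1.1.1.1.1 x.1.1.1.1.1.2.1 x.1.1.1.1.1.2.2.1 := by
              apply (e3.pow j).mul_left_cancel
              rw [pow_add] at e4
              linear_combination -e4
            refine ⟨⟨⟨x.1.1.1.1.1, e0⟩, sub_eq_zero.2 e5⟩, ?_⟩
            change IsUnit (ev (up3 K F₁ * up3 K F₂) x.1.1.1.1.1.1 x.1.1.1.1.1.2.1
                x.1.1.1.1.1.2.2.1)
            rw [ev_mul, e5]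
            exact (((unit_const hc).mul (e3.pow i)).mul e2).mul e2
          inv := fun {R} _ _ y => by
            have e0 : ev (up3 K F₀) y.1.1.1.1 y.1.1.1.2.1 y.1.1.1.2.2.1 = 0 := y.1.1.2
            have e4 : ev (up3 K F₁) y.1.1.1.1 y.1.1.1.2.1 y.1.1.1.2.2.1 -
                algebraMap K R c * y.1.1.1.2.2.2 ^ i *
                ev (up3 K F₂) y.1.1.1.1 y.1.1.1.2.1 y.1.1.1.2.2.1 = 0 := y.1.2
            have e5 : IsUnit (ev (up3 K F₁ * up3 K F₂) y.1.1.1.1 y.1.1.1.2.1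
                y.1.1.1.2.2.1) := y.2
            rw [ev_mul] at e5
            have e1 := isUnit_of_mul_isUnit_left e5
            have e2 := isUnit_of_mul_isUnit_right e5
            have e6 : IsUnit y.1.1.1.2.2.2 := by
              refine unit_of_pow hi ?_
              rw [sub_eq_zero.1 e4] at e1
              exact isUnit_of_mul_isUnit_right (isUnit_of_mul_isUnit_left e1)
            refine ⟨⟨⟨⟨⟨y.1.1.1, ?_⟩, e6⟩, ?_⟩, e0⟩, e2⟩
            · change ev (up3 K F₀) y.1.1.1.1 y.1.1.1.2.1 y.1.1.1.2.2.1 - y.1.1.1.2.2.2 ^ j *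
                ev (up3 K F₁) y.1.1.1.1 y.1.1.1.2.1 y.1.1.1.2.2.1 + algebraMap K R c *
                y.1.1.1.2.2.2 ^ (i + j) * ev (up3 K F₂) y.1.1.1.1 y.1.1.1.2.1 y.1.1.1.2.2.1 = 0
              rw [e0, pow_add]
              linear_combination (- y.1.1.1.2.2.2 ^ j) * e4
            · change ev (up3 K F₀ * up3 K F₁ * up3 K F₂) y.1.1.1.1 y.1.1.1.2.1
                y.1.1.1.2.2.1 = 0
              rw [ev_mul, ev_mul, e0, zero_mul, zero_mul]
          inv_hom := fun _ => rfl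
          hom_inv := fun _ => rfl
          nat := fun _ _ => rfl }
    · refine Mem.of_iso (F' := gm (ZK (up3 K F₀) (up3 K F₁) (up3 K F₂))) ?_
        (mem_gm hG rz)
      exact
        { hom := fun {R} _ _ x => by
            have e0 : ev (up3 K F₀) x.1.1.1.1.1.1 x.1.1.1.1.1.2.1 x.1.1.1.1.1.2.2.1 = 0 :=
              x.1.2
            have e2 : ev (up3 K F₂) x.1.1.1.1.1.1 x.1.1.1.1.1.2.1 x.1.1.1.1.1.2.2.1 = 0 := x.2
            have e4 := cb_eq _ _ _ i j c x.1.1.1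
            have e3 : IsUnit x.1.1.1.1.1.2.2.2 := x.1.1.1.2
            rw [e0, e2, mul_zero, add_zero, zero_sub, neg_eq_zero] at e4
            have e5 := (e3.pow j).mul_right_eq_zero.1 e4
            exact ⟨(⟨⟨⟨(x.1.1.1.1.1.1, x.1.1.1.1.1.2.1, x.1.1.1.1.1.2.2.1), e0⟩, e5⟩, e2⟩,
              x.1.1.1.1.1.2.2.2), e3⟩
          inv := fun {R} _ _ y => by
            have e0 : ev (up3 K F₀) y.1.1.1.1.1.1 y.1.1.1.1.1.2.1 y.1.1.1.1.1.2.2 = 0 :=
              y.1.1.1.1.2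
            have e1 : ev (up3 K F₁) y.1.1.1.1.1.1 y.1.1.1.1.1.2.1 y.1.1.1.1.1.2.2 = 0 :=
              y.1.1.1.2
            have e2 : ev (up3 K F₂) y.1.1.1.1.1.1 y.1.1.1.1.1.2.1 y.1.1.1.1.1.2.2 = 0 :=
              y.1.1.2
            refine ⟨⟨⟨⟨⟨(y.1.1.1.1.1.1, y.1.1.1.1.1.2.1, y.1.1.1.1.1.2.2, y.1.2), ?_⟩, y.2⟩, ?_⟩,
              e0⟩, e2⟩
            · change ev (up3 K F₀) y.1.1.1.1.1.1 y.1.1.1.1.1.2.1 y.1.1.1.1.1.2.2 - y.1.2 ^ j *
                ev (up3 K F₁) y.1.1.1.1.1.1 y.1.1.1.1.1.2.1 y.1.1.1.1.1.2.2 + algebraMap K R c *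
                y.1.2 ^ (i + j) * ev (up3 K F₂) y.1.1.1.1.1.1 y.1.1.1.1.1.2.1
                  y.1.1.1.1.1.2.2 = 0
              rw [e0, e1, e2]
              ring
            · change ev (up3 K F₀ * up3 K F₁ * up3 K F₂) y.1.1.1.1.1.1 y.1.1.1.1.1.2.1
                y.1.1.1.1.1.2.2 = 0
              rw [ev_mul, ev_mul, e0, zero_mul, zero_mul]
          inv_hom := fun _ => rfl
          hom_inv := fun _ => rfl
          nat := fun _ _ => rfl }

/-- the part `r = 0` of the cone -/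
def isoTS0 (F₀ F₁ F₂ : MvPolynomial (Fin 3) K) {i j : ℕ} (hi : 0 < i) (hj : 0 < j) (c : K) :
    Iso ((TS F₀ F₁ F₂ i j c).cls (TS.r F₀ F₁ F₂ i j c)) ((A3 K).cls (g3 F₀)) where
  hom {R} _ _ x := ⟨(x.1.1.1, x.1.1.2.1, x.1.1.2.2.1), by
    have h1 : ev F₀ x.1.1.1 x.1.1.2.1 x.1.1.2.2.1 - x.1.1.2.2.2 ^ j *
      ev F₁ x.1.1.1 x.1.1.2.1 x.1.1.2.2.1 + algebraMap K R c * x.1.1.2.2.2 ^ (i + j) *
      ev F₂ x.1.1.1 x.1.1.2.1 x.1.1.2.2.1 = 0 := x.1.2
    have h2 : x.1.1.2.2.2 = 0 := x.2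
    rw [h2, zero_pow hj.ne', zero_pow (Nat.add_pos_left hi j).ne', zero_mul, sub_zero, mul_zero,
      zero_mul, add_zero] at h1
    exact h1⟩
  inv {R} _ _ y := ⟨⟨(y.1.1, y.1.2.1, y.1.2.2, 0), by
    have h1 : ev F₀ y.1.1 y.1.2.1 y.1.2.2 = 0 := y.2
    change ev F₀ y.1.1 y.1.2.1 y.1.2.2 - 0 ^ j * ev F₁ y.1.1 y.1.2.1 y.1.2.2 +
      algebraMap K R c * 0 ^ (i + j) * ev F₂ y.1.1 y.1.2.1 y.1.2.2 = 0
    rw [h1, zero_pow hj.ne', zero_pow (Nat.add_pos_left hi j).ne', zero_mul, sub_zero, mul_zero,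
      zero_mul, add_zero]⟩, rfl⟩
  inv_hom {R} _ _ x := by
    have h2 : x.1.1.2.2.2 = 0 := x.2
    exact Subtype.ext (Subtype.ext (Prod.ext rfl (Prod.ext rfl (Prod.ext rfl h2.symm))))
  hom_inv _ := rfl
  nat {R S} _ _ _ _ f x := rfl

/-- **(W1)** the fibre over a point `e ≠ 0` -/
theorem fibw_ne [IsAlgClosed K] (hG : GOps K G) [Finite k] (hW : Cst k G) {w : Fin 3 → ℕ}
    (hw : ∀ i, 0 < w i) (F₀ F₁ F₂ : MvPolynomial (Fin 3) k) {d₀ d₁ d₂ γ : ℕ}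
    (h₀ : IsWeightedHomogeneous w F₀ d₀) (h₁ : IsWeightedHomogeneous w F₁ d₁)
    (h₂ : IsWeightedHomogeneous w F₂ d₂) (n₀ : F₀ ≠ 0) (n₁ : F₁ ≠ 0) (n₂ : F₂ ≠ 0) (s t : ℕ)
    (hs : 0 < s) (ht : 0 < t) (hst : s.Coprime t) (_hγ : 0 < γ) (e₁ : d₀ = d₁ + t * γ)
    (e₂ : d₀ = d₂ + (s + t) * γ) (c : K) (hc : c ≠ 0)
    (h : (TS (MvPolynomial.map (algebraMap k K) F₀) (MvPolynomial.map (algebraMap k K) F₁)
      (MvPolynomial.map (algebraMap k K) F₂) s t c).Mem G) :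
    (FibT (MvPolynomial.map (algebraMap k K) (F₀ ^ s * F₂ ^ t))
      (MvPolynomial.map (algebraMap k K) (F₁ ^ (s + t)))
      (MvPolynomial.map (algebraMap k K) (F₀ * F₁ * F₂)) s t (c ^ t)).Mem G := by
  have e₃ : d₁ = d₂ + s * γ := by
    have h4 := e₁.symm.trans e₂
    rw [add_mul] at h4
    omega
  have hB : (CB (up3 K F₀) (up3 K F₁) (up3 K F₂) s t c).Mem G :=
    mem_opn hG.toKOps (TS.r _ _ _ s t c) h (Mem.of_iso (isoTS0 _ _ _ hs ht c)
      (mem_Bw hG hW hw F₀ h₀ n₀))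
  refine Mem.of_iso (isoFib2 F₀ F₁ F₂ hs ht hst hc) (mem_opn hG.toKOps _ hB
    (mem_cb_clsW hG.toKOps F₀ F₁ F₂ s t hs ht c hc ?_ ?_ ?_ ?_))
  · exact mem_RKw hG hW hw F₂ F₀ F₁ ht h₂ n₂ (γ := γ) (e₁ ▸ h₀) h₁ 1 one_ne_zero
  · exact mem_RKw hG hW hw F₁ F₀ F₂ (Nat.add_pos_left hs t) h₁ n₁ (γ := γ) (e₂ ▸ h₀) h₂ (-c)
      (neg_ne_zero.2 hc)
  · exact mem_RKw hG hW hw F₀ F₁ F₂ hs h₀ n₀ (γ := γ) (e₃ ▸ h₁) h₂ c hc
  · exact mem_ZKw hG hW hw F₀ F₁ F₂ h₀ n₀ h₁ h₂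

/-- **(W1)** the fibre over zero -/
theorem fibw_zero (hG : GOps K G) [Finite k] (hW : Cst k G) {w : Fin 3 → ℕ}
    (hw : ∀ i, 0 < w i) (F₀ F₁ F₂ : MvPolynomial (Fin 3) k) {d₀ d₁ d₂ : ℕ}
    (h₀ : IsWeightedHomogeneous w F₀ d₀) (h₁ : IsWeightedHomogeneous w F₁ d₁)
    (h₂ : IsWeightedHomogeneous w F₂ d₂) (n₀ : F₀ ≠ 0) (n₁ : F₁ ≠ 0) (n₂ : F₂ ≠ 0) (i j : ℕ)
    (hi : 0 < i) (hj : 0 < j) :
    (FibT (MvPolynomial.map (algebraMap k K) (F₀ ^ i * F₂ ^ j))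
      (MvPolynomial.map (algebraMap k K) (F₁ ^ (i + j)))
      (MvPolynomial.map (algebraMap k K) (F₀ * F₁ * F₂)) i j 0).Mem G := by
  have hU : ((A3 K).opn (g3 (up3 K (F₀ * F₁ * F₂)))).Mem G := by
    have hR : Rp (A3 K) := Rp.iso isoA3
    exact mem_opn hG.toKOps _ (mem_A3 hG) (mem_Bw hG hW hw _ ((h₀.mul h₁).mul h₂)
      (mul_ne_zero (mul_ne_zero n₀ n₁) n₂))
  let v : Coord (F2T F₀ F₁ F₂ i j (0 : K)) := ⟨fun x => x.1.1.2.2.2, fun _ _ => rfl⟩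
  have key : ∀ (R : Type) [CommRing R] [Algebra K R] (x : (F2T F₀ F₁ F₂ i j (0 : K)).obj R),
      x.1.1.2.2.2 ^ i * (1 - x.1.1.2.2.2) ^ j = 0 := by
    intro R _ _ x
    have h1 := f2_eq F₀ F₁ F₂ i j 0 x
    have h2 := (f2_unit F₀ F₁ F₂ i j 0 x).2.1
    rw [map_zero, zero_mul] at h1
    exact (h2.pow (i + j)).mul_right_eq_zero.1 h1.symm
  refine Mem.glue hG.toKOps v ?_ ?_
  · let w : Coord ((F2T F₀ F₁ F₂ i j (0 : K)).opn v) := ⟨fun x => 1 - x.1.1.1.2.2.2,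
      fun f x => by
        rw [map_sub, map_one]
        rfl⟩
    refine Mem.glue hG.toKOps w (Mem.of_trivial hG.toKOps fun A _ _ x => ?_) ?_
    · have h1 := key A x.1.1
      have h2 : IsUnit x.1.1.1.1.2.2.2 := x.1.2
      have h3 : IsUnit (1 - x.1.1.1.1.2.2.2) := x.2
      have h4 := (h2.pow i).mul (h3.pow j)
      rw [h1] at h4
      exact subsingleton_of_zero_eq_one (isUnit_zero_iff.1 h4)
    · refine Mem.of_iso ?_ hU
      exact
        { hom := fun {R} _ _ x => ⟨(x.1.1.1.1.1, x.1.1.1.1.2.1, x.1.1.1.1.2.2.1), x.1.1.2⟩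
          inv := fun {R} _ _ y => ⟨⟨⟨⟨(y.1.1, y.1.2.1, y.1.2.2, 1), by
            refine f2_mk F₀ F₁ F₂ i j 0 _ _ _ _ ?_
            rw [map_zero, sub_self, zero_pow hj.ne']
            ring⟩, y.2⟩, isUnit_one⟩, sub_self _⟩
          inv_hom := fun {R} _ _ x => by
            have h3 : 1 - x.1.1.1.1.2.2.2 = 0 := x.2
            exact Subtype.ext (Subtype.ext (Subtype.ext (Subtype.ext (Prod.ext rfl
              (Prod.ext rfl (Prod.ext rfl (sub_eq_zero.1 h3)))))))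
          hom_inv := fun {R} _ _ y => rfl
          nat := fun {R S} _ _ _ _ f x => rfl }
  · refine Mem.of_iso ?_ hU
    exact
      { hom := fun {R} _ _ x => ⟨(x.1.1.1.1, x.1.1.1.2.1, x.1.1.1.2.2.1), x.1.2⟩
        inv := fun {R} _ _ y => ⟨⟨⟨(y.1.1, y.1.2.1, y.1.2.2, 0), by
          refine f2_mk F₀ F₁ F₂ i j 0 _ _ _ _ ?_
          rw [map_zero, zero_pow hi.ne']
          ring⟩, y.2⟩, rfl⟩
        inv_hom := fun {R} _ _ x => by
          have h2 : x.1.1.1.2.2.2 = 0 := x.2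
          exact Subtype.ext (Subtype.ext (Subtype.ext (Prod.ext rfl
            (Prod.ext rfl (Prod.ext rfl h2.symm)))))
        hom_inv := fun {R} _ _ y => rfl
        nat := fun {R S} _ _ _ _ f x => rfl }

end Pool.Agent.Helper49.TP
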