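import Pool.Agent.Helper9.TP.Defs
import Pool.Agent.Helper71.QP.Cone

/-!
# Linear changes of coordinates of quaternary cubic forms
-/

set_option autoImplicit false

namespace Pool.Agent.Helper49.TP

open Pool.Agent.Helper29.CQ Pool.Agent.Helper65.CC Pool.Agent.Helper87.CC
  Pool.Agent.Helper65.CC.KFn
open Pool.Agent.Helper9.QP (A4 isoA4 mem_A4)
open Pool.Agent.Helper71.QP (lv lv_mul lv_one lv_map exists_mat exists_linQ Qv)

variable {K : Type} [Field K] {G : ∀ (R : Type) [CommRing R] [Algebra K R], Prop}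

/-- matrices act on vectors -/
def lv4 (M : Matrix (Fin 4) (Fin 4) K) {R : Type} [CommRing R] [Algebra K R]
    (x : R × R × R × R) : R × R × R × R :=
  (algebraMap K R (M 0 0) * x.1 + algebraMap K R (M 0 1) * x.2.1 +
      algebraMap K R (M 0 2) * x.2.2.1 + algebraMap K R (M 0 3) * x.2.2.2,
    algebraMap K R (M 1 0) * x.1 + algebraMap K R (M 1 1) * x.2.1 +
      algebraMap K R (M 1 2) * x.2.2.1 + algebraMap K R (M 1 3) * x.2.2.2,
    algebraMap K R (M 2 0) * x.1 + algebraMap K R (M 2 1) * x.2.1 +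
      algebraMap K R (M 2 2) * x.2.2.1 + algebraMap K R (M 2 3) * x.2.2.2,
    algebraMap K R (M 3 0) * x.1 + algebraMap K R (M 3 1) * x.2.1 +
      algebraMap K R (M 3 2) * x.2.2.1 + algebraMap K R (M 3 3) * x.2.2.2)

theorem lv4_mul (M N : Matrix (Fin 4) (Fin 4) K) {R : Type} [CommRing R] [Algebra K R]
    (x : R × R × R × R) : lv4 M (lv4 N x) = lv4 (M * N) x := by
  refine Prod.ext ?_ (Prod.ext ?_ (Prod.ext ?_ ?_)) <;>
  · simp only [lv4, Matrix.mul_apply, Fin.sum_univ_four, map_add, map_mul]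
    ring

theorem lv4_one {R : Type} [CommRing R] [Algebra K R] (x : R × R × R × R) :
    lv4 (1 : Matrix (Fin 4) (Fin 4) K) x = x := by
  refine Prod.ext ?_ (Prod.ext ?_ (Prod.ext ?_ ?_)) <;> simp [lv4]

theorem lv4_map (M : Matrix (Fin 4) (Fin 4) K) {R S : Type} [CommRing R] [Algebra K R]
    [CommRing S] [Algebra K S] (f : R →ₐ[K] S) (x : R × R × R × R) :
    lv4 M ((A4 K).map f x) = (A4 K).map f (lv4 M x) := by
  change lv4 M (f x.1, f x.2.1, f x.2.2.1, f x.2.2.2) =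
    (f (lv4 M x).1, f (lv4 M x).2.1, f (lv4 M x).2.2.1, f (lv4 M x).2.2.2)
  simp only [lv4, map_add, map_mul, AlgHom.commutes]

/-- invariance under the translations with the direction `v` -/
def Inv4 (u : Coord (A4 K)) (v : Fin 4 → K) : Prop :=
  ∀ (R : Type) [CommRing R] [Algebra K R] (x y z r t : R),
    u.val (R := R) (x + t * algebraMap K R (v 0), y + t * algebraMap K R (v 1),
      z + t * algebraMap K R (v 2), r + t * algebraMap K R (v 3)) = u.val (R := R) (x, y, z, r)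

theorem lv4_cancel {M N : Matrix (Fin 4) (Fin 4) K} (h : M * N = 1) {R : Type} [CommRing R]
    [Algebra K R] (x : R × R × R × R) : lv4 M (lv4 N x) = x := by
  rw [lv4_mul, h, lv4_one]

/-- the change of coordinates of closed subfunctors -/
def iso4 (u w : Coord (A4 K)) (M N : Matrix (Fin 4) (Fin 4) K) (h1 : M * N = 1) (h2 : N * M = 1)
    (h : ∀ (R : Type) [CommRing R] [Algebra K R] (x : R × R × R × R),
      u.val (R := R) (lv4 M x) = w.val (R := R) x) : Iso ((A4 K).cls u) ((A4 K).cls w) where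
  hom {R} _ _ x := ⟨lv4 N x.1, (h R (lv4 N x.1)).symm.trans
    ((congrArg (fun y : R × R × R × R => u.val (R := R) y) (lv4_cancel h1 x.1)).trans x.2)⟩
  inv {R} _ _ y := ⟨lv4 M y.1, (h R y.1).trans y.2⟩
  inv_hom x := Subtype.ext (lv4_cancel h1 x.1)
  hom_inv y := Subtype.ext (lv4_cancel h2 y.1)
  nat f x := Subtype.ext (lv4_map N f x.1).symm

theorem inv4_lin {u w : Coord (A4 K)} {M N : Matrix (Fin 4) (Fin 4) K} (h1 : M * N = 1)
    (h : ∀ (R : Type) [CommRing R] [Algebra K R] (x : R × R × R × R),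
      u.val (R := R) (lv4 M x) = w.val (R := R) x) (v : Fin 4 → K) (hv : Inv4 w v) :
    Inv4 u (M.mulVec v) := by
  intro R _ _ x y z r t
  have h3 := hv R (lv4 N (x, y, z, r)).1 (lv4 N (x, y, z, r)).2.1 (lv4 N (x, y, z, r)).2.2.1
    (lv4 N (x, y, z, r)).2.2.2 t
  have h4 : w.val (R := R) (lv4 N (x, y, z, r)) = u.val (R := R) (x, y, z, r) := by
    rw [← h, lv4_mul, h1, lv4_one]
  rw [← h] at h3
  rw [← h4]
  refine Eq.trans ?_ h3
  congr 1
  have h7 : lv4 M (lv4 N (x, y, z, r)) = (x, y, z, r) := by rw [lv4_mul, h1, lv4_one]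
  have e0 := congrArg Prod.fst h7
  have e1 := congrArg (fun w => w.2.1) h7
  have e2 := congrArg (fun w => w.2.2.1) h7
  have e3 := congrArg (fun w => w.2.2.2) h7
  simp only [lv4] at e0 e1 e2 e3
  refine Prod.ext ?_ (Prod.ext ?_ (Prod.ext ?_ ?_))
  · simp only [lv4, Matrix.mulVec, dotProduct, Fin.sum_univ_four, map_add, map_mul]
    linear_combination -e0
  · simp only [lv4, Matrix.mulVec, dotProduct, Fin.sum_univ_four, map_add, map_mul]
    linear_combination -e1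
  · simp only [lv4, Matrix.mulVec, dotProduct, Fin.sum_univ_four, map_add, map_mul]
    linear_combination -e2
  · simp only [lv4, Matrix.mulVec, dotProduct, Fin.sum_univ_four, map_add, map_mul]
    linear_combination -e3

theorem mulVec_ne {M N : Matrix (Fin 4) (Fin 4) K} (h : N * M = 1) {v : Fin 4 → K} (hv : v ≠ 0) :
    M.mulVec v ≠ 0 := by
  intro h0
  apply hv
  have h4 : (N * M).mulVec v = 0 := by rw [← Matrix.mulVec_mulVec, h0, Matrix.mulVec_zero]
  rwa [h, Matrix.one_mulVec] at h4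

/-- invertible matrices with a prescribed last column -/
theorem exists_mat4 (v : Fin 4 → K) (hv : v ≠ 0) : ∃ M N : Matrix (Fin 4) (Fin 4) K,
    M * N = 1 ∧ N * M = 1 ∧ ∀ i, M i 3 = v i := by
  have key : ∀ M : Matrix (Fin 4) (Fin 4) K, M.det ≠ 0 → (∀ i, M i 3 = v i) →
      ∃ M N : Matrix (Fin 4) (Fin 4) K, M * N = 1 ∧ N * M = 1 ∧ ∀ i, M i 3 = v i := by
    intro M hM h
    have hu : IsUnit M.det := isUnit_iff_ne_zero.2 hM
    exact ⟨M, M⁻¹, Matrix.mul_nonsing_inv M hu, Matrix.nonsing_inv_mul M hu, h⟩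
  by_cases h3 : v 3 = 0
  · by_cases h2 : v 2 = 0
    · by_cases h1 : v 1 = 0
      · have h0 : v 0 ≠ 0 := by
          intro h0
          apply hv
          funext i
          fin_cases i
          · exact h0
          · exact h1
          · exact h2
          · exact h3
        refine key !![0, 0, 0, v 0; 1, 0, 0, v 1; 0, 1, 0, v 2; 0, 0, 1, v 3] ?_ ?_
        · simp [Matrix.det_succ_row_zero, Fin.sum_univ_succ, Fin.succAbove, h1, h2, h3, h0]
        · intro i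
          fin_cases i <;> rfl
      · refine key !![1, 0, 0, v 0; 0, 0, 0, v 1; 0, 1, 0, v 2; 0, 0, 1, v 3] ?_ ?_
        · simp [Matrix.det_succ_row_zero, Fin.sum_univ_succ, Fin.succAbove, h1, h2, h3]
        · intro i
          fin_cases i <;> rfl
    · refine key !![1, 0, 0, v 0; 0, 1, 0, v 1; 0, 0, 0, v 2; 0, 0, 1, v 3] ?_ ?_
      · simp [Matrix.det_succ_row_zero, Fin.sum_univ_succ, Fin.succAbove, h2, h3]
      · intro i
        fin_cases i <;> rfl
  · refine key !![1, 0, 0, v 0; 0, 1, 0, v 1; 0, 0, 1, v 2; 0, 0, 0, v 3] ?_ ?_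
    · simp [Matrix.det_succ_row_zero, Fin.sum_univ_succ, Fin.succAbove, h3]
    · intro i
      fin_cases i <;> rfl

/-- the block matrix with the blocks `A` and `1` -/
def blk (A : Matrix (Fin 3) (Fin 3) K) : Matrix (Fin 4) (Fin 4) K :=
  !![A 0 0, A 0 1, A 0 2, 0; A 1 0, A 1 1, A 1 2, 0; A 2 0, A 2 1, A 2 2, 0; 0, 0, 0, 1]

theorem blk_mul (A B : Matrix (Fin 3) (Fin 3) K) : blk A * blk B = blk (A * B) := by
  ext i j
  fin_cases i <;> fin_cases j <;>
    simp [blk, Matrix.mul_apply, Fin.sum_univ_four, Fin.sum_univ_three]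

theorem blk_one : blk (1 : Matrix (Fin 3) (Fin 3) K) = 1 := by
  ext i j
  fin_cases i <;> fin_cases j <;> simp [blk]

theorem lv4_blk (A : Matrix (Fin 3) (Fin 3) K) {R : Type} [CommRing R] [Algebra K R]
    (x y z r : R) : lv4 (blk A) (x, y, z, r) =
      ((lv A (x, y, z)).1, (lv A (x, y, z)).2.1, (lv A (x, y, z)).2.2, r) := by
  refine Prod.ext ?_ (Prod.ext ?_ (Prod.ext ?_ ?_)) <;> simp [lv4, blk, lv]

/-! ### Cubic forms in three variables -/

/-- cubic forms in three variables -/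
def F3 (c : ℕ → ℕ → K) {R : Type} [CommRing R] [Algebra K R] (x y z : R) : R :=
  algebraMap K R (c 0 0) * z ^ 3 + algebraMap K R (c 1 0) * (x * z ^ 2) +
    algebraMap K R (c 0 1) * (y * z ^ 2) + algebraMap K R (c 2 0) * (x ^ 2 * z) +
    algebraMap K R (c 1 1) * (x * y * z) + algebraMap K R (c 0 2) * (y ^ 2 * z) +
    algebraMap K R (c 3 0) * x ^ 3 + algebraMap K R (c 2 1) * (x ^ 2 * y) +
    algebraMap K R (c 1 2) * (x * y ^ 2) + algebraMap K R (c 0 3) * y ^ 3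

theorem F3_map (c : ℕ → ℕ → K) {R S : Type} [CommRing R] [Algebra K R] [CommRing S]
    [Algebra K S] (f : R →ₐ[K] S) (x y z : R) : f (F3 c x y z) = F3 c (f x) (f y) (f z) := by
  simp only [F3, map_add, map_mul, map_pow, AlgHom.commutes]

open MvPolynomial in
/-- the cubic form as a polynomial -/
noncomputable def G3 (c : ℕ → ℕ → K) : MvPolynomial (Fin 3) K := F3 c (X 0) (X 1) (X 2)

theorem aeval_G3 (c : ℕ → ℕ → K) {R : Type} [CommRing R] [Algebra K R] (x : Fin 3 → R) :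
    MvPolynomial.aeval x (G3 c) = F3 c (x 0) (x 1) (x 2) := by
  rw [G3, F3_map, MvPolynomial.aeval_X, MvPolynomial.aeval_X, MvPolynomial.aeval_X]

open MvPolynomial Pool.Agent.Helper71.CQ in
theorem G3_hom (c : ℕ → ℕ → K) : (G3 c).IsHomogeneous 3 := by
  have h1 : G3 c = C (c 0 0) * (X 0 ^ 0 * X 1 ^ 0 * X 2 ^ 3) +
      C (c 1 0) * (X 0 ^ 1 * X 1 ^ 0 * X 2 ^ 2) +
      C (c 0 1) * (X 0 ^ 0 * X 1 ^ 1 * X 2 ^ 2) + C (c 2 0) * (X 0 ^ 2 * X 1 ^ 0 * X 2 ^ 1)
      + C (c 1 1) * (X 0 ^ 1 * X 1 ^ 1 * X 2 ^ 1) + C (c 0 2) * (X 0 ^ 0 * X 1 ^ 2 * X 2 ^ 1)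
      + C (c 3 0) * (X 0 ^ 3 * X 1 ^ 0 * X 2 ^ 0) + C (c 2 1) * (X 0 ^ 2 * X 1 ^ 1 * X 2 ^ 0)
      + C (c 1 2) * (X 0 ^ 1 * X 1 ^ 2 * X 2 ^ 0) + C (c 0 3) * (X 0 ^ 0 * X 1 ^ 3 * X 2 ^ 0) := by
    simp only [G3, F3, algebraMap_eq]
    ring
  rw [h1]
  exact ((((((((((mono_hom _ 0 0 3).add (mono_hom _ 1 0 2)).add (mono_hom _ 0 1 2)).add
    (mono_hom _ 2 0 1)).add (mono_hom _ 1 1 1)).add (mono_hom _ 0 2 1)).add
    (mono_hom _ 3 0 0)).add (mono_hom _ 2 1 0)).add (mono_hom _ 1 2 0)).add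
    (mono_hom _ 0 3 0))

open MvPolynomial Pool.Agent.Helper71.CQ in
theorem exists_F3 {H : MvPolynomial (Fin 3) K} (hH : H.IsHomogeneous 3) :
    ∃ c : ℕ → ℕ → K, ∀ (R : Type) [CommRing R] [Algebra K R] (x : Fin 3 → R),
      aeval x H = F3 c (x 0) (x 1) (x 2) := by
  refine ⟨fun i j => coeff (T i j (3 - i - j)) H, ?_⟩
  intro R _ _ x
  rw [hom_sum hH]
  simp [Finset.sum_range_succ, F3]
  ring

theorem exists_lin3 (c : ℕ → ℕ → K) (M : Matrix (Fin 3) (Fin 3) K) :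
    ∃ c' : ℕ → ℕ → K, ∀ (R : Type) [CommRing R] [Algebra K R] (x : R × R × R),
      F3 c (lv M x).1 (lv M x).2.1 (lv M x).2.2 = F3 c' x.1 x.2.1 x.2.2 := by
  let L : Fin 3 → MvPolynomial (Fin 3) K := fun i =>
    MvPolynomial.C (M i 0) * MvPolynomial.X 0 + MvPolynomial.C (M i 1) * MvPolynomial.X 1 +
      MvPolynomial.C (M i 2) * MvPolynomial.X 2
  have hL : ∀ i, (L i).IsHomogeneous 1 := fun i =>
    (((MvPolynomial.isHomogeneous_X K 0).C_mul _).add
      ((MvPolynomial.isHomogeneous_X K 1).C_mul _)).add ((MvPolynomial.isHomogeneous_X K 2).C_mul _)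
  have hH : (MvPolynomial.aeval L (G3 c)).IsHomogeneous 3 := by
    have h1 := (G3_hom c).aeval L hL
    simpa using h1
  obtain ⟨c', hc'⟩ := exists_F3 hH
  refine ⟨c', fun R _ _ x => ?_⟩
  have h1 := hc' R ![x.1, x.2.1, x.2.2]
  rw [← AlgHom.comp_apply, MvPolynomial.comp_aeval, aeval_G3] at h1
  simpa [L, lv] using h1

end Pool.Agent.Helper49.TP
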