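import Pool.Agent.Helper49.TP.Bin

/-!
# The cone `r ^ 2 z + r q(x, y, z) + c(x, y, z) = 0`
-/

set_option autoImplicit false

namespace Pool.Agent.Helper49.TP

open Pool.Agent.Helper29.CQ Pool.Agent.Helper65.CC Pool.Agent.Helper87.CC
  Pool.Agent.Helper65.CC.KFn
open Pool.Agent.Helper9.QP (A4 isoA4 mem_A4 CV sqc F4_sqc Inv)
open Pool.Agent.Helper71.PN
open Pool.Agent.Helper71.QP (CVz cone_mem)

variable {K : Type} [Field K] {G : ∀ (R : Type) [CommRing R] [Algebra K R], Prop}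

/-- the cubic form `r ^ 2 z + r q(x, y, z) + c(x, y, z)` -/
def nf (q : Fin 6 → K) (c : ℕ → ℕ → K) : Coord (A4 K) where
  val x := x.2.2.2 ^ 2 * x.2.2.1 + x.2.2.2 * qf q x.1 x.2.1 x.2.2.1 + F3 c x.1 x.2.1 x.2.2.1
  nat f x := by
    rw [map_add, map_add, map_mul, map_mul, map_pow, qf_map, F3_map]
    rfl

/-- the quadratic form at infinity -/
def qb (q : Fin 6 → K) : Coord (A2 K) where
  val x := qf q x.1 x.2 0
  nat f x := by
    rw [qf_map, map_zero]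
    rfl

/-- the cubic form at infinity -/
def cb (c : ℕ → ℕ → K) : Coord (A2 K) where
  val x := F3 c x.1 x.2 0
  nat f x := by
    rw [F3_map, map_zero]
    rfl

theorem qb_hom (q : Fin 6 → K) : Hom2 (qb q) 2 := by
  intro R _ _ t x y
  change qf q (t * x) (t * y) 0 = t ^ 2 * qf q x y 0
  simp only [qf]
  ring

theorem cb_hom (c : ℕ → ℕ → K) : Hom2 (cb c) 3 := by
  intro R _ _ t x y
  change F3 c (t * x) (t * y) 0 = t ^ 3 * F3 c x y 0
  simp only [F3]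
  ring

/-- the coefficients of `q ^ 2 - 4 z c` -/
def Dc (q : Fin 6 → K) (c : ℕ → ℕ → K) : ℕ → ℕ → K :=
  fun i j => sqc q i j - 4 * (if i + j ≤ 3 then c i j else 0)

theorem F4_Dc (q : Fin 6 → K) (c : ℕ → ℕ → K) {R : Type} [CommRing R] [Algebra K R] (x y z : R) :
    F4 (Dc q c) x y z = qf q x y z ^ 2 - 4 * (z * F3 c x y z) := by
  have h1 : F4 (Dc q c) x y z = F4 (sqc q) x y z -
      4 * F4 (fun i j => if i + j ≤ 3 then c i j else 0) x y z := by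
    simp only [F4, Dc, map_sub, map_mul, map_ofNat]
    ring
  have h2 : F4 (fun i j => if i + j ≤ 3 then c i j else 0) x y z = z * F3 c x y z := by
    simp [F4, F3]
    ring
  rw [h1, h2, F4_sqc]

/-- the last coordinate but one -/
def nfz (q : Fin 6 → K) (c : ℕ → ℕ → K) : Coord ((A4 K).cls (nf q c)) :=
  ⟨fun x => x.1.2.2.1, fun _ _ => rfl⟩

theorem nf_eq (q : Fin 6 → K) (c : ℕ → ℕ → K) {R : Type} [CommRing R] [Algebra K R]
    (x : ((A4 K).cls (nf q c)).obj R) : x.1.2.2.2 ^ 2 * x.1.2.2.1 +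
      x.1.2.2.2 * qf q x.1.1 x.1.2.1 x.1.2.2.1 + F3 c x.1.1 x.1.2.1 x.1.2.2.1 = 0 := x.2

/-- the part `z = 0` -/
theorem mem_nf_cls [IsAlgClosed K] (hG : GOps K G) (q : Fin 6 → K) (c : ℕ → ℕ → K) :
    (((A4 K).cls (nf q c)).cls (nfz q c)).Mem G := by
  let w : Coord (((A4 K).cls (nf q c)).cls (nfz q c)) := ⟨fun x => qf q x.1.1.1 x.1.1.2.1 0,
    fun f x => by
      rw [qf_map, map_zero]
      rfl⟩
  have key : ∀ (R : Type) [CommRing R] [Algebra K R] (x : (((A4 K).cls (nf q c)).cls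
      (nfz q c)).obj R), x.1.1.2.2.2 * qf q x.1.1.1 x.1.1.2.1 0 + F3 c x.1.1.1 x.1.1.2.1 0 = 0 := by
    intro R _ _ x
    have h1 := nf_eq q c x.1
    have h2 : x.1.1.2.2.1 = 0 := x.2
    rw [h2] at h1
    linear_combination h1
  refine Mem.glue hG.toKOps w ?_ ?_
  · refine Mem.of_iso (F' := (A2 K).opn (qb q)) ?_ (mem_A2_opn hG (qb q) (qb_hom q))
    exact
      { hom := fun {R} _ _ x => ⟨(x.1.1.1.1, x.1.1.1.2.1), x.2⟩
        inv := fun {R} _ _ y => ⟨⟨⟨(y.1.1, y.1.2, 0,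
            - F3 c y.1.1 y.1.2 0 * Ring.inverse (qf q y.1.1 y.1.2 0)), by
            have h1 : qf q y.1.1 y.1.2 0 * Ring.inverse (qf q y.1.1 y.1.2 0) = 1 := mul_inv' y.2
            change (- F3 c y.1.1 y.1.2 0 * Ring.inverse (qf q y.1.1 y.1.2 0)) ^ 2 * 0 +
              (- F3 c y.1.1 y.1.2 0 * Ring.inverse (qf q y.1.1 y.1.2 0)) * qf q y.1.1 y.1.2 0 +
                F3 c y.1.1 y.1.2 0 = 0
            linear_combination (- F3 c y.1.1 y.1.2 0) * h1⟩, rfl⟩, y.2⟩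
        inv_hom := fun {R} _ _ x => by
          have h0 : IsUnit (qf q x.1.1.1.1 x.1.1.1.2.1 0) := x.2
          have h1 := mul_inv' h0
          have h2 : x.1.1.1.2.2.1 = 0 := x.1.2
          have h3 := key R x.1
          refine Subtype.ext (Subtype.ext (Subtype.ext (Prod.ext rfl (Prod.ext rfl
            (Prod.ext h2.symm ?_)))))
          change - F3 c x.1.1.1.1 x.1.1.1.2.1 0 * Ring.inverse (qf q x.1.1.1.1 x.1.1.1.2.1 0) =
            x.1.1.1.2.2.2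
          linear_combination x.1.1.1.2.2.2 * h1 -
            Ring.inverse (qf q x.1.1.1.1 x.1.1.1.2.1 0) * h3
        hom_inv := fun _ => rfl
        nat := fun _ _ => rfl }
  · refine Mem.of_iso (F' := (((A2 K).cls (qb q)).cls (resC _ (cb c))).line) ?_
      (Mem.line hG.toKOps (mem_A2_cls2 hG (qb q) (cb c) (qb_hom q) (cb_hom c)))
    exact
      { hom := fun {R} _ _ x => (⟨⟨(x.1.1.1.1, x.1.1.1.2.1), x.2⟩, by
          have h0 : qf q x.1.1.1.1 x.1.1.1.2.1 0 = 0 := x.2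
          have h3 := key R x.1
          rw [h0, mul_zero, zero_add] at h3
          exact h3⟩, x.1.1.1.2.2.2)
        inv := fun {R} _ _ y => ⟨⟨⟨(y.1.1.1.1, y.1.1.1.2, 0, y.2), by
            have h1 : qf q y.1.1.1.1 y.1.1.1.2 0 = 0 := y.1.1.2
            have h2 : F3 c y.1.1.1.1 y.1.1.1.2 0 = 0 := y.1.2
            change y.2 ^ 2 * 0 + y.2 * qf q y.1.1.1.1 y.1.1.1.2 0 + F3 c y.1.1.1.1 y.1.1.1.2 0 = 0
            rw [h1, h2]
            ring⟩, rfl⟩, y.1.1.2⟩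
        inv_hom := fun {R} _ _ x => by
          have h2 : x.1.1.1.2.2.1 = 0 := x.1.2
          exact Subtype.ext (Subtype.ext (Subtype.ext (Prod.ext rfl (Prod.ext rfl
            (Prod.ext h2.symm rfl)))))
        hom_inv := fun _ => rfl
        nat := fun _ _ => rfl }

/-- the part `z = 0` of the double cover -/
theorem mem_CV_cls [IsAlgClosed K] (h2 : (2 : K) ≠ 0) (hG : GOps K G) (q : Fin 6 → K)
    (c : ℕ → ℕ → K) : ((CV (Dc q c)).cls (CVz _)).Mem G := by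
  let w : Coord ((CV (Dc q c)).cls (CVz _)) := ⟨fun x => x.1.1.2.2.2 - qf q x.1.1.1 x.1.1.2.1 0,
    fun f x => by
      rw [map_sub, qf_map, map_zero]
      rfl⟩
  have key : ∀ (R : Type) [CommRing R] [Algebra K R] (x : ((CV (Dc q c)).cls (CVz _)).obj R),
      x.1.1.2.2.2 ^ 2 = qf q x.1.1.1 x.1.1.2.1 0 ^ 2 := by
    intro R _ _ x
    have h1 : x.1.1.2.2.2 ^ 2 - F4 (Dc q c) x.1.1.1 x.1.1.2.1 x.1.1.2.2.1 = 0 := x.1.2
    have h2 : x.1.1.2.2.1 = 0 := x.2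
    rw [F4_Dc, h2] at h1
    linear_combination h1
  have mk : ∀ (R : Type) [CommRing R] [Algebra K R] (x y u : R), u ^ 2 = qf q x y 0 ^ 2 →
      u ^ 2 - F4 (Dc q c) x y 0 = 0 := by
    intro R _ _ x y u h
    rw [F4_Dc, h]
    ring
  refine Mem.glue hG.toKOps w ?_ ?_
  · refine Mem.of_iso (F' := (A2 K).opn (qb q)) ?_ (mem_A2_opn hG (qb q) (qb_hom q))
    have h5 : ∀ (R : Type) [CommRing R] [Algebra K R] (x : (((CV (Dc q c)).cls (CVz _)).opn
        w).obj R), x.1.1.1.2.2.2 = - qf q x.1.1.1.1 x.1.1.1.2.1 0 := by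
      intro R _ _ x
      have h3 := key R x.1
      have h4 : IsUnit (x.1.1.1.2.2.2 - qf q x.1.1.1.1 x.1.1.1.2.1 0) := x.2
      have h6 : (x.1.1.1.2.2.2 - qf q x.1.1.1.1 x.1.1.1.2.1 0) *
          (x.1.1.1.2.2.2 + qf q x.1.1.1.1 x.1.1.1.2.1 0) = 0 := by linear_combination h3
      exact eq_neg_of_add_eq_zero_left (h4.mul_right_eq_zero.1 h6)
    exact
      { hom := fun {R} _ _ x => ⟨(x.1.1.1.1, x.1.1.1.2.1), by
          have h4 : IsUnit (x.1.1.1.2.2.2 - qf q x.1.1.1.1 x.1.1.1.2.1 0) := x.2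
          have h6 : x.1.1.1.2.2.2 - qf q x.1.1.1.1 x.1.1.1.2.1 0 =
              (-2 : R) * qf q x.1.1.1.1 x.1.1.1.2.1 0 := by
            rw [h5 R x]
            ring
          rw [h6] at h4
          exact isUnit_of_mul_isUnit_right h4⟩
        inv := fun {R} _ _ y => ⟨⟨⟨(y.1.1, y.1.2, 0, - qf q y.1.1 y.1.2 0), by
            exact mk R y.1.1 y.1.2 _ (by ring)⟩, rfl⟩, by
            have h3 : IsUnit (qf q y.1.1 y.1.2 0) := y.2
            have h4 : IsUnit (algebraMap K R (-2)) := unit_const (neg_ne_zero.2 h2)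
            have h5 := h4.mul h3
            rw [map_neg, map_ofNat] at h5
            change IsUnit (- qf q y.1.1 y.1.2 0 - qf q y.1.1 y.1.2 0)
            have h6 : - qf q y.1.1 y.1.2 0 - qf q y.1.1 y.1.2 0 = -2 * qf q y.1.1 y.1.2 0 := by
              ring
            rw [h6]
            exact h5⟩
        inv_hom := fun {R} _ _ x => by
          have h2 : x.1.1.1.2.2.1 = 0 := x.1.2
          exact Subtype.ext (Subtype.ext (Subtype.ext (Prod.ext rfl (Prod.ext rfl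
            (Prod.ext h2.symm (h5 R x).symm)))))
        hom_inv := fun _ => rfl
        nat := fun _ _ => rfl }
  · refine Mem.of_iso (F' := A2 K) ?_ (mem_A2 hG)
    exact
      { hom := fun {R} _ _ x => (x.1.1.1.1, x.1.1.1.2.1)
        inv := fun {R} _ _ y => ⟨⟨⟨(y.1, y.2, 0, qf q y.1 y.2 0), by
            exact mk R y.1 y.2 _ rfl⟩, rfl⟩, sub_self _⟩
        inv_hom := fun {R} _ _ x => by
          have h2 : x.1.1.1.2.2.1 = 0 := x.1.2
          have h3 : x.1.1.1.2.2.2 - qf q x.1.1.1.1 x.1.1.1.2.1 0 = 0 := x.2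
          exact Subtype.ext (Subtype.ext (Subtype.ext (Prod.ext rfl (Prod.ext rfl
            (Prod.ext h2.symm (sub_eq_zero.1 h3).symm)))))
        hom_inv := fun _ => rfl
        nat := fun _ _ => rfl }

/-- the part where `z` is invertible -/
noncomputable def isoOpn (h2 : (2 : K) ≠ 0) (q : Fin 6 → K) (c : ℕ → ℕ → K) :
    Iso (((A4 K).cls (nf q c)).opn (nfz q c)) ((CV (Dc q c)).opn (CVz _)) where
  hom {R} _ _ x := ⟨⟨(x.1.1.1, x.1.1.2.1, x.1.1.2.2.1,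
      2 * x.1.1.2.2.2 * x.1.1.2.2.1 + qf q x.1.1.1 x.1.1.2.1 x.1.1.2.2.1), by
    have h1 := nf_eq q c x.1
    change (2 * x.1.1.2.2.2 * x.1.1.2.2.1 + qf q x.1.1.1 x.1.1.2.1 x.1.1.2.2.1) ^ 2 -
      F4 (Dc q c) x.1.1.1 x.1.1.2.1 x.1.1.2.2.1 = 0
    rw [F4_Dc]
    linear_combination 4 * x.1.1.2.2.1 * h1⟩, x.2⟩
  inv {R} _ _ y := ⟨⟨(y.1.1.1, y.1.1.2.1, y.1.1.2.2.1,
      algebraMap K R 2⁻¹ * Ring.inverse y.1.1.2.2.1 *
        (y.1.1.2.2.2 - qf q y.1.1.1 y.1.1.2.1 y.1.1.2.2.1)), by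
    have h1 : y.1.1.2.2.2 ^ 2 - F4 (Dc q c) y.1.1.1 y.1.1.2.1 y.1.1.2.2.1 = 0 := y.1.2
    have h3 : y.1.1.2.2.1 * Ring.inverse y.1.1.2.2.1 = 1 := mul_inv' y.2
    have h4 : algebraMap K R 2⁻¹ * 2 = 1 := by
      rw [← map_ofNat (algebraMap K R) 2, ← map_mul, inv_mul_cancel₀ h2, map_one]
    rw [F4_Dc] at h1
    set z := y.1.1.2.2.1 with hz
    set w := Ring.inverse z with hw
    set u := y.1.1.2.2.2 with hu
    set Q := qf q y.1.1.1 y.1.1.2.1 z with hQ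
    set C := F3 c y.1.1.1 y.1.1.2.1 z with hC
    set t := algebraMap K R 2⁻¹ with ht
    change (t * w * (u - Q)) ^ 2 * z + (t * w * (u - Q)) * Q + C = 0
    have e1 : (t * w * (u - Q)) ^ 2 * z = t ^ 2 * w * (u - Q) ^ 2 := by
      linear_combination (t ^ 2 * w * (u - Q) ^ 2) * h3
    have e2 : t ^ 2 * w * (u - Q) ^ 2 + (t * w * (u - Q)) * Q =
        t ^ 2 * w * (u ^ 2 - Q ^ 2) := by
      linear_combination (-(t * w * (u - Q) * Q)) * h4
    rw [e1, e2]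
    have e3 : u ^ 2 - Q ^ 2 = - 4 * (z * C) := by linear_combination h1
    rw [e3]
    linear_combination (-4 * t ^ 2 * C) * h3 - C * (2 * t + 1) * h4⟩, y.2⟩
  inv_hom {R} _ _ x := by
    have h3 : x.1.1.2.2.1 * Ring.inverse x.1.1.2.2.1 = 1 := mul_inv' x.2
    have h4 : algebraMap K R 2⁻¹ * 2 = 1 := by
      rw [← map_ofNat (algebraMap K R) 2, ← map_mul, inv_mul_cancel₀ h2, map_one]
    refine Subtype.ext (Subtype.ext (Prod.ext rfl (Prod.ext rfl (Prod.ext rfl ?_))))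
    change algebraMap K R 2⁻¹ * Ring.inverse x.1.1.2.2.1 *
      (2 * x.1.1.2.2.2 * x.1.1.2.2.1 + qf q x.1.1.1 x.1.1.2.1 x.1.1.2.2.1 -
        qf q x.1.1.1 x.1.1.2.1 x.1.1.2.2.1) = x.1.1.2.2.2
    linear_combination (algebraMap K R 2⁻¹ * 2 * x.1.1.2.2.2) * h3 + x.1.1.2.2.2 * h4
  hom_inv {R} _ _ y := by
    have h3 : y.1.1.2.2.1 * Ring.inverse y.1.1.2.2.1 = 1 := mul_inv' y.2
    have h4 : algebraMap K R 2⁻¹ * 2 = 1 := by
      rw [← map_ofNat (algebraMap K R) 2, ← map_mul, inv_mul_cancel₀ h2, map_one]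
    refine Subtype.ext (Subtype.ext (Prod.ext rfl (Prod.ext rfl (Prod.ext rfl ?_))))
    change 2 * (algebraMap K R 2⁻¹ * Ring.inverse y.1.1.2.2.1 *
        (y.1.1.2.2.2 - qf q y.1.1.1 y.1.1.2.1 y.1.1.2.2.1)) * y.1.1.2.2.1 +
      qf q y.1.1.1 y.1.1.2.1 y.1.1.2.2.1 = y.1.1.2.2.2
    linear_combination (algebraMap K R 2⁻¹ * 2 *
      (y.1.1.2.2.2 - qf q y.1.1.1 y.1.1.2.1 y.1.1.2.2.1)) * h3 +
      (y.1.1.2.2.2 - qf q y.1.1.1 y.1.1.2.1 y.1.1.2.2.1) * h4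
  nat {R S} _ _ _ _ f x := by
    refine Subtype.ext (Subtype.ext (Prod.ext rfl (Prod.ext rfl (Prod.ext rfl ?_))))
    change f (2 * x.1.1.2.2.2 * x.1.1.2.2.1 + qf q x.1.1.1 x.1.1.2.1 x.1.1.2.2.1) =
      2 * f x.1.1.2.2.2 * f x.1.1.2.2.1 + qf q (f x.1.1.1) (f x.1.1.2.1) (f x.1.1.2.2.1)
    rw [map_add, map_mul, map_mul, map_ofNat, qf_map]

/-- no invariant direction of the branch curve -/
theorem mem_nf_of [IsAlgClosed K] (h2 : (2 : K) ≠ 0) (hG : GOps K G) (q : Fin 6 → K)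
    (c : ℕ → ℕ → K) (h : ∀ v : Fin 3 → K, v ≠ 0 → ¬ Inv (Dc q c) v) :
    ((A4 K).cls (nf q c)).Mem G :=
  Mem.glue hG.toKOps (nfz q c) (Mem.of_iso (isoOpn h2 q c) (mem_opn hG.toKOps _
    (cone_mem h2 hG _ h) (mem_CV_cls h2 hG q c))) (mem_nf_cls hG q c)

end Pool.Agent.Helper49.TP
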