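import Pool.Agent.Helper49.TP.Lin4

/-!
# The normal form of quaternary cubic forms without invariant directions
-/

set_option autoImplicit false

namespace Pool.Agent.Helper49.TP

open Pool.Agent.Helper29.CQ Pool.Agent.Helper65.CC Pool.Agent.Helper87.CC
  Pool.Agent.Helper65.CC.KFn
open Pool.Agent.Helper9.QP (A4 isoA4 mem_A4)
open Pool.Agent.Helper71.QP (lv lv_mul lv_one lv_map exists_mat exists_linQ Qv)

variable {K : Type} [Field K] {G : ∀ (R : Type) [CommRing R] [Algebra K R], Prop}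

/-- the values of a polynomial in four variables -/
noncomputable def ev4 (Ψ : MvPolynomial (Fin 4) K) : Coord (A4 K) where
  val x := MvPolynomial.aeval ![x.1, x.2.1, x.2.2.1, x.2.2.2] Ψ
  nat {R S} _ _ _ _ f x := by
    have h1 : f.comp (MvPolynomial.aeval ![x.1, x.2.1, x.2.2.1, x.2.2.2]) =
        MvPolynomial.aeval ![f x.1, f x.2.1, f x.2.2.1, f x.2.2.2] := by
      apply MvPolynomial.algHom_ext
      intro i
      rw [AlgHom.comp_apply, MvPolynomial.aeval_X, MvPolynomial.aeval_X]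
      fin_cases i <;> rfl
    exact DFunLike.congr_fun h1 Ψ

/-- exponents -/
noncomputable def T4 (i j l m : ℕ) : Fin 4 →₀ ℕ := Finsupp.equivFunOnFinite.symm ![i, j, l, m]

theorem T4_inj {i j l m i' j' l' m' : ℕ} (h : T4 i j l m = T4 i' j' l' m') :
    i = i' ∧ j = j' ∧ m = m' :=
  ⟨DFunLike.congr_fun h 0, DFunLike.congr_fun h 1, DFunLike.congr_fun h 3⟩

open MvPolynomial in
theorem Psi_eq {Ψ : MvPolynomial (Fin 4) K} (h : Ψ.IsHomogeneous 3) :
    Ψ = ∑ m ∈ Finset.range 4, ∑ i ∈ Finset.range (4 - m), ∑ j ∈ Finset.range (4 - m - i),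
      monomial (T4 i j (3 - m - i - j) m) (coeff (T4 i j (3 - m - i - j) m) Ψ) := by
  classical
  ext d
  simp only [coeff_sum, coeff_monomial]
  by_cases h0 : Ψ.coeff d = 0
  · rw [h0]
    symm
    refine Finset.sum_eq_zero fun m _ => Finset.sum_eq_zero fun i _ =>
      Finset.sum_eq_zero fun j _ => ?_
    by_cases h1 : T4 i j (3 - m - i - j) m = d
    · rw [if_pos h1, h1, h0]
    · rw [if_neg h1]
  · have h1 := h h0
    have h3 := DFunLike.congr_fun (Finsupp.degree_eq_weight_one (R := ℕ) (σ := Fin 4)) d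
    have h4 : Finsupp.degree d = d 0 + d 1 + d 2 + d 3 := by
      rw [Finsupp.degree_eq_sum, Fin.sum_univ_four]
    have h5 : d 0 + d 1 + d 2 + d 3 = 3 := (h4.symm.trans h3).trans h1
    have h2 : T4 (d 0) (d 1) (3 - d 3 - d 0 - d 1) (d 3) = d := by
      ext i
      fin_cases i
      · rfl
      · rfl
      · change 3 - d 3 - d 0 - d 1 = d 2
        omega
      · rfl
    rw [Finset.sum_eq_single (d 3), Finset.sum_eq_single (d 0), Finset.sum_eq_single (d 1),
      if_pos h2, h2]
    · intro j _ hj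
      exact if_neg fun h6 => hj (T4_inj (h6.trans h2.symm)).2.1
    · intro h6
      exfalso
      apply h6
      rw [Finset.mem_range]
      omega
    · intro i _ hi
      refine Finset.sum_eq_zero fun j _ => ?_
      exact if_neg fun h6 => hi (T4_inj (h6.trans h2.symm)).1
    · intro h6
      exfalso
      apply h6
      rw [Finset.mem_range]
      omega
    · intro m _ hm
      refine Finset.sum_eq_zero fun i _ => Finset.sum_eq_zero fun j _ => ?_
      exact if_neg fun h6 => hm (T4_inj (h6.trans h2.symm)).2.2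
    · intro h6
      exfalso
      apply h6
      rw [Finset.mem_range]
      omega

theorem ev_T4 (i j l m : ℕ) (c : K) {R : Type} [CommRing R] [Algebra K R] (x y z r : R) :
    MvPolynomial.aeval ![x, y, z, r] (MvPolynomial.monomial (T4 i j l m) c) =
      algebraMap K R c * (x ^ i * y ^ j * z ^ l * r ^ m) := by
  rw [MvPolynomial.aeval_monomial, Finsupp.prod_fintype _ _ (fun i => by simp)]
  simp only [Fin.prod_univ_four]
  rfl

open MvPolynomial in
/-- the expansion in the last variable -/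
theorem exists_exp {Ψ : MvPolynomial (Fin 4) K} (h : Ψ.IsHomogeneous 3) :
    ∃ (a : K) (l : Fin 3 → K) (q : Fin 6 → K) (c : ℕ → ℕ → K),
      ∀ (R : Type) [CommRing R] [Algebra K R] (x y z r : R),
        (ev4 Ψ).val (R := R) (x, y, z, r) = algebraMap K R a * r ^ 3 + r ^ 2 * lf l x y z +
          r * qf q x y z + F3 c x y z := by
  let C' : ℕ → ℕ → ℕ → K := fun m i j => coeff (T4 i j (3 - m - i - j) m) Ψ
  refine ⟨C' 3 0 0, ![C' 2 1 0, C' 2 0 1, C' 2 0 0],
    ![C' 1 2 0, C' 1 1 1, C' 1 0 2, C' 1 1 0, C' 1 0 1, C' 1 0 0], C' 0, ?_⟩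
  intro R _ _ x y z r
  change aeval ![x, y, z, r] Ψ = _
  conv_lhs => rw [Psi_eq h]
  simp only [map_sum, ev_T4]
  change ∑ m ∈ Finset.range 4, ∑ i ∈ Finset.range (4 - m), ∑ j ∈ Finset.range (4 - m - i),
    algebraMap K R (C' m i j) * (x ^ i * y ^ j * z ^ (3 - m - i - j) * r ^ m) = _
  simp only [Finset.sum_range_succ, Finset.sum_range_zero, lf, qf, F3, Matrix.cons_val]
  norm_num [Finset.sum_range_succ]
  ring

/-- linear changes of coordinates -/
noncomputable def sub4 (M : Matrix (Fin 4) (Fin 4) K) (Ψ : MvPolynomial (Fin 4) K) :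
    MvPolynomial (Fin 4) K :=
  MvPolynomial.aeval (fun i => MvPolynomial.C (M i 0) * MvPolynomial.X 0 +
    MvPolynomial.C (M i 1) * MvPolynomial.X 1 + MvPolynomial.C (M i 2) * MvPolynomial.X 2 +
      MvPolynomial.C (M i 3) * MvPolynomial.X 3) Ψ

theorem sub4_hom (M : Matrix (Fin 4) (Fin 4) K) {Ψ : MvPolynomial (Fin 4) K}
    (h : Ψ.IsHomogeneous 3) : (sub4 M Ψ).IsHomogeneous 3 := by
  let L : Fin 4 → MvPolynomial (Fin 4) K := fun i => MvPolynomial.C (M i 0) * MvPolynomial.X 0 +
    MvPolynomial.C (M i 1) * MvPolynomial.X 1 + MvPolynomial.C (M i 2) * MvPolynomial.X 2 +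
      MvPolynomial.C (M i 3) * MvPolynomial.X 3
  have hL : ∀ i, (L i).IsHomogeneous 1 := fun i =>
    ((((MvPolynomial.isHomogeneous_X K 0).C_mul _).add
      ((MvPolynomial.isHomogeneous_X K 1).C_mul _)).add
      ((MvPolynomial.isHomogeneous_X K 2).C_mul _)).add ((MvPolynomial.isHomogeneous_X K 3).C_mul _)
  have h1 := h.aeval L hL
  rw [one_mul] at h1
  exact h1

theorem ev4_sub4 (M : Matrix (Fin 4) (Fin 4) K) (Ψ : MvPolynomial (Fin 4) K) {R : Type}
    [CommRing R] [Algebra K R] (x y z r : R) :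
    (ev4 (sub4 M Ψ)).val (R := R) (x, y, z, r) =
      (ev4 Ψ).val (R := R) (lv4 M (x, y, z, r)) := by
  change MvPolynomial.aeval ![x, y, z, r] (sub4 M Ψ) = MvPolynomial.aeval ![_, _, _, _] Ψ
  rw [sub4, ← AlgHom.comp_apply]
  congr 1
  apply MvPolynomial.algHom_ext
  intro i
  rw [AlgHom.comp_apply, MvPolynomial.aeval_X, MvPolynomial.aeval_X]
  fin_cases i <;> simp [lv4]

/-- some nonzero vector is a zero -/
theorem exists_zero [IsAlgClosed K] {Ψ : MvPolynomial (Fin 4) K} (h : Ψ.IsHomogeneous 3) :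
    ∃ P : Fin 4 → K, P ≠ 0 ∧ (ev4 Ψ).val (R := K) (P 0, P 1, P 2, P 3) = 0 := by
  obtain ⟨a, l, q, c, hx⟩ := exists_exp h
  by_cases ha : a = 0
  · refine ⟨![0, 0, 0, 1], fun h0 => one_ne_zero (congrFun h0 3), ?_⟩
    refine (hx K 0 0 0 1).trans ?_
    simp [lf, qf, F3, ha]
  · obtain ⟨s, hs⟩ := IsAlgClosed.exists_root (Polynomial.C a * Polynomial.X ^ 3 +
      Polynomial.C (l 0) * Polynomial.X ^ 2 + Polynomial.C (q 0) * Polynomial.X +
      Polynomial.C (c 3 0)) (by rw [Polynomial.degree_cubic ha]; exact three_ne_zero)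
    simp only [Polynomial.IsRoot.def, Polynomial.eval_add, Polynomial.eval_mul,
      Polynomial.eval_pow, Polynomial.eval_X, Polynomial.eval_C] at hs
    refine ⟨![1, 0, 0, s], fun h0 => one_ne_zero (congrFun h0 0), ?_⟩
    refine (hx K 1 0 0 s).trans ?_
    simp [lf, qf, F3]
    linear_combination hs

/-- the expansion at a zero -/
theorem exists_exp_at {Ψ : MvPolynomial (Fin 4) K} (h : Ψ.IsHomogeneous 3)
    (M : Matrix (Fin 4) (Fin 4) K)
    (h0 : (ev4 Ψ).val (R := K) (M 0 3, M 1 3, M 2 3, M 3 3) = 0) :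
    ∃ (l : Fin 3 → K) (q : Fin 6 → K) (c : ℕ → ℕ → K),
      ∀ (R : Type) [CommRing R] [Algebra K R] (x y z r : R),
        (ev4 Ψ).val (R := R) (lv4 M (x, y, z, r)) = r ^ 2 * lf l x y z +
          r * qf q x y z + F3 c x y z := by
  obtain ⟨a, l, q, c, hx⟩ := exists_exp (sub4_hom M h)
  have h1 := hx K 0 0 0 1
  rw [ev4_sub4] at h1
  have h2 : lv4 M ((0, 0, 0, 1) : K × K × K × K) = (M 0 3, M 1 3, M 2 3, M 3 3) := by
    simp [lv4]
  rw [h2, h0] at h1
  have ha : a = 0 := by
    simp [lf, qf, F3] at h1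
    exact h1.symm
  refine ⟨l, q, c, fun R _ _ x y z r => ?_⟩
  rw [← ev4_sub4, hx, ha, map_zero, zero_mul, zero_add]

/-- coordinates in which the last basis vector is a smooth zero -/
theorem exists_smooth [IsAlgClosed K] {Ψ : MvPolynomial (Fin 4) K} (h : Ψ.IsHomogeneous 3)
    (hv : ∀ v : Fin 4 → K, v ≠ 0 → ¬ Inv4 (ev4 Ψ) v) :
    ∃ (M N : Matrix (Fin 4) (Fin 4) K) (l : Fin 3 → K) (q : Fin 6 → K) (c : ℕ → ℕ → K),
      M * N = 1 ∧ N * M = 1 ∧ l ≠ 0 ∧
      ∀ (R : Type) [CommRing R] [Algebra K R] (x y z r : R),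
        (ev4 Ψ).val (R := R) (lv4 M (x, y, z, r)) = r ^ 2 * lf l x y z +
          r * qf q x y z + F3 c x y z := by
  obtain ⟨P, hP0, hP⟩ := exists_zero h
  obtain ⟨M, N, h1, h2, hM⟩ := exists_mat4 P hP0
  obtain ⟨l, q, c, hx⟩ := exists_exp_at h M (by rw [hM, hM, hM, hM]; exact hP)
  by_cases hl : l = 0
  swap
  · exact ⟨M, N, l, q, c, h1, h2, hl, hx⟩
  have hlf : ∀ (R : Type) [CommRing R] [Algebra K R] (x y z : R), lf l x y z = 0 := by
    intro R _ _ x y z
    simp [lf, hl]
  by_cases hq : ∀ x y z : K, qf q x y z = 0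
  · exfalso
    have hq0 : q = 0 := by
      have e0 := hq 1 0 0
      have e2 := hq 0 1 0
      have e5 := hq 0 0 1
      have e1 := hq 1 1 0
      have e3 := hq 1 0 1
      have e4 := hq 0 1 1
      simp [qf] at e0 e1 e2 e3 e4 e5
      funext i
      fin_cases i
      · exact e0
      · simpa [e0, e2] using e1
      · exact e2
      · simpa [e0, e5] using e3
      · simpa [e2, e5] using e4
      · exact e5
    refine hv _ (mulVec_ne h2 (v := ![0, 0, 0, 1]) fun h0 => one_ne_zero (congrFun h0 3))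
      (inv4_lin (w := ev4 (sub4 M Ψ)) h1 (fun R _ _ x => (ev4_sub4 M Ψ _ _ _ _).symm) _ ?_)
    intro R _ _ x y z r t
    rw [ev4_sub4, ev4_sub4, hx, hx, hlf, hlf, hq0]
    simp [qf]
  · push Not at hq
    obtain ⟨x₀, y₀, z₀, hq0⟩ := hq
    set s := qf q x₀ y₀ z₀ with hs
    set r₀ : K := - F3 c x₀ y₀ z₀ / s with hr
    have hr1 : r₀ * s + F3 c x₀ y₀ z₀ = 0 := by
      rw [hr]
      field_simp
      ring
    set P' := lv4 M ((x₀, y₀, z₀, r₀) : K × K × K × K) with hP'
    have hne : (![P'.1, P'.2.1, P'.2.2.1, P'.2.2.2] : Fin 4 → K) ≠ 0 := by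
      intro h0
      have k0 : P'.1 = 0 := congrFun h0 0
      have k1 : P'.2.1 = 0 := congrFun h0 1
      have k2 : P'.2.2.1 = 0 := congrFun h0 2
      have k3 : P'.2.2.2 = 0 := congrFun h0 3
      have k4 : P' = (0, 0, 0, 0) := Prod.ext k0 (Prod.ext k1 (Prod.ext k2 k3))
      have k5 : lv4 N P' = (x₀, y₀, z₀, r₀) := lv4_cancel h2 _
      rw [k4] at k5
      have k6 : lv4 N ((0, 0, 0, 0) : K × K × K × K) = (0, 0, 0, 0) := by simp [lv4]
      rw [k6] at k5
      have j0 : 0 = x₀ := congrArg Prod.fst k5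
      have j1 : 0 = y₀ := congrArg (fun w => w.2.1) k5
      have j2 : 0 = z₀ := congrArg (fun w => w.2.2.1) k5
      apply hq0
      rw [hs, ← j0, ← j1, ← j2]
      simp [qf]
    obtain ⟨M', N', h1', h2', hM'⟩ := exists_mat4 _ hne
    have hM3 : ((M' 0 3, M' 1 3, M' 2 3, M' 3 3) : K × K × K × K) = P' := by
      rw [hM', hM', hM', hM']
      rfl
    have hval : (ev4 Ψ).val (R := K) P' = 0 := by
      refine (hx K x₀ y₀ z₀ r₀).trans ?_
      rw [hlf]
      linear_combination hr1
    obtain ⟨l', q', c', hx'⟩ := exists_exp_at h M' (by rw [hM3]; exact hval)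
    refine ⟨M', N', l', q', c', h1', h2', ?_, hx'⟩
    intro hl'
    let D := DualNumber K
    let ε : D := DualNumber.eps
    have hε : ε ^ 2 = 0 := by
      rw [pow_two]
      exact DualNumber.eps_mul_eps
    have hN : lv4 (N' * M) ((x₀, y₀, z₀, r₀) : K × K × K × K) = (0, 0, 0, 1) := by
      have k1 : lv4 M' ((0, 0, 0, 1) : K × K × K × K) = P' := by
        rw [← hM3]
        simp [lv4]
      rw [← lv4_mul, ← hP', ← k1, lv4_cancel h2']
    set n := N' * M with hn
    have hD : lv4 n ((algebraMap K D x₀, algebraMap K D y₀, algebraMap K D z₀,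
        algebraMap K D r₀ + ε) : D × D × D × D) = (algebraMap K D (n 0 3) * ε,
          algebraMap K D (n 1 3) * ε, algebraMap K D (n 2 3) * ε,
          1 + algebraMap K D (n 3 3) * ε) := by
      have e0 := congrArg (fun w => algebraMap K D w.1) hN
      have e1 := congrArg (fun w => algebraMap K D w.2.1) hN
      have e2 := congrArg (fun w => algebraMap K D w.2.2.1) hN
      have e3 := congrArg (fun w => algebraMap K D w.2.2.2) hN
      simp only [lv4, map_add, map_mul, map_zero, map_one, Algebra.algebraMap_self,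
        RingHom.id_apply] at e0 e1 e2 e3
      refine Prod.ext ?_ (Prod.ext ?_ (Prod.ext ?_ ?_))
      · simp only [lv4]
        linear_combination e0
      · simp only [lv4]
        linear_combination e1
      · simp only [lv4]
        linear_combination e2
      · simp only [lv4]
        linear_combination e3
    have hA := hx D (algebraMap K D x₀) (algebraMap K D y₀) (algebraMap K D z₀)
      (algebraMap K D r₀ + ε)
    have hB := hx' D (algebraMap K D (n 0 3) * ε) (algebraMap K D (n 1 3) * ε)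
      (algebraMap K D (n 2 3) * ε) (1 + algebraMap K D (n 3 3) * ε)
    have hAB : lv4 M' (algebraMap K D (n 0 3) * ε, algebraMap K D (n 1 3) * ε,
        algebraMap K D (n 2 3) * ε, 1 + algebraMap K D (n 3 3) * ε) =
        lv4 M ((algebraMap K D x₀, algebraMap K D y₀, algebraMap K D z₀,
          algebraMap K D r₀ + ε) : D × D × D × D) := by
      rw [← hD, lv4_mul, hn, ← Matrix.mul_assoc, h1', Matrix.one_mul]
    rw [hAB, hA] at hB
    have c1 : qf q (algebraMap K D x₀) (algebraMap K D y₀) (algebraMap K D z₀) =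
        algebraMap K D s := by
      rw [hs]
      simp only [qf, map_add, map_mul, map_pow, Algebra.algebraMap_self, RingHom.id_apply]
    have c2 : F3 c (algebraMap K D x₀) (algebraMap K D y₀) (algebraMap K D z₀) =
        algebraMap K D (F3 c x₀ y₀ z₀) := by
      simp only [F3, map_add, map_mul, map_pow, Algebra.algebraMap_self, RingHom.id_apply]
    have c3 : ∀ A B C' : D, qf q' (A * ε) (B * ε) (C' * ε) = 0 := by
      intro A B C'
      have k1 : qf q' (A * ε) (B * ε) (C' * ε) = ε ^ 2 * qf q' A B C' := by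
        simp only [qf]
        ring
      rw [k1, hε, zero_mul]
    have c4 : ∀ A B C' : D, F3 c' (A * ε) (B * ε) (C' * ε) = 0 := by
      intro A B C'
      have k1 : F3 c' (A * ε) (B * ε) (C' * ε) = ε ^ 2 * (ε * F3 c' A B C') := by
        simp only [F3]
        ring
      rw [k1, hε, zero_mul]
    have c5 : ∀ A B C' : D, lf l' A B C' = 0 := by
      intro A B C'
      simp [lf, hl']
    have c6 : algebraMap K D (r₀ * s + F3 c x₀ y₀ z₀) = 0 := by rw [hr1, map_zero]
    rw [hlf, c1, c2, c3, c4, c5] at hB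
    rw [map_add, map_mul] at c6
    have c7 : ε * algebraMap K D s = 0 := by linear_combination hB - c6
    have c8 := congrArg TrivSqZeroExt.snd c7
    apply hq0
    simpa [ε, D, TrivSqZeroExt.algebraMap_eq_inl] using c8

/-- **the normal form** `r ^ 2 z + r q(x, y, z) + c(x, y, z)` -/
theorem exists_normal [IsAlgClosed K] {Ψ : MvPolynomial (Fin 4) K} (h : Ψ.IsHomogeneous 3)
    (hv : ∀ v : Fin 4 → K, v ≠ 0 → ¬ Inv4 (ev4 Ψ) v) :
    ∃ (M N : Matrix (Fin 4) (Fin 4) K) (q : Fin 6 → K) (c : ℕ → ℕ → K),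
      M * N = 1 ∧ N * M = 1 ∧
      ∀ (R : Type) [CommRing R] [Algebra K R] (x y z r : R),
        (ev4 Ψ).val (R := R) (lv4 M (x, y, z, r)) = r ^ 2 * z + r * qf q x y z + F3 c x y z := by
  obtain ⟨M, N, l, q, c, h1, h2, hl, hx⟩ := exists_smooth h hv
  obtain ⟨M₁, N₁, k1, k2, hM₁⟩ := exists_mat l hl
  set A := N₁.transpose with hA
  set B := M₁.transpose with hB
  have hAB : A * B = 1 := by
    rw [hA, hB, ← Matrix.transpose_mul, k1, Matrix.transpose_one]
  have hBA : B * A = 1 := by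
    rw [hA, hB, ← Matrix.transpose_mul, k2, Matrix.transpose_one]
  obtain ⟨q', hq'⟩ := exists_linQ q A
  obtain ⟨c', hc'⟩ := exists_lin3 c A
  refine ⟨M * blk A, blk B * N, q', c', ?_, ?_, ?_⟩
  · rw [Matrix.mul_assoc, ← Matrix.mul_assoc (blk A), blk_mul, hAB, blk_one, Matrix.one_mul, h1]
  · rw [Matrix.mul_assoc, ← Matrix.mul_assoc N, h2, Matrix.one_mul, blk_mul, hBA, blk_one]
  · intro R _ _ x y z r
    rw [← lv4_mul, lv4_blk, hx]
    have e1 : qf q (lv A (x, y, z)).1 (lv A (x, y, z)).2.1 (lv A (x, y, z)).2.2 = qf q' x y z :=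
      hq' R (x, y, z)
    have e2 : F3 c (lv A (x, y, z)).1 (lv A (x, y, z)).2.1 (lv A (x, y, z)).2.2 = F3 c' x y z :=
      hc' R (x, y, z)
    have e3 : lf l (lv A (x, y, z)).1 (lv A (x, y, z)).2.1 (lv A (x, y, z)).2.2 = z := by
      have j : ∀ i, l 0 * A 0 i + l 1 * A 1 i + l 2 * A 2 i = (N₁ * M₁) i 2 := by
        intro i
        rw [Matrix.mul_apply, Fin.sum_univ_three, hM₁, hM₁, hM₁, hA]
        simp only [Matrix.transpose_apply]
        ring
      have j0 := congrArg (algebraMap K R) ((j 0).trans (by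
        rw [k2]
        exact Matrix.one_apply_ne (by decide) : _ = (0 : K)))
      have j1 := congrArg (algebraMap K R) ((j 1).trans (by
        rw [k2]
        exact Matrix.one_apply_ne (by decide) : _ = (0 : K)))
      have j2 := congrArg (algebraMap K R) ((j 2).trans (by
        rw [k2]
        exact Matrix.one_apply_eq 2 : _ = (1 : K)))
      simp only [map_add, map_mul, map_zero, map_one] at j0 j1 j2
      simp only [lf, lv]
      linear_combination x * j0 + y * j1 + z * j2
    rw [e1, e2, e3]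

end Pool.Agent.Helper49.TP
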