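import Pool.Agent.Helper49.TP.Vert
import Pool.Agent.Helper79.TP.Desc
import Pool.Agent.Helper9.TP.Cubic

/-!
# Pencils of cubic curves: the theorem
-/

set_option autoImplicit false

namespace Pool.Agent.Helper49.TP

open Pool.Agent.Helper9.TP (CubicBlocks TriClass)
open Pool.Agent.Helper9.QP (Gen)

theorem cubicBlocks : CubicBlocks where
  cu_mem h2 hG F Q hF hQ e _ h := cu_mem h2 hG F Q hF hQ e h
  cu_inv h2 hG _ _ _ _ hW F Q hF _ hF0 e he v hv h := cu_inv h2 hG hW F Q hF hF0 e he v hv h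
  fib3_ne _ hG _ _ _ _ hW F Q hF hQ hF0 hQ0 e he h := fib3_ne hG hW F Q hF hQ hF0 hQ0 e he h
  fib3_zero hG _ _ _ _ hW F Q hF hQ hF0 hQ0 := fib3_zero hG hW F Q hF hQ hF0 hQ0
  desc S v hv h := Pool.Agent.Helper79.TP.desc S v hv h

variable {p : ℕ} {P : ∀ (A : Type) [CommRing A], Prop} {k : Type} [Field k]

/-- **Cyclic covers of the plane branched along a cubic curve and a conic**:
`g ^ 3 w ^ n = f ^ 2`. -/
theorem cubic_pencils (hp : p.Prime) (hp2 : p ≠ 2) (hP : TriClass p P)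
    [Finite k] [CharP k p] (f g : MvPolynomial (Fin 2) k) (hf : f.totalDegree ≤ 3)
    (hg : g.totalDegree ≤ 2) (n : ℕ) (hn : 0 < n) :
    P (Gen (MvPolynomial (Fin 2) k) n (g ^ 3) (f ^ 2)) :=
  Pool.Agent.Helper9.TP.cubic_pencils cubicBlocks hp hp2 hP f g hf hg n hn

end Pool.Agent.Helper49.TP
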