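import Pool.Agent.Helper49.TP.Three2

/-!
# (W3) Fano trinomials with the weights 1, 3, 1; 2
-/

set_option autoImplicit false

namespace Pool.Agent.Helper49.TP

open Pool.Agent.Helper29.CQ Pool.Agent.Helper65.CC Pool.Agent.Helper87.CC
  Pool.Agent.Helper65.CC.KFn
open Pool.Agent.Helper9.QP (A4 Cst)
open Pool.Agent.Helper9.TP (InvP NoV TS ChgW CstA)
open Pool.Agent.Helper71.CP (ev ev_map ev_mul ev_pow ev_add ev_C ev_X wt NoX ev_aeval CW CWi CWi_c
  Chg al)
open Pool.Agent.Helper79.CP (hom_sub noX_of_ev)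
open Pool.Agent.Helper79.TP (jj e2 e2_map ev_jj wh_jj wh_subst wh_rename weight3 cmp desc inv_sq
  noV_of_noX)
open MvPolynomial (IsWeightedHomogeneous rename C X monomial aeval)

section small

variable {k : Type} [Field k]

theorem eq_C {F : MvPolynomial (Fin 3) k} (hF : IsWeightedHomogeneous ![1, 3, 1] F 0) :
    F = C (F.coeff 0) := by
  classical
  ext m
  rw [MvPolynomial.coeff_C]
  by_cases hm : 0 = m
  · rw [if_pos hm, hm]
  · rw [if_neg hm]
    by_contra h
    have h1 := hF h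
    rw [weight3] at h1
    change m 0 * 1 + m 1 * 3 + m 2 * 1 = 0 at h1
    apply hm
    ext i
    fin_cases i
    · change 0 = m 0
      omega
    · change 0 = m 1
      omega
    · change 0 = m 2
      omega

/-- the evaluation of the decomposed forms -/
theorem ev_dec3 {F : MvPolynomial (Fin 3) k} {a : k} {A B : MvPolynomial (Fin 2) k}
    (h : F = C a * X 1 ^ 2 + rename jj A * X 1 + rename jj B) {R : Type} [CommRing R]
    [Algebra k R] (x y z : R) :
    ev F x y z = algebraMap k R a * y ^ 2 + e2 A x z * y + e2 B x z := by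
  rw [h, ev_add, ev_add, ev_mul, ev_mul, ev_C, ev_pow, ev_X, ev_jj, ev_jj]
  rfl

end small

variable {K : Type} [Field K] {G : ∀ (R : Type) [CommRing R] [Algebra K R], Prop}

/-- the coefficients of the branch form are invariant -/
theorem inv_coeff3 (a b : K) (A₀ B₀ A₁ B₁ : MvPolynomial (Fin 2) K) {v : Fin 3 → K}
    (hv : v 1 = 0) (hi : InvP (H3 a b A₀ B₀ A₁ B₁) v) (R : Type) [CommRing R] [Algebra K R]
    (x z t : R) :
    (e2 A₀ (x + t * algebraMap K R (v 0)) (z + t * algebraMap K R (v 2)) ^ 2 -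
      4 * algebraMap K R a * e2 B₀ (x + t * algebraMap K R (v 0))
        (z + t * algebraMap K R (v 2)) =
      e2 A₀ x z ^ 2 - 4 * algebraMap K R a * e2 B₀ x z) ∧
    (4 * algebraMap K R a * e2 B₁ (x + t * algebraMap K R (v 0))
        (z + t * algebraMap K R (v 2)) -
      2 * e2 A₀ (x + t * algebraMap K R (v 0)) (z + t * algebraMap K R (v 2)) *
        e2 A₁ (x + t * algebraMap K R (v 0)) (z + t * algebraMap K R (v 2)) =
      4 * algebraMap K R a * e2 B₁ x z - 2 * e2 A₀ x z * e2 A₁ x z) ∧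
    (e2 A₁ (x + t * algebraMap K R (v 0)) (z + t * algebraMap K R (v 2)) ^ 2 =
      e2 A₁ x z ^ 2) := by
  let ι : R →ₐ[K] Polynomial R := IsScalarTower.toAlgHom K R (Polynomial R)
  have hal : ∀ y : K, algebraMap K (Polynomial R) y = Polynomial.C (algebraMap K R y) :=
    fun _ => rfl
  have h1 := hi (Polynomial R) (ι x) Polynomial.X (ι z) (ι t)
  rw [hv, map_zero, mul_zero, add_zero] at h1
  have e0 : ι x + ι t * algebraMap K (Polynomial R) (v 0) =
      ι (x + t * algebraMap K R (v 0)) := by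
    rw [map_add, map_mul, AlgHom.commutes]
  have e1 : ι z + ι t * algebraMap K (Polynomial R) (v 2) =
      ι (z + t * algebraMap K R (v 2)) := by
    rw [map_add, map_mul, AlgHom.commutes]
  rw [e0, e1] at h1
  have h3 : ∀ x z : R, ev (H3 a b A₀ B₀ A₁ B₁) (ι x) Polynomial.X (ι z) =
      Polynomial.C (e2 A₀ x z ^ 2 - 4 * algebraMap K R a * e2 B₀ x z) +
      Polynomial.C (4 * algebraMap K R a * e2 B₁ x z - 2 * e2 A₀ x z * e2 A₁ x z) *
        Polynomial.X ^ 1 + Polynomial.C (e2 A₁ x z ^ 2) * Polynomial.X ^ (2 * 1) -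
      Polynomial.C (4 * algebraMap K R a * algebraMap K R b) * Polynomial.X ^ (2 + 1) := by
    intro x z
    have hm : ∀ P : MvPolynomial (Fin 2) K, e2 P (ι x) (ι z) = Polynomial.C (e2 P x z) :=
      fun P => (e2_map P ι x z).symm
    rw [ev_H3]
    simp only [hm, hal, map_sub, map_mul, map_pow]
    have h4 : (Polynomial.C (4 : R) : Polynomial R) = 4 := map_ofNat _ 4
    have h5 : (Polynomial.C (2 : R) : Polynomial R) = 2 := map_ofNat _ 2
    rw [h4, h5]
    ring
  rw [h3, h3] at h1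
  have h6 := cmp (s := 2) (t := 1) (by norm_num) (by norm_num) (by norm_num) h1
  exact ⟨h6.1, h6.2.1, h6.2.2.1⟩

/-- the part `r = 0` of the cone is constant -/
theorem mem_r0 [IsAlgClosed K] (hG : GOps K G) (hW : CstA G) {k : Type} [Field k] [Finite k]
    [Algebra k K] (a₀ : k) (b : K) (A₀ B₀ A₁ B₁ : MvPolynomial (Fin 2) k)
    (hA₀ : A₀.IsHomogeneous 3) (hB₀ : B₀.IsHomogeneous 6) :
    ((CW (H3 (algebraMap k K a₀) b (MvPolynomial.map (algebraMap k K) A₀)
      (MvPolynomial.map (algebraMap k K) B₀) (MvPolynomial.map (algebraMap k K) A₁)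
      (MvPolynomial.map (algebraMap k K) B₁))).cls (CW.c _ (X 1))).Mem G := by
  let E : MvPolynomial (Fin 3) k := X 1 ^ 2 - rename jj (A₀ ^ 2 - C (4 * a₀) * B₀)
  have hE : IsWeightedHomogeneous ![1, 3, 1] E 6 := by
    have h1 : IsWeightedHomogeneous ![1, 3, 1] (X 1 ^ 2 : MvPolynomial (Fin 3) k) 6 := by
      have := (MvPolynomial.isWeightedHomogeneous_X k (![1, 3, 1] : Fin 3 → ℕ) 1).pow 2
      simpa using this
    refine h1.sub (wh_jj3 ?_)
    have h3 := hA₀.pow 2
    exact h3.sub (hB₀.C_mul _)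
  have hEe : ∀ (x y z : k), ev E x y z = y ^ 2 - e2 (A₀ ^ 2 - C (4 * a₀) * B₀) x z := by
    intro x y z
    change ev (X 1 ^ 2 - rename jj (A₀ ^ 2 - C (4 * a₀) * B₀)) x y z = _
    rw [ev_sub3, ev_pow, ev_X, ev_jj]
    rfl
  have hE0 : E ≠ 0 := by
    intro h0
    have h1 := hEe 0 1 0
    have h3 := hEe 0 0 0
    have h4 : ∀ x y z : k, ev E x y z = 0 := by
      intro x y z
      rw [h0]
      exact map_zero _
    rw [h4] at h1 h3
    apply one_ne_zero (α := k)
    linear_combination h3 - h1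
  have hEK : ∀ (R : Type) [CommRing R] [Algebra K R] (x y z : R), ev (up3 K E) x y z =
      y ^ 2 - (e2 (MvPolynomial.map (algebraMap k K) A₀) x z ^ 2 -
        4 * algebraMap K R (algebraMap k K a₀) *
          e2 (MvPolynomial.map (algebraMap k K) B₀) x z) := by
    intro R _ _ x y z
    have h1 : up3 K E = X 1 ^ 2 - rename jj (MvPolynomial.map (algebraMap k K) A₀ ^ 2 -
        C (4 * algebraMap k K a₀) * MvPolynomial.map (algebraMap k K) B₀) := by
      change MvPolynomial.map (algebraMap k K) (X 1 ^ 2 - rename jj (A₀ ^ 2 - C (4 * a₀) * B₀)) = _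
      rw [map_sub, map_pow, MvPolynomial.map_X, MvPolynomial.map_rename, map_sub, map_pow, map_mul,
        MvPolynomial.map_C, map_mul (algebraMap k K), map_ofNat (algebraMap k K)]
    rw [h1, ev_sub3, ev_pow, ev_X, ev_jj]
    change y ^ 2 - _ = _
    congr 1
    unfold e2
    rw [map_sub, map_pow, map_mul, MvPolynomial.aeval_C, map_mul (algebraMap K R),
      map_ofNat (algebraMap K R)]
  refine Mem.of_iso ?_ (mem_Bw hG (hW k) (w := ![1, 3, 1]) (by decide) E hE hE0)
  exact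
    { hom := fun {R} _ _ x => ⟨(x.1.1.1, x.1.1.2.2.2, x.1.1.2.2.1), by
        have h1 : x.1.1.2.2.2 ^ 2 - ev (H3 _ b _ _ _ _) x.1.1.1 x.1.1.2.1 x.1.1.2.2.1 = 0 := x.1.2
        have h3 : ev (X 1) x.1.1.1 x.1.1.2.1 x.1.1.2.2.1 = 0 := x.2
        rw [ev_X] at h3
        have h4 : x.1.1.2.1 = 0 := h3
        rw [ev_H3, h4] at h1
        change ev (up3 K E) x.1.1.1 x.1.1.2.2.2 x.1.1.2.2.1 = 0
        rw [hEK]
        linear_combination h1⟩
      inv := fun {R} _ _ y => ⟨⟨(y.1.1, 0, y.1.2.2, y.1.2.1), by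
        have h1 : ev (up3 K E) y.1.1 y.1.2.1 y.1.2.2 = 0 := y.2
        rw [hEK] at h1
        change y.1.2.1 ^ 2 - ev (H3 _ b _ _ _ _) y.1.1 0 y.1.2.2 = 0
        rw [ev_H3]
        linear_combination h1⟩, by
        change ev (X 1) y.1.1 0 y.1.2.2 = 0
        rw [ev_X]
        rfl⟩
      inv_hom := fun {R} _ _ x => by
        have h3 : ev (X 1) x.1.1.1 x.1.1.2.1 x.1.1.2.2.1 = 0 := x.2
        rw [ev_X] at h3
        have h4 : x.1.1.2.1 = 0 := h3
        exact Subtype.ext (Subtype.ext (Prod.ext rfl (Prod.ext h4.symm rfl)))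
      hom_inv := fun _ => rfl
      nat := fun _ _ => rfl }

/-- **(W3)** the cones over the trinomials with the weights `1, 3, 1; 2` -/
theorem mem_three [IsAlgClosed K] (h2 : (2 : K) ≠ 0) (hG : GOps K G) (hW : CstA G) {k : Type}
    [Field k] [Finite k] [Algebra k K] (F₀ F₁ F₂ : MvPolynomial (Fin 3) k)
    (h₀ : IsWeightedHomogeneous ![1, 3, 1] F₀ 6) (h₁ : IsWeightedHomogeneous ![1, 3, 1] F₁ 4)
    (h₂ : IsWeightedHomogeneous ![1, 3, 1] F₂ 0) (hy : F₀.coeff (Finsupp.single 1 2) ≠ 0)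
    (_n₁ : F₁ ≠ 0) (n₂ : F₂ ≠ 0) (c : K) (hc : c ≠ 0) :
    (TS (MvPolynomial.map (algebraMap k K) F₀) (MvPolynomial.map (algebraMap k K) F₁)
      (MvPolynomial.map (algebraMap k K) F₂) 2 1 c).Mem G ∨
    ∃ τ : ChgW ![1, 3, 1] k, NoV 0 (aeval τ.fwd F₀) ∧ NoV 0 (aeval τ.fwd F₁) ∧
      NoV 0 (aeval τ.fwd F₂) := by
  classical
  have h2k : (2 : k) ≠ 0 := by
    intro h
    apply h2
    rw [← map_ofNat (algebraMap k K) 2, h, map_zero]
  obtain ⟨A₀, B₀, hA₀, -, hB₀, -, e₀⟩ := exists_dec3 (le_refl 6) h₀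
  obtain ⟨A₁, B₁, hA₁, -, hB₁, hc₁, e₁⟩ := exists_dec3 (by omega) h₁
  have hA₀' : A₀.IsHomogeneous 3 := hA₀
  have hA₁' : A₁.IsHomogeneous 1 := hA₁
  set a₀ := F₀.coeff (Finsupp.single 1 2) with ha₀
  rw [hc₁ (by omega), map_zero, zero_mul, zero_add] at e₁
  have e₂ := eq_C h₂
  set b₂ := F₂.coeff 0 with hb₂
  have hb : b₂ ≠ 0 := by
    intro h
    rw [h, map_zero] at e₂
    exact n₂ e₂
  let m : MvPolynomial (Fin 2) k → MvPolynomial (Fin 2) K := MvPolynomial.map (algebraMap k K)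
  have hm : ∀ {P : MvPolynomial (Fin 2) k} {d : ℕ}, P.IsHomogeneous d → (m P).IsHomogeneous d :=
    fun h => h.map _
  have hinj : ∀ {a : k}, a ≠ 0 → algebraMap k K a ≠ 0 := fun ha h =>
    ha ((map_eq_zero_iff _ (algebraMap k K).injective).1 h)
  have hDa : algebraMap k K a₀ ≠ 0 := hinj hy
  set H := H3 (algebraMap k K a₀) (c * algebraMap k K b₂) (m A₀) (m B₀) (m A₁) (m B₁) with hH
  have hHh : IsWeightedHomogeneous wt H 6 := wh_H3 _ _ (hm hA₀') (hm hB₀) (hm hA₁') (hm hB₁)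
  have h4K : (4 : K) ≠ 0 := by
    have : (4 : K) = 2 * 2 := by norm_num
    rw [this]
    exact mul_ne_zero h2 h2
  have hal : al H ≠ 0 := by
    rw [hH, al_H3 _ _ (hm hA₀') (hm hB₀) (hm hA₁') (hm hB₁)]
    exact neg_ne_zero.2 (mul_ne_zero (mul_ne_zero h4K hDa) (mul_ne_zero hc (hinj hb)))
  have red : (CW H).Mem G → (TS (MvPolynomial.map (algebraMap k K) F₀)
      (MvPolynomial.map (algebraMap k K) F₁) (MvPolynomial.map (algebraMap k K) F₂) 2 1 c).Mem G := by
    refine fun h => mem_sq3 h2 hDa (A₀ := m A₀) (B₀ := m B₀) (A₁ := m A₁) (B₁ := m B₁)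
      (b := algebraMap k K b₂) ?_ ?_ ?_ c h
    · conv_lhs => rw [e₀]
      rw [map_add, map_add, map_mul, map_mul, map_pow, MvPolynomial.map_C, MvPolynomial.map_X,
        MvPolynomial.map_rename, MvPolynomial.map_rename]
    · conv_lhs => rw [e₁]
      rw [map_add, map_mul, MvPolynomial.map_X, MvPolynomial.map_rename, MvPolynomial.map_rename]
    · conv_lhs => rw [e₂]
      rw [MvPolynomial.map_C]
  by_cases hτ : ∀ τ : Chg K, ¬ NoX (aeval τ.fwd H)
  · exact Or.inl (red (Pool.Agent.Helper49.CP.cone6_mem h2 hG H hHh (Or.inl ⟨hal, hτ⟩)))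
  push Not at hτ
  obtain ⟨τ, hx⟩ := hτ
  obtain ⟨α, β, γ, δ, hEe⟩ := exists_f2 (τ.hfwd 1)
  have hα := chg_al τ hEe
  by_cases hβγ : β ≠ 0 ∨ γ ≠ 0
  · left
    apply red
    refine Mem.of_iso (CWi H τ) (cone6_tr2 hG (aeval τ.fwd H) (τ.fwd 1) (hom_sub _ τ.hfwd hHh)
      (τ.hfwd 1) hx α β γ δ hα hEe hβγ ?_)
    have h3 : ((CW (aeval τ.fwd H)).cls (CW.c (aeval τ.fwd H) (aeval τ.fwd (X 1)))).Mem G :=
      Mem.of_iso (Pool.Agent.Helper71.QP.clsIso (CWi H τ) (CW.c H (X 1)) _
        (fun x => CWi_c _ _ τ x)).symm (mem_r0 hG hW a₀ _ A₀ B₀ A₁ B₁ hA₀' hB₀)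
    rw [MvPolynomial.aeval_X] at h3
    exact h3
  -- the direction does not move `r`
  push Not at hβγ
  right
  obtain ⟨v, hv, hv1, hi⟩ := chg_dir τ hEe hβγ.1 hβγ.2 hx
  let H₀ : MvPolynomial (Fin 2) k := A₀ ^ 2 - C (4 * a₀) * B₀
  let H₁ : MvPolynomial (Fin 2) k := C (4 * a₀) * B₁ - C 2 * A₀ * A₁
  let S : Set (MvPolynomial (Fin 3) k) := {rename jj H₀, rename jj H₁, rename jj (A₁ ^ 2), X 1}
  have hev : ∀ (P : MvPolynomial (Fin 2) k) (R : Type) [CommRing R] [Algebra K R] (x y z : R),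
      ev (MvPolynomial.map (algebraMap k K) (rename jj P)) x y z = e2 (m P) x z := by
    intro P R _ _ x y z
    rw [MvPolynomial.map_rename, ev_jj]
  have hco := inv_coeff3 _ _ _ _ _ _ hv1 hi
  have hinvS : ∀ F ∈ S, InvP (MvPolynomial.map (algebraMap k K) F) v := by
    intro F hF
    have hm0 : ∀ (R : Type) [CommRing R] [Algebra K R] (x z : R), e2 (m H₀) x z =
        e2 (m A₀) x z ^ 2 - 4 * algebraMap K R (algebraMap k K a₀) * e2 (m B₀) x z := by
      intro R _ _ x z
      change e2 (MvPolynomial.map (algebraMap k K) (A₀ ^ 2 - C (4 * a₀) * B₀)) x z = _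
      unfold e2
      rw [map_sub, map_pow, map_mul, MvPolynomial.map_C, map_sub, map_pow, map_mul,
        MvPolynomial.aeval_C, map_mul (algebraMap k K), map_ofNat (algebraMap k K),
        map_mul (algebraMap K R), map_ofNat (algebraMap K R)]
    have hm1 : ∀ (R : Type) [CommRing R] [Algebra K R] (x z : R), e2 (m H₁) x z =
        4 * algebraMap K R (algebraMap k K a₀) * e2 (m B₁) x z -
          2 * e2 (m A₀) x z * e2 (m A₁) x z := by
      intro R _ _ x z
      change e2 (MvPolynomial.map (algebraMap k K) (C (4 * a₀) * B₁ - C 2 * A₀ * A₁)) x z = _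
      unfold e2
      simp only [map_sub, map_mul, MvPolynomial.map_C, MvPolynomial.aeval_C,
        map_ofNat (algebraMap k K), map_ofNat (algebraMap K R)]
      rfl
    have hF' : F = rename jj H₀ ∨ F = rename jj H₁ ∨ F = rename jj (A₁ ^ 2) ∨ F = X 1 := hF
    rcases hF' with rfl | rfl | rfl | rfl
    · intro R _ _ x y z r
      rw [hev, hev, hm0, hm0]
      exact (hco R x z r).1
    · intro R _ _ x y z r
      rw [hev, hev, hm1, hm1]
      exact (hco R x z r).2.1
    · intro R _ _ x y z r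
      rw [hev, hev]
      have h3 : ∀ x z : R, e2 (m (A₁ ^ 2)) x z = e2 (m A₁) x z ^ 2 := by
        intro x z
        change e2 (MvPolynomial.map (algebraMap k K) (A₁ ^ 2)) x z = _
        unfold e2
        rw [map_pow, map_pow]
      rw [h3, h3]
      exact (hco R x z r).2.2
    · intro R _ _ x y z r
      rw [MvPolynomial.map_X, ev_X, ev_X]
      change y + r * algebraMap K R (v 1) = y
      rw [hv1, map_zero, mul_zero, add_zero]
  obtain ⟨u, hu, hS⟩ := desc S v hv hinvS
  have hu1 : u 1 = 0 := by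
    have h3 := hS (X 1) (by
      change X 1 = _ ∨ X 1 = _ ∨ X 1 = _ ∨ X 1 = X 1
      exact Or.inr (Or.inr (Or.inr rfl))) k 0 0 0 1
    rw [ev_X, ev_X] at h3
    have h4 : (0 : k) + 1 * algebraMap k k (u 1) = 0 := h3
    rw [zero_add, one_mul] at h4
    exact h4
  have k0 : InvP (rename jj H₀) u := hS _ (Or.inl rfl)
  have k1 : InvP (rename jj H₁) u := hS _ (Or.inr (Or.inl rfl))
  have k2 : InvP (rename jj A₁) u := by
    apply inv_sq h2k
    rw [← map_pow]
    exact hS _ (Or.inr (Or.inr (Or.inl rfl)))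
  obtain ⟨m0, m2, hdet⟩ : ∃ m0 m2 : k, u 0 * m2 - m0 * u 2 = 1 := by
    by_cases h0 : u 0 = 0
    · have h3 : u 2 ≠ 0 := by
        intro h3
        apply hu
        funext i
        fin_cases i
        · exact h0
        · exact hu1
        · exact h3
      refine ⟨-(u 2)⁻¹, 0, ?_⟩
      rw [mul_zero, neg_mul, inv_mul_cancel₀ h3]
      ring
    · refine ⟨0, (u 0)⁻¹, ?_⟩
      rw [mul_inv_cancel₀ h0]
      ring
  obtain ⟨τ, hτ⟩ := exists_chg3 (2 * a₀)⁻¹ A₀ hA₀' (u 0) m0 (u 2) m2 hdet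
  have hjv : ∀ {P : MvPolynomial (Fin 2) k}, InvP (rename jj P) u →
      ∀ (R : Type) [CommRing R] [Algebra k R] (x z : R),
      e2 P (algebraMap k R (u 0) * x + algebraMap k R m0 * z)
        (algebraMap k R (u 2) * x + algebraMap k R m2 * z) =
      e2 P (algebraMap k R m0 * z) (algebraMap k R m2 * z) := by
    intro P hP R _ _ x z
    have h3 := hP R (algebraMap k R m0 * z) 0 (algebraMap k R m2 * z) x
    rw [ev_jj, ev_jj] at h3
    rw [← h3]
    congr 1 <;> ring
  have hi2 : ∀ (R : Type) [CommRing R] [Algebra k R], 2 * algebraMap k R a₀ *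
      algebraMap k R (2 * a₀)⁻¹ = 1 := by
    intro R _ _
    rw [← map_ofNat (algebraMap k R) 2, ← map_mul, ← map_mul,
      mul_inv_cancel₀ (mul_ne_zero h2k hy), map_one]
  have h4k : (4 : k) * a₀ ≠ 0 := by
    refine mul_ne_zero ?_ hy
    have : (4 : k) = 2 * 2 := by norm_num
    rw [this]
    exact mul_ne_zero h2k h2k
  have hi4 : ∀ (R : Type) [CommRing R] [Algebra k R], algebraMap k R (4 * a₀)⁻¹ *
      (4 * algebraMap k R a₀) = 1 := by
    intro R _ _
    rw [← map_ofNat (algebraMap k R) 4, ← map_mul, ← map_mul, inv_mul_cancel₀ h4k, map_one]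
  have hH₀ : ∀ (R : Type) [CommRing R] [Algebra k R] (x z : R), e2 H₀ x z =
      e2 A₀ x z ^ 2 - 4 * algebraMap k R a₀ * e2 B₀ x z := by
    intro R _ _ x z
    change e2 (A₀ ^ 2 - C (4 * a₀) * B₀) x z = _
    unfold e2
    rw [map_sub, map_pow, map_mul, MvPolynomial.aeval_C, map_mul (algebraMap k R),
      map_ofNat (algebraMap k R)]
  have hH₁ : ∀ (R : Type) [CommRing R] [Algebra k R] (x z : R), e2 H₁ x z =
      4 * algebraMap k R a₀ * e2 B₁ x z - 2 * e2 A₀ x z * e2 A₁ x z := by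
    intro R _ _ x z
    change e2 (C (4 * a₀) * B₁ - C 2 * A₀ * A₁) x z = _
    unfold e2
    simp only [map_sub, map_mul, MvPolynomial.aeval_C, map_ofNat (algebraMap k R)]
  refine ⟨τ, noV_of_noX (noX_of_ev ?_), noV_of_noX (noX_of_ev ?_), noV_of_noX (noX_of_ev ?_)⟩
  · have h3 : ∀ {R : Type} [CommRing R] [Algebra k R] (x y z : R),
        ev (aeval τ.fwd F₀) x y z = algebraMap k R a₀ * y ^ 2 - algebraMap k R (4 * a₀)⁻¹ *
          e2 H₀ (algebraMap k R m0 * z) (algebraMap k R m2 * z) := by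
      intro R _ _ x y z
      rw [hτ, ev_dec3 e₀, ← hjv k0, hH₀]
      have q2 := hi2 R
      have q4 := hi4 R
      set X' := algebraMap k R (u 0) * x + algebraMap k R m0 * z
      set Z' := algebraMap k R (u 2) * x + algebraMap k R m2 * z
      set a := algebraMap k R a₀
      set i := algebraMap k R (2 * a₀)⁻¹
      set j := algebraMap k R (4 * a₀)⁻¹
      set A := e2 A₀ X' Z'
      set B := e2 B₀ X' Z'
      -- `4 a (lhs - rhs) = 0`
      have key : 4 * a * (a * (y - i * A) ^ 2 + A * (y - i * A) + B -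
          (a * y ^ 2 - j * (A ^ 2 - 4 * a * B))) = 0 := by
        linear_combination ((2 * a * i + 1) * A ^ 2 - 4 * a * y * A - 2 * A ^ 2) * q2 +
          (A ^ 2 - 4 * a * B) * q4
      have key2 : a * (y - i * A) ^ 2 + A * (y - i * A) + B -
          (a * y ^ 2 - j * (A ^ 2 - 4 * a * B)) = 0 := by
        calc a * (y - i * A) ^ 2 + A * (y - i * A) + B -
            (a * y ^ 2 - j * (A ^ 2 - 4 * a * B))
            = j * (4 * a) * (a * (y - i * A) ^ 2 + A * (y - i * A) + B -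
            (a * y ^ 2 - j * (A ^ 2 - 4 * a * B))) := by rw [q4, one_mul]
          _ = j * (4 * a * (a * (y - i * A) ^ 2 + A * (y - i * A) + B -
            (a * y ^ 2 - j * (A ^ 2 - 4 * a * B)))) := by ring
          _ = 0 := by rw [key, mul_zero]
      exact sub_eq_zero.1 key2
    intro R _ _ x y z
    rw [h3, h3]
  · have h3 : ∀ {R : Type} [CommRing R] [Algebra k R] (x y z : R),
        ev (aeval τ.fwd F₁) x y z = e2 A₁ (algebraMap k R m0 * z) (algebraMap k R m2 * z) * y +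
          algebraMap k R (4 * a₀)⁻¹ *
            e2 H₁ (algebraMap k R m0 * z) (algebraMap k R m2 * z) := by
      intro R _ _ x y z
      have ed : ∀ x y z : R, ev F₁ x y z = e2 A₁ x z * y + e2 B₁ x z := by
        intro x y z
        rw [e₁, ev_add, ev_mul, ev_X, ev_jj, ev_jj]
        rfl
      rw [hτ, ed, ← hjv k1, hH₁, ← hjv k2]
      have q2 := hi2 R
      have q4 := hi4 R
      set X' := algebraMap k R (u 0) * x + algebraMap k R m0 * z
      set Z' := algebraMap k R (u 2) * x + algebraMap k R m2 * z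
      set a := algebraMap k R a₀
      set i := algebraMap k R (2 * a₀)⁻¹
      set j := algebraMap k R (4 * a₀)⁻¹
      set A := e2 A₀ X' Z'
      set A' := e2 A₁ X' Z'
      set B := e2 B₁ X' Z'
      have key : 4 * a * (A' * (y - i * A) + B -
          (A' * y + j * (4 * a * B - 2 * A * A'))) = 0 := by
        linear_combination (-(2 * A * A')) * q2 - (4 * a * B - 2 * A * A') * q4
      have key2 : A' * (y - i * A) + B - (A' * y + j * (4 * a * B - 2 * A * A')) = 0 := by
        calc A' * (y - i * A) + B - (A' * y + j * (4 * a * B - 2 * A * A'))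
            = j * (4 * a) * (A' * (y - i * A) + B -
              (A' * y + j * (4 * a * B - 2 * A * A'))) := by rw [q4, one_mul]
          _ = j * (4 * a * (A' * (y - i * A) + B -
              (A' * y + j * (4 * a * B - 2 * A * A')))) := by ring
          _ = 0 := by rw [key, mul_zero]
      exact sub_eq_zero.1 key2
    intro R _ _ x y z
    rw [h3, h3]
  · intro R _ _ x y z
    rw [hτ, hτ, e₂, ev_C, ev_C]

end Pool.Agent.Helper49.TP
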