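import Pool.Agent.Helper49.TP.Tr2
import Pool.Agent.Helper49.CP.Mem
import Pool.Agent.Helper49.TP.ConstW
import Pool.Agent.Helper79.TP.Two1
import Pool.Agent.Helper79.TP.Desc
import Pool.Agent.Helper79.CP.Geo

/-!
# Weighted forms of degree at most six with the weights 1, 3, 1
-/

set_option autoImplicit false

namespace Pool.Agent.Helper49.TP

open Pool.Agent.Helper29.CQ Pool.Agent.Helper65.CC Pool.Agent.Helper87.CC
  Pool.Agent.Helper65.CC.KFn
open Pool.Agent.Helper9.QP (A4 Cst)
open Pool.Agent.Helper9.TP (InvP NoV TS ChgW CstA)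
open Pool.Agent.Helper71.CP (ev ev_map ev_mul ev_pow ev_add ev_C ev_X wt NoX ev_aeval CW al)
open Pool.Agent.Helper79.TP (jj e2 e2_map ev_jj wh_jj wh_subst wh_rename weight3)
open MvPolynomial (IsWeightedHomogeneous rename C X monomial aeval)

section small

variable {k : Type} [Field k]

theorem wh_jj3 {A : MvPolynomial (Fin 2) k} {d : ℕ} (hA : A.IsHomogeneous d) :
    IsWeightedHomogeneous ![1, 3, 1] (rename jj A) d :=
  wh_rename (w := fun _ => 1) hA fun i => by fin_cases i <;> rfl

/-- the decomposition of weighted forms -/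
theorem exists_dec3 {F : MvPolynomial (Fin 3) k} {d : ℕ} (hd : d ≤ 6)
    (hF : IsWeightedHomogeneous ![1, 3, 1] F d) : ∃ A B : MvPolynomial (Fin 2) k,
    A.IsHomogeneous (d - 3) ∧ (d < 3 → A = 0) ∧ B.IsHomogeneous d ∧ (d < 6 → F.coeff (Finsupp.single 1 2) = 0) ∧
    F = C (F.coeff (Finsupp.single 1 2)) * X 1 ^ 2 + rename jj A * X 1 + rename jj B := by
  classical
  refine IsWeightedHomogeneous.induction_on (motive := fun F _ =>
    ∃ A B : MvPolynomial (Fin 2) k, A.IsHomogeneous (d - 3) ∧ (d < 3 → A = 0) ∧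
    B.IsHomogeneous d ∧ (d < 6 → F.coeff (Finsupp.single 1 2) = 0) ∧
    F = C (F.coeff (Finsupp.single 1 2)) * X 1 ^ 2 + rename jj A * X 1 + rename jj B)
    ?_ ?_ ?_ hF
  · exact ⟨0, 0, MvPolynomial.isHomogeneous_zero _ _ _, fun _ => rfl,
      MvPolynomial.isHomogeneous_zero _ _ _, fun _ => MvPolynomial.coeff_zero _, by simp⟩
  · rintro p q - - ⟨A, B, h1, h2, h3, h4, h5⟩ ⟨A', B', h1', h2', h3', h4', h5'⟩
    refine ⟨A + A', B + B', h1.add h1', fun h => by rw [h2 h, h2' h, add_zero], h3.add h3',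
      fun h => by rw [MvPolynomial.coeff_add, h4 h, h4' h, add_zero], ?_⟩
    rw [MvPolynomial.coeff_add, map_add, map_add, map_add]
    conv_lhs => rw [h5, h5']
    ring
  · intro m r hm
    rw [weight3] at hm
    have hm' : m 0 * 1 + m 1 * 3 + m 2 * 1 = d := hm
    have hmon : monomial m r = C r * (X 0 ^ m 0 * X 1 ^ m 1 * X 2 ^ m 2) := by
      rw [MvPolynomial.monomial_eq, Finsupp.prod_fintype _ _ (fun i => pow_zero _),
        Fin.prod_univ_three]
    have hh : ∀ a b : ℕ, (C r * (X 0 ^ a * X 1 ^ b) :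
        MvPolynomial (Fin 2) k).IsHomogeneous (a + b) := fun a b =>
      ((MvPolynomial.isHomogeneous_X_pow 0 a).mul (MvPolynomial.isHomogeneous_X_pow 1 b)).C_mul r
    have hr : ∀ a b : ℕ, rename jj (C r * (X 0 ^ a * X 1 ^ b) : MvPolynomial (Fin 2) k) =
        C r * (X 0 ^ a * X 2 ^ b) := by
      intro a b
      rw [map_mul, map_mul, map_pow, map_pow, MvPolynomial.rename_C, MvPolynomial.rename_X,
        MvPolynomial.rename_X]
      rfl
    have hcases : m 1 = 0 ∨ m 1 = 1 ∨ (m 1 = 2 ∧ m 0 = 0 ∧ m 2 = 0 ∧ d = 6) := by omega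
    rcases hcases with h | h | ⟨h, h0, h2, h4⟩
    · have hne : (monomial m r).coeff (Finsupp.single (1 : Fin 3) 2) = 0 := by
        rw [MvPolynomial.coeff_monomial, if_neg]
        intro he
        have := DFunLike.congr_fun he 1
        rw [h] at this
        simp at this
      refine ⟨0, C r * (X 0 ^ m 0 * X 1 ^ m 2), MvPolynomial.isHomogeneous_zero _ _ _,
        fun _ => rfl, ?_, fun _ => hne, ?_⟩
      · have := hh (m 0) (m 2)
        rwa [show m 0 + m 2 = d by omega] at this
      · rw [hne, hr, hmon, h]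
        simp
    · have hne : (monomial m r).coeff (Finsupp.single (1 : Fin 3) 2) = 0 := by
        rw [MvPolynomial.coeff_monomial, if_neg]
        intro he
        have := DFunLike.congr_fun he 1
        rw [h] at this
        simp at this
      refine ⟨C r * (X 0 ^ m 0 * X 1 ^ m 2), 0, ?_, fun h' => by omega,
        MvPolynomial.isHomogeneous_zero _ _ _, fun _ => hne, ?_⟩
      · have := hh (m 0) (m 2)
        rwa [show m 0 + m 2 = d - 3 by omega] at this
      · rw [hne, hr, hmon, h]
        simp only [map_zero, zero_mul, zero_add, add_zero, pow_one]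
        ring
    · have hm1 : m = Finsupp.single (1 : Fin 3) 2 := by
        ext i
        fin_cases i
        · simpa using h0
        · simpa using h
        · simpa using h2
      refine ⟨0, 0, MvPolynomial.isHomogeneous_zero _ _ _, fun _ => rfl,
        MvPolynomial.isHomogeneous_zero _ _ _, fun h' => by omega, ?_⟩
      rw [hm1, MvPolynomial.coeff_monomial, if_pos rfl, ← hm1, hmon, h, h0, h2]
      simp

theorem hom_lin3 (a b : k) : IsWeightedHomogeneous ![1, 3, 1] (C a * X 0 + C b * X 2 :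
    MvPolynomial (Fin 3) k) 1 :=
  ((MvPolynomial.isWeightedHomogeneous_X k _ 0).C_mul a).add
    ((MvPolynomial.isWeightedHomogeneous_X k _ 2).C_mul b)

/-- the change of coordinates -/
theorem exists_chg3 (a : k) (A₀ : MvPolynomial (Fin 2) k) (hA₀ : A₀.IsHomogeneous 3)
    (u0 m0 u2 m2 : k) (hd : u0 * m2 - m0 * u2 = 1) : ∃ τ : ChgW ![1, 3, 1] k,
    ∀ (F : MvPolynomial (Fin 3) k) (R : Type) [CommRing R] [Algebra k R] (x y z : R),
    ev (aeval τ.fwd F) x y z = ev F (algebraMap k R u0 * x + algebraMap k R m0 * z)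
      (y - algebraMap k R a * e2 A₀ (algebraMap k R u0 * x + algebraMap k R m0 * z)
        (algebraMap k R u2 * x + algebraMap k R m2 * z))
      (algebraMap k R u2 * x + algebraMap k R m2 * z) := by
  let L0 : MvPolynomial (Fin 3) k := C u0 * X 0 + C m0 * X 2
  let L2 : MvPolynomial (Fin 3) k := C u2 * X 0 + C m2 * X 2
  let M0 : MvPolynomial (Fin 3) k := C m2 * X 0 + C (-m0) * X 2
  let M2 : MvPolynomial (Fin 3) k := C (-u2) * X 0 + C u0 * X 2
  let fwd : Fin 3 → MvPolynomial (Fin 3) k := ![L0, X 1 - C a * aeval ![L0, L2] A₀, L2]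
  let bwd : Fin 3 → MvPolynomial (Fin 3) k := ![M0, X 1 + C a * rename jj A₀, M2]
  have f0 : fwd 0 = L0 := rfl
  have f1 : fwd 1 = X 1 - C a * aeval ![L0, L2] A₀ := rfl
  have f2 : fwd 2 = L2 := rfl
  have b0 : bwd 0 = M0 := rfl
  have b1 : bwd 1 = X 1 + C a * rename jj A₀ := rfl
  have b2 : bwd 2 = M2 := rfl
  have hjj : ∀ (t : Fin 3 → MvPolynomial (Fin 3) k), aeval t (rename jj A₀) =
      aeval ![t 0, t 2] A₀ := by
    intro t
    rw [MvPolynomial.aeval_rename]
    congr 2
    funext i
    fin_cases i <;> rfl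
  have hL0 : IsWeightedHomogeneous ![1, 3, 1] L0 1 := hom_lin3 u0 m0
  have hL2 : IsWeightedHomogeneous ![1, 3, 1] L2 1 := hom_lin3 u2 m2
  have hM0 : IsWeightedHomogeneous ![1, 3, 1] M0 1 := hom_lin3 m2 (-m0)
  have hM2 : IsWeightedHomogeneous ![1, 3, 1] M2 1 := hom_lin3 (-u2) u0
  have hX1 : IsWeightedHomogeneous ![1, 3, 1] (X 1 : MvPolynomial (Fin 3) k) 3 :=
    MvPolynomial.isWeightedHomogeneous_X k _ 1
  have hA : IsWeightedHomogeneous ![1, 3, 1] (rename jj A₀) 3 := wh_jj3 hA₀
  have hA' : IsWeightedHomogeneous ![1, 3, 1] (aeval ![L0, L2] A₀) 3 := by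
    have h1 := wh_subst (w' := ![1, 3, 1]) (t := ![L0, X 1, L2]) hA (fun i => by
      fin_cases i
      · exact hL0
      · exact hX1
      · exact hL2)
    rw [hjj] at h1
    exact h1
  have c1 : (C (u0 * m2 - m0 * u2) : MvPolynomial (Fin 3) k) = 1 := by rw [hd, map_one]
  rw [map_sub, map_mul, map_mul] at c1
  have x1 : aeval fwd M0 = X 0 := by
    change aeval fwd (C m2 * X 0 + C (-m0) * X 2) = X 0
    rw [map_add, map_mul, map_mul, MvPolynomial.aeval_X, MvPolynomial.aeval_X, f0, f2,
      MvPolynomial.algHom_C, MvPolynomial.algHom_C, MvPolynomial.algebraMap_eq]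
    change C m2 * (C u0 * X 0 + C m0 * X 2) + C (-m0) * (C u2 * X 0 + C m2 * X 2) = X 0
    rw [map_neg]
    linear_combination X 0 * c1
  have x2 : aeval fwd M2 = X 2 := by
    change aeval fwd (C (-u2) * X 0 + C u0 * X 2) = X 2
    rw [map_add, map_mul, map_mul, MvPolynomial.aeval_X, MvPolynomial.aeval_X, f0, f2,
      MvPolynomial.algHom_C, MvPolynomial.algHom_C, MvPolynomial.algebraMap_eq]
    change C (-u2) * (C u0 * X 0 + C m0 * X 2) + C u0 * (C u2 * X 0 + C m2 * X 2) = X 2
    rw [map_neg]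
    linear_combination X 2 * c1
  have x3 : aeval bwd L0 = X 0 := by
    change aeval bwd (C u0 * X 0 + C m0 * X 2) = X 0
    rw [map_add, map_mul, map_mul, MvPolynomial.aeval_X, MvPolynomial.aeval_X, b0, b2,
      MvPolynomial.algHom_C, MvPolynomial.algHom_C, MvPolynomial.algebraMap_eq]
    change C u0 * (C m2 * X 0 + C (-m0) * X 2) + C m0 * (C (-u2) * X 0 + C u0 * X 2) = X 0
    rw [map_neg, map_neg]
    linear_combination X 0 * c1
  have x4 : aeval bwd L2 = X 2 := by
    change aeval bwd (C u2 * X 0 + C m2 * X 2) = X 2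
    rw [map_add, map_mul, map_mul, MvPolynomial.aeval_X, MvPolynomial.aeval_X, b0, b2,
      MvPolynomial.algHom_C, MvPolynomial.algHom_C, MvPolynomial.algebraMap_eq]
    change C u2 * (C m2 * X 0 + C (-m0) * X 2) + C m2 * (C (-u2) * X 0 + C u0 * X 2) = X 2
    rw [map_neg, map_neg]
    linear_combination X 2 * c1
  have x5 : aeval bwd (aeval ![L0, L2] A₀) = rename jj A₀ := by
    have h1 : (aeval bwd : MvPolynomial (Fin 3) k →ₐ[k] MvPolynomial (Fin 3) k).comp
        (aeval ![L0, L2]) = rename jj := by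
      apply MvPolynomial.algHom_ext
      intro i
      rw [AlgHom.comp_apply, MvPolynomial.aeval_X, MvPolynomial.rename_X]
      fin_cases i
      · exact x3
      · exact x4
    exact DFunLike.congr_fun h1 A₀
  let τ : ChgW ![1, 3, 1] k :=
    { fwd := fwd
      bwd := bwd
      hfwd := fun i => by
        fin_cases i
        · exact hL0
        · exact hX1.sub (hA'.C_mul a)
        · exact hL2
      hbwd := fun i => by
        fin_cases i
        · exact hM0
        · exact hX1.add (hA.C_mul a)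
        · exact hM2
      fwd_bwd := fun i => by
        fin_cases i
        · exact x1
        · change aeval fwd (X 1 + C a * rename jj A₀) = X 1
          rw [map_add, map_mul, MvPolynomial.aeval_X, f1, MvPolynomial.algHom_C,
            MvPolynomial.algebraMap_eq, hjj, f0, f2]
          ring
        · exact x2
      bwd_fwd := fun i => by
        fin_cases i
        · exact x3
        · change aeval bwd (X 1 - C a * aeval ![L0, L2] A₀) = X 1
          rw [map_sub, map_mul, MvPolynomial.aeval_X, b1, MvPolynomial.algHom_C,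
            MvPolynomial.algebraMap_eq, x5]
          ring
        · exact x4 }
  refine ⟨τ, fun F R _ _ x y z => ?_⟩
  rw [ev_aeval]
  have l0 : ev (τ.fwd 0) x y z = algebraMap k R u0 * x + algebraMap k R m0 * z := by
    change ev (C u0 * X 0 + C m0 * X 2) x y z = _
    rw [ev_add, ev_mul, ev_mul, ev_C, ev_C, ev_X, ev_X]
    rfl
  have l2 : ev (τ.fwd 2) x y z = algebraMap k R u2 * x + algebraMap k R m2 * z := by
    change ev (C u2 * X 0 + C m2 * X 2) x y z = _
    rw [ev_add, ev_mul, ev_mul, ev_C, ev_C, ev_X, ev_X]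
    rfl
  have l1 : ev (τ.fwd 1) x y z = y - algebraMap k R a *
      e2 A₀ (algebraMap k R u0 * x + algebraMap k R m0 * z)
        (algebraMap k R u2 * x + algebraMap k R m2 * z) := by
    have h1 : τ.fwd 1 = X 1 + C (-a) * aeval ![L0, L2] A₀ := by
      change X 1 - C a * aeval ![L0, L2] A₀ = _
      rw [map_neg]
      ring
    have h3 : ev (aeval ![L0, L2] A₀) x y z = e2 A₀ (ev L0 x y z) (ev L2 x y z) := by
      have h4 := e2_map A₀ (aeval ![x, y, z] : MvPolynomial (Fin 3) k →ₐ[k] R) L0 L2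
      exact h4
    have h5 : ev L0 x y z = algebraMap k R u0 * x + algebraMap k R m0 * z := l0
    have h6 : ev L2 x y z = algebraMap k R u2 * x + algebraMap k R m2 * z := l2
    rw [h1, ev_add, ev_mul, ev_C, ev_X, h3, h5, h6, map_neg]
    change y + -algebraMap k R a * _ = _
    ring
  rw [l0, l1, l2]

end small

end Pool.Agent.Helper49.TP
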