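import Pool.Agent.Helper49.TP.Three1

/-!
# The cone over the double plane of a trinomial with the weights 1, 3, 1; 2
-/

set_option autoImplicit false

namespace Pool.Agent.Helper49.TP

open Pool.Agent.Helper29.CQ Pool.Agent.Helper65.CC Pool.Agent.Helper87.CC
  Pool.Agent.Helper65.CC.KFn
open Pool.Agent.Helper9.QP (A4 Cst)
open Pool.Agent.Helper9.TP (InvP NoV TS ChgW CstA)
open Pool.Agent.Helper71.CP (ev ev_map ev_mul ev_pow ev_add ev_C ev_X wt NoX ev_aeval CW CWi CWi_c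
  Chg al)
open Pool.Agent.Helper79.CP (ev_monomial weight_eq ev_zero)
open Pool.Agent.Helper79.TP (jj e2 e2_map ev_jj wh_jj wh_subst wh_rename weight3)
open MvPolynomial (IsWeightedHomogeneous rename C X monomial aeval)

variable {K : Type} [Field K] {G : ∀ (R : Type) [CommRing R] [Algebra K R], Prop}

theorem ev_sub3 (F F' : MvPolynomial (Fin 3) K) {R : Type} [CommRing R] [Algebra K R]
    (x y z : R) : ev (F - F') x y z = ev F x y z - ev F' x y z := map_sub _ _ _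

/-! ### Forms of degree one and two -/

theorem exists_f1 {E : MvPolynomial (Fin 3) K} (hE : IsWeightedHomogeneous wt E 1) :
    ∃ p q : K, ∀ (R : Type) [CommRing R] [Algebra K R] (x y z : R),
      ev E x y z = algebraMap K R p * x + algebraMap K R q * z := by
  refine IsWeightedHomogeneous.induction_on (motive := fun E _ => ∃ p q : K,
    ∀ (R : Type) [CommRing R] [Algebra K R] (x y z : R),
      ev E x y z = algebraMap K R p * x + algebraMap K R q * z) ?_ ?_ ?_ hE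
  · refine ⟨0, 0, fun R _ _ x y z => ?_⟩
    rw [ev_zero, map_zero, zero_mul, zero_mul, add_zero]
  · rintro P Q - - ⟨p, q, h⟩ ⟨p', q', h'⟩
    refine ⟨p + p', q + q', fun R _ _ x y z => ?_⟩
    rw [ev_add, h, h', map_add, map_add]
    ring
  · intro d r hd
    rw [weight_eq] at hd
    have h : (d 0 = 1 ∧ d 1 = 0 ∧ d 2 = 0) ∨ (d 0 = 0 ∧ d 1 = 0 ∧ d 2 = 1) := by omega
    rcases h with ⟨h0, h1, h2⟩ | ⟨h0, h1, h2⟩
    · refine ⟨r, 0, fun R _ _ x y z => ?_⟩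
      rw [ev_monomial, h0, h1, h2]
      simp
    · refine ⟨0, r, fun R _ _ x y z => ?_⟩
      rw [ev_monomial, h0, h1, h2]
      simp

theorem exists_f2 {E : MvPolynomial (Fin 3) K} (hE : IsWeightedHomogeneous wt E 2) :
    ∃ α β γ δ : K, ∀ (R : Type) [CommRing R] [Algebra K R] (x y z : R),
      ev E x y z = algebraMap K R α * y + algebraMap K R β * x ^ 2 +
        algebraMap K R γ * (x * z) + algebraMap K R δ * z ^ 2 := by
  refine IsWeightedHomogeneous.induction_on (motive := fun E _ => ∃ α β γ δ : K,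
    ∀ (R : Type) [CommRing R] [Algebra K R] (x y z : R),
      ev E x y z = algebraMap K R α * y + algebraMap K R β * x ^ 2 +
        algebraMap K R γ * (x * z) + algebraMap K R δ * z ^ 2) ?_ ?_ ?_ hE
  · refine ⟨0, 0, 0, 0, fun R _ _ x y z => ?_⟩
    rw [ev_zero, map_zero]
    ring
  · rintro P Q - - ⟨a, b, c, d, h⟩ ⟨a', b', c', d', h'⟩
    refine ⟨a + a', b + b', c + c', d + d', fun R _ _ x y z => ?_⟩
    rw [ev_add, h, h', map_add, map_add, map_add, map_add]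
    ring
  · intro d r hd
    rw [weight_eq] at hd
    have h : (d 0 = 0 ∧ d 1 = 1 ∧ d 2 = 0) ∨ (d 0 = 2 ∧ d 1 = 0 ∧ d 2 = 0) ∨
        (d 0 = 1 ∧ d 1 = 0 ∧ d 2 = 1) ∨ (d 0 = 0 ∧ d 1 = 0 ∧ d 2 = 2) := by omega
    rcases h with ⟨h0, h1, h2⟩ | ⟨h0, h1, h2⟩ | ⟨h0, h1, h2⟩ | ⟨h0, h1, h2⟩
    · refine ⟨r, 0, 0, 0, fun R _ _ x y z => ?_⟩
      rw [ev_monomial, h0, h1, h2]
      simp
    · refine ⟨0, r, 0, 0, fun R _ _ x y z => ?_⟩
      rw [ev_monomial, h0, h1, h2]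
      simp
    · refine ⟨0, 0, r, 0, fun R _ _ x y z => ?_⟩
      rw [ev_monomial, h0, h1, h2]
      simp
    · refine ⟨0, 0, 0, r, fun R _ _ x y z => ?_⟩
      rw [ev_monomial, h0, h1, h2]
      simp

/-! ### The branch form -/

/-- the branch form -/
noncomputable def H3 (a b : K) (A₀ B₀ A₁ B₁ : MvPolynomial (Fin 2) K) : MvPolynomial (Fin 3) K :=
  (rename jj A₀ - X 1 * rename jj A₁) ^ 2 -
    C (4 * a) * (rename jj B₀ - X 1 * rename jj B₁ + C b * X 1 ^ 3)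

theorem ev_H3 (a b : K) (A₀ B₀ A₁ B₁ : MvPolynomial (Fin 2) K) {R : Type} [CommRing R]
    [Algebra K R] (x r z : R) : ev (H3 a b A₀ B₀ A₁ B₁) x r z =
      (e2 A₀ x z - r * e2 A₁ x z) ^ 2 - 4 * algebraMap K R a *
        (e2 B₀ x z - r * e2 B₁ x z + algebraMap K R b * r ^ 3) := by
  rw [H3, ev_sub3, ev_pow, ev_sub3, ev_mul, ev_mul, ev_C, ev_add, ev_sub3, ev_mul, ev_mul, ev_C,
    ev_pow, ev_X, ev_jj, ev_jj, ev_jj, ev_jj, map_mul, map_ofNat]
  rfl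

theorem wh_H3 (a b : K) {A₀ B₀ A₁ B₁ : MvPolynomial (Fin 2) K} (hA₀ : A₀.IsHomogeneous 3)
    (hB₀ : B₀.IsHomogeneous 6) (hA₁ : A₁.IsHomogeneous 1) (hB₁ : B₁.IsHomogeneous 4) :
    IsWeightedHomogeneous wt (H3 a b A₀ B₀ A₁ B₁) 6 := by
  have hX : IsWeightedHomogeneous wt (X 1 : MvPolynomial (Fin 3) K) 2 :=
    MvPolynomial.isWeightedHomogeneous_X K wt 1
  refine IsWeightedHomogeneous.sub ?_ (IsWeightedHomogeneous.C_mul ?_ _)
  · have h1 := ((wh_jj hA₀).sub (hX.mul (wh_jj hA₁))).pow 2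
    exact h1
  · have h1 := (hX.pow 3).C_mul b
    exact ((wh_jj hB₀).sub (hX.mul (wh_jj hB₁))).add h1

theorem e2_zero {A : MvPolynomial (Fin 2) K} {d : ℕ} (hA : A.IsHomogeneous d) (hd : d ≠ 0) :
    e2 A (0 : K) 0 = 0 := by
  have h0 : (![0, 0] : Fin 2 → K) = 0 := by
    funext i
    fin_cases i <;> rfl
  unfold e2
  rw [h0, MvPolynomial.aeval_zero, MvPolynomial.constantCoeff_eq]
  have h1 : A.coeff 0 = 0 := by
    apply hA.coeff_eq_zero
    rw [map_zero]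
    exact Ne.symm hd
  rw [h1, map_zero]

theorem al_H3 (a b : K) {A₀ B₀ A₁ B₁ : MvPolynomial (Fin 2) K} (hA₀ : A₀.IsHomogeneous 3)
    (hB₀ : B₀.IsHomogeneous 6) (hA₁ : A₁.IsHomogeneous 1) (hB₁ : B₁.IsHomogeneous 4) :
    al (H3 a b A₀ B₀ A₁ B₁) = -(4 * a * b) := by
  have h1 := Pool.Agent.Helper49.CP.ev_z0 (wh_H3 a b hA₀ hB₀ hA₁ hB₁) (0 : K) 1
  rw [ev_H3, e2_zero hA₀ (by norm_num), e2_zero hB₀ (by norm_num), e2_zero hA₁ (by norm_num),
    e2_zero hB₁ (by norm_num)] at h1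
  simp only [Algebra.algebraMap_self, RingHom.id_apply] at h1
  linear_combination -h1

/-- the double plane -/
noncomputable def T3 (a : K) (P Q : MvPolynomial (Fin 3) K) : KFn K :=
  (A4 K).cls ⟨fun {R} _ _ x => algebraMap K R a * x.2.1 ^ 2 +
    ev P x.1 x.2.2.2 x.2.2.1 * x.2.1 + ev Q x.1 x.2.2.2 x.2.2.1, fun f x => by
    rw [map_add, map_add, map_mul, map_mul, map_pow, ev_map, ev_map, AlgHom.commutes]
    rfl⟩

theorem ev_disc3 (a : K) (P Q : MvPolynomial (Fin 3) K) {R : Type} [CommRing R] [Algebra K R]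
    (x r z : R) : ev (P ^ 2 - C (4 * a) * Q) x r z =
      ev P x r z ^ 2 - 4 * algebraMap K R a * ev Q x r z := by
  rw [ev_sub3, ev_pow, ev_mul, ev_C, map_mul, map_ofNat]

/-- completing the square -/
noncomputable def isoT3 (h2 : (2 : K) ≠ 0) {a : K} (ha : a ≠ 0) (P Q : MvPolynomial (Fin 3) K) :
    Iso (T3 a P Q) (CW (P ^ 2 - C (4 * a) * Q)) where
  hom {R} _ _ x := ⟨(x.1.1, x.1.2.2.2, x.1.2.2.1,
      2 * algebraMap K R a * x.1.2.1 + ev P x.1.1 x.1.2.2.2 x.1.2.2.1), by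
    have h : algebraMap K R a * x.1.2.1 ^ 2 + ev P x.1.1 x.1.2.2.2 x.1.2.2.1 * x.1.2.1 +
      ev Q x.1.1 x.1.2.2.2 x.1.2.2.1 = 0 := x.2
    change (2 * algebraMap K R a * x.1.2.1 + ev P x.1.1 x.1.2.2.2 x.1.2.2.1) ^ 2 -
      ev (P ^ 2 - C (4 * a) * Q) x.1.1 x.1.2.2.2 x.1.2.2.1 = 0
    rw [ev_disc3]
    linear_combination 4 * algebraMap K R a * h⟩
  inv {R} _ _ y := ⟨(y.1.1, algebraMap K R (2 * a)⁻¹ *
      (y.1.2.2.2 - ev P y.1.1 y.1.2.1 y.1.2.2.1), y.1.2.2.1, y.1.2.1), by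
    have h : y.1.2.2.2 ^ 2 - (ev P y.1.1 y.1.2.1 y.1.2.2.1 ^ 2 -
        4 * algebraMap K R a * ev Q y.1.1 y.1.2.1 y.1.2.2.1) = 0 :=
      (congrArg (fun v => y.1.2.2.2 ^ 2 - v)
        (ev_disc3 a P Q y.1.1 y.1.2.1 y.1.2.2.1)).symm.trans y.2
    have h3 : algebraMap K R (2 * a) * algebraMap K R (2 * a)⁻¹ = 1 := by
      rw [← map_mul, mul_inv_cancel₀ (mul_ne_zero h2 ha), map_one]
    rw [map_mul, map_ofNat] at h3
    have h5 : algebraMap K R (4 * a)⁻¹ * (4 * algebraMap K R a) = 1 := by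
      have h6 : (4 : K) * a ≠ 0 := by
        refine mul_ne_zero ?_ ha
        have : (4 : K) = 2 * 2 := by norm_num
        rw [this]
        exact mul_ne_zero h2 h2
      rw [← map_ofNat (algebraMap K R) 4, ← map_mul, ← map_mul, inv_mul_cancel₀ h6, map_one]
    change algebraMap K R a * (algebraMap K R (2 * a)⁻¹ *
      (y.1.2.2.2 - ev P y.1.1 y.1.2.1 y.1.2.2.1)) ^ 2 + ev P y.1.1 y.1.2.1 y.1.2.2.1 *
      (algebraMap K R (2 * a)⁻¹ * (y.1.2.2.2 - ev P y.1.1 y.1.2.1 y.1.2.2.1)) +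
      ev Q y.1.1 y.1.2.1 y.1.2.2.1 = 0
    set i := algebraMap K R (2 * a)⁻¹
    set j := algebraMap K R (4 * a)⁻¹
    set a' := algebraMap K R a
    set Y := y.1.2.2.2
    set A := ev P y.1.1 y.1.2.1 y.1.2.2.1
    set B := ev Q y.1.1 y.1.2.1 y.1.2.2.1
    have key : 4 * a' * (a' * (i * (Y - A)) ^ 2 + A * (i * (Y - A)) + B) = 0 := by
      linear_combination h + ((Y - A) ^ 2 * (2 * a' * i + 1) + 2 * A * (Y - A)) * h3
    calc a' * (i * (Y - A)) ^ 2 + A * (i * (Y - A)) + B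
        = j * (4 * a') * (a' * (i * (Y - A)) ^ 2 + A * (i * (Y - A)) + B) := by rw [h5, one_mul]
      _ = j * (4 * a' * (a' * (i * (Y - A)) ^ 2 + A * (i * (Y - A)) + B)) := by ring
      _ = 0 := by rw [key, mul_zero]⟩
  inv_hom {R} _ _ x := by
    have h3 : algebraMap K R (2 * a) * algebraMap K R (2 * a)⁻¹ = 1 := by
      rw [← map_mul, mul_inv_cancel₀ (mul_ne_zero h2 ha), map_one]
    rw [map_mul, map_ofNat] at h3
    refine Subtype.ext (Prod.ext rfl (Prod.ext ?_ rfl))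
    change algebraMap K R (2 * a)⁻¹ * (2 * algebraMap K R a * x.1.2.1 +
      ev P x.1.1 x.1.2.2.2 x.1.2.2.1 - ev P x.1.1 x.1.2.2.2 x.1.2.2.1) = x.1.2.1
    linear_combination x.1.2.1 * h3
  hom_inv {R} _ _ y := by
    have h3 : algebraMap K R (2 * a) * algebraMap K R (2 * a)⁻¹ = 1 := by
      rw [← map_mul, mul_inv_cancel₀ (mul_ne_zero h2 ha), map_one]
    rw [map_mul, map_ofNat] at h3
    refine Subtype.ext (Prod.ext rfl (Prod.ext rfl (Prod.ext rfl ?_)))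
    change 2 * algebraMap K R a * (algebraMap K R (2 * a)⁻¹ *
      (y.1.2.2.2 - ev P y.1.1 y.1.2.1 y.1.2.2.1)) + ev P y.1.1 y.1.2.1 y.1.2.2.1 = y.1.2.2.2
    linear_combination (y.1.2.2.2 - ev P y.1.1 y.1.2.1 y.1.2.2.1) * h3
  nat {R S} _ _ _ _ f x := by
    refine Subtype.ext (Prod.ext rfl (Prod.ext rfl (Prod.ext rfl ?_)))
    change f (2 * algebraMap K R a * x.1.2.1 + ev P x.1.1 x.1.2.2.2 x.1.2.2.1) =
      2 * algebraMap K S a * f x.1.2.1 + ev P (f x.1.1) (f x.1.2.2.2) (f x.1.2.2.1)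
    rw [map_add, map_mul, map_mul, map_ofNat, AlgHom.commutes, ev_map]

/-- the cone over the trinomial is the cone over the double plane -/
theorem mem_sq3 (h2 : (2 : K) ≠ 0) {F₀ F₁ F₂ : MvPolynomial (Fin 3) K} {a b : K}
    (ha : a ≠ 0) {A₀ B₀ A₁ B₁ : MvPolynomial (Fin 2) K}
    (e₀ : F₀ = C a * X 1 ^ 2 + rename jj A₀ * X 1 + rename jj B₀)
    (e₁ : F₁ = rename jj A₁ * X 1 + rename jj B₁)
    (e₂ : F₂ = C b) (c : K)
    (h : (CW (H3 a (c * b) A₀ B₀ A₁ B₁)).Mem G) : (TS F₀ F₁ F₂ 2 1 c).Mem G := by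
  let P : MvPolynomial (Fin 3) K := rename jj A₀ - X 1 * rename jj A₁
  let Q : MvPolynomial (Fin 3) K := rename jj B₀ - X 1 * rename jj B₁ + C (c * b) * X 1 ^ 3
  have hP : ∀ (R : Type) [CommRing R] [Algebra K R] (x r z : R), ev P x r z =
      e2 A₀ x z - r * e2 A₁ x z := by
    intro R _ _ x r z
    change ev (_ - _) _ _ _ = _
    rw [ev_sub3, ev_mul, ev_jj, ev_jj, ev_X]
    rfl
  have hQ : ∀ (R : Type) [CommRing R] [Algebra K R] (x r z : R), ev Q x r z =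
      e2 B₀ x z - r * e2 B₁ x z + algebraMap K R c * algebraMap K R b * r ^ 3 := by
    intro R _ _ x r z
    change ev (_ - _ + _) _ _ _ = _
    rw [ev_add, ev_sub3, ev_mul, ev_mul, ev_C, ev_jj, ev_jj, ev_pow, ev_X, map_mul]
    rfl
  have hT : ∀ (R : Type) [CommRing R] [Algebra K R] (x y z r : R),
      ev F₀ x y z - r ^ 1 * ev F₁ x y z + algebraMap K R c * r ^ (2 + 1) * ev F₂ x y z =
      algebraMap K R a * y ^ 2 + ev P x r z * y + ev Q x r z := by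
    intro R _ _ x y z r
    rw [e₀, e₁, e₂, hP, hQ]
    simp only [ev_add, ev_mul, ev_C, ev_pow, ev_jj, ev_X]
    change algebraMap K R a * y ^ 2 + e2 A₀ x z * y + e2 B₀ x z -
      r ^ 1 * (e2 A₁ x z * y + e2 B₁ x z) +
      algebraMap K R c * r ^ (2 + 1) * algebraMap K R b = _
    ring
  refine Mem.of_iso (F' := T3 a P Q) ?_ (Mem.of_iso (isoT3 h2 ha P Q) h)
  exact
    { hom := fun {R} _ _ x => ⟨x.1, (hT R x.1.1 x.1.2.1 x.1.2.2.1 x.1.2.2.2).symm.trans x.2⟩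
      inv := fun {R} _ _ x => ⟨x.1, (hT R x.1.1 x.1.2.1 x.1.2.2.1 x.1.2.2.2).trans x.2⟩
      inv_hom := fun _ => rfl
      hom_inv := fun _ => rfl
      nat := fun _ _ => rfl }

/-! ### The direction -/

section dir

variable (τ : Chg K)

theorem chg_al {α β γ δ : K} (h : ∀ (R : Type) [CommRing R] [Algebra K R] (x y z : R),
    ev (τ.fwd 1) x y z = algebraMap K R α * y + algebraMap K R β * x ^ 2 +
      algebraMap K R γ * (x * z) + algebraMap K R δ * z ^ 2) : α ≠ 0 := by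
  obtain ⟨p, q, h0⟩ := exists_f1 (τ.hbwd 0)
  obtain ⟨p', q', h2⟩ := exists_f1 (τ.hbwd 2)
  intro h3
  have h4 : ev (aeval τ.bwd (τ.fwd 1)) (0 : K) 1 0 = 1 := by
    rw [τ.bwd_fwd, ev_X]
    rfl
  rw [ev_aeval, h, h0, h2, h3] at h4
  simp at h4

theorem chg_dir {α β γ δ : K} (h : ∀ (R : Type) [CommRing R] [Algebra K R] (x y z : R),
    ev (τ.fwd 1) x y z = algebraMap K R α * y + algebraMap K R β * x ^ 2 +
      algebraMap K R γ * (x * z) + algebraMap K R δ * z ^ 2) (hβ : β = 0) (hγ : γ = 0)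
    {H : MvPolynomial (Fin 3) K} (hx : NoX (aeval τ.fwd H)) :
    ∃ v : Fin 3 → K, v ≠ 0 ∧ v 1 = 0 ∧ InvP H v := by
  obtain ⟨p, q, h0⟩ := exists_f1 (τ.hfwd 0)
  obtain ⟨p', q', h2⟩ := exists_f1 (τ.hfwd 2)
  refine ⟨![p, 0, p'], ?_, rfl, ?_⟩
  · intro hv
    have hp : p = 0 := congrFun hv 0
    have hp' : p' = 0 := congrFun hv 2
    have h4 : ev (aeval τ.fwd (τ.bwd 0)) (1 : K) 0 0 = 1 := by
      rw [τ.fwd_bwd, ev_X]
      rfl
    have h5 : ev (aeval τ.fwd (τ.bwd 0)) (0 : K) 0 0 = 0 := by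
      rw [τ.fwd_bwd, ev_X]
      rfl
    rw [ev_aeval, h, h0, h2, hβ, hp, hp'] at h4
    rw [ev_aeval, h, h0, h2, hβ, hp, hp'] at h5
    simp only [map_zero, zero_mul, mul_zero, add_zero, zero_pow two_ne_zero] at h4 h5
    rw [h4] at h5
    exact one_ne_zero h5
  · intro R _ _ X r Z t
    have e0 : ev (τ.fwd 0) (ev (τ.bwd 0) X r Z) (ev (τ.bwd 1) X r Z) (ev (τ.bwd 2) X r Z) = X := by
      rw [← ev_aeval, τ.bwd_fwd, ev_X]
      rfl
    have e1 : ev (τ.fwd 1) (ev (τ.bwd 0) X r Z) (ev (τ.bwd 1) X r Z) (ev (τ.bwd 2) X r Z) = r := by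
      rw [← ev_aeval, τ.bwd_fwd, ev_X]
      rfl
    have e2' : ev (τ.fwd 2) (ev (τ.bwd 0) X r Z) (ev (τ.bwd 1) X r Z) (ev (τ.bwd 2) X r Z) =
        Z := by
      rw [← ev_aeval, τ.bwd_fwd, ev_X]
      rfl
    set x := ev (τ.bwd 0) X r Z
    set y := ev (τ.bwd 1) X r Z
    set z := ev (τ.bwd 2) X r Z
    have k0 : ev (τ.fwd 0) (x + t) y z = X + t * algebraMap K R p := by
      rw [← e0, h0, h0]
      ring
    have k1 : ev (τ.fwd 1) (x + t) y z = r + t * algebraMap K R 0 := by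
      rw [← e1, h, h, hβ, hγ, map_zero]
      ring
    have k2 : ev (τ.fwd 2) (x + t) y z = Z + t * algebraMap K R p' := by
      rw [← e2', h2, h2]
      ring
    have h6 := hx.ev (x + t) y z
    have h7 := hx.ev x y z
    rw [← h7, ev_aeval, ev_aeval, k0, k1, k2, e0, e1, e2'] at h6
    exact h6

end dir

end Pool.Agent.Helper49.TP
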