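import Pool.Agent.Helper79.CP.Tr

/-!
# Cones over sextics in the weighted plane: transfer from a curve of degree two
-/

set_option autoImplicit false

namespace Pool.Agent.Helper49.TP

open Pool.Agent.Helper29.CQ Pool.Agent.Helper65.CC Pool.Agent.Helper87.CC
  Pool.Agent.Helper65.CC.KFn
open Pool.Agent.Helper71.CP
open Pool.Agent.Helper79.CP
open Polynomial
open MvPolynomial (IsWeightedHomogeneous)

variable {K : Type} [Field K] {G : ∀ (R : Type) [CommRing R] [Algebra K R], Prop}

/-- the part `z = 0` of a cone without `x` -/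
theorem mem_CWz [IsAlgClosed K] (hG : GOps K G) {F : MvPolynomial (Fin 3) K}
    (hF : IsWeightedHomogeneous wt F 6) (hFx : NoX F) :
    ((CW F).cls (CW.c F (MvPolynomial.X 2))).Mem G := by
  refine Mem.of_iso ?_ (Mem.line hG.toKOps (mem_EXz hG hF))
  exact
    { hom := fun {R} _ _ x => (⟨⟨(x.1.1.2.1, x.1.1.2.2.1, x.1.1.2.2.2), by
          have h1 : x.1.1.2.2.2 ^ 2 - ev F x.1.1.1 x.1.1.2.1 x.1.1.2.2.1 = 0 := x.1.2
          rw [hFx.ev] at h1
          exact h1⟩, by
          have h1 : ev (MvPolynomial.X 2) x.1.1.1 x.1.1.2.1 x.1.1.2.2.1 = 0 := x.2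
          rw [ev_X] at h1
          exact h1⟩, x.1.1.1)
      inv := fun {R} _ _ y => ⟨⟨(y.2, y.1.1.1.1, y.1.1.1.2.1, y.1.1.1.2.2), by
          change y.1.1.1.2.2 ^ 2 - ev F y.2 y.1.1.1.1 y.1.1.1.2.1 = 0
          rw [hFx.ev]
          exact y.1.1.2⟩, by
          change ev (MvPolynomial.X 2) y.2 y.1.1.1.1 y.1.1.1.2.1 = 0
          rw [ev_X]
          exact y.1.2⟩
      inv_hom := fun _ => rfl
      hom_inv := fun _ => rfl
      nat := fun _ _ => rfl }

/-- transfer from a curve of degree two, the sextic form does not depend on `x` -/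
theorem cone6_tr2 [IsAlgClosed K] (hG : GOps K G) (F E : MvPolynomial (Fin 3) K)
    (hF : IsWeightedHomogeneous wt F 6) (hE : IsWeightedHomogeneous wt E 2) (hFx : NoX F)
    (α β γ δ : K) (hα : α ≠ 0) (hEe : ∀ (R : Type) [CommRing R] [Algebra K R] (x y z : R),
      ev E x y z = algebraMap K R α * y + algebraMap K R β * x ^ 2 +
        algebraMap K R γ * (x * z) + algebraMap K R δ * z ^ 2) (hEx : β ≠ 0 ∨ γ ≠ 0)
    (hD : ((CW F).cls (CW.c F E)).Mem G) : (CW F).Mem G := by
  have hz : ∀ (R : Type) [CommRing R] [Algebra K R] (x y z : R),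
      ev (E * MvPolynomial.X 2) x y z = ev E x y z * z := by
    intro R _ _ x y z
    rw [ev_mul, ev_X]
    rfl
  have hα' : ∀ (R : Type) [CommRing R] [Algebra K R],
      algebraMap K R α⁻¹ * algebraMap K R α = 1 := fun R _ _ => by
    rw [← map_mul, inv_mul_cancel₀ hα, map_one]
  refine cone6_trx hG F (E * MvPolynomial.X 2) hF ?_ hFx ?_ ?_
  · exact hE.mul (MvPolynomial.isWeightedHomogeneous_X K wt 2)
  · intro h
    have h1 := h.ev (R := K[X]) X 0 1
    rw [hz, hz, hEe, hEe] at h1
    have h2 := congrArg (fun p : K[X] => p.coeff 2) h1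
    have h3 := congrArg (fun p : K[X] => p.coeff 1) h1
    simp [coeff_X, coeff_C, Polynomial.algebraMap_eq] at h2 h3
    rcases hEx with h4 | h4
    · exact h4 h2
    · exact h4 h3
  · refine Mem.glue hG.toKOps (resC _ (CW.c F (MvPolynomial.X 2))) ?_ ?_
    · refine Mem.of_iso (F' := ((CW F).cls (CW.c F E)).opn (resC _ (CW.c F (MvPolynomial.X 2))))
        ?_ (mem_opn hG.toKOps _ hD ?_)
      · exact
          { hom := fun {R} _ _ x => ⟨⟨x.1.1, by
                have h1 : ev (E * MvPolynomial.X 2) x.1.1.1.1 x.1.1.1.2.1 x.1.1.1.2.2.1 = 0 :=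
                  x.1.2
                have h2 : IsUnit (ev (MvPolynomial.X 2) x.1.1.1.1 x.1.1.1.2.1 x.1.1.1.2.2.1) := x.2
                rw [ev_mul] at h1
                exact h2.mul_left_eq_zero.1 h1⟩, x.2⟩
            inv := fun {R} _ _ x => ⟨⟨x.1.1, by
                have h1 : ev E x.1.1.1.1 x.1.1.1.2.1 x.1.1.1.2.2.1 = 0 := x.1.2
                change ev (E * MvPolynomial.X 2) x.1.1.1.1 x.1.1.1.2.1 x.1.1.1.2.2.1 = 0
                rw [ev_mul, h1, zero_mul]⟩, x.2⟩
            inv_hom := fun _ => rfl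
            hom_inv := fun _ => rfl
            nat := fun _ _ => rfl }
      · -- `z = 0`, `α y + β x ^ 2 = 0`
        obtain ⟨a, ha⟩ := exists_f6 hF
        refine Mem.of_iso ?_ (mem_six hG (a * (-(α⁻¹ * β)) ^ 3))
        have ev1 : ∀ (R : Type) [CommRing R] [Algebra K R] (x : R),
            aeval x (C (a * (-(α⁻¹ * β)) ^ 3) * X ^ 6 : K[X]) =
            ev F 0 (-(algebraMap K R α⁻¹ * (algebraMap K R β * x ^ 2))) 0 := by
          intro R _ _ x
          rw [ha]
          simp only [map_mul, map_pow, map_neg, aeval_C, aeval_X]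
          ring
        have hy : ∀ (R : Type) [CommRing R] [Algebra K R] (x y z : R), z = 0 →
            ev E x y z = 0 → -(algebraMap K R α⁻¹ * (algebraMap K R β * x ^ 2)) = y := by
          intro R _ _ x y z h1 h2
          rw [hEe, h1] at h2
          have h3 := hα' R
          linear_combination y * h3 - algebraMap K R α⁻¹ * h2
        exact
          { hom := fun {R} _ _ x => ⟨(x.1.1.1.1, x.1.1.1.2.2.2), by
                have h1 : ev E x.1.1.1.1 x.1.1.1.2.1 x.1.1.1.2.2.1 = 0 := x.1.2
                have h2 : ev (MvPolynomial.X 2) x.1.1.1.1 x.1.1.1.2.1 x.1.1.1.2.2.1 = 0 := x.2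
                rw [ev_X] at h2
                have h2' : x.1.1.1.2.2.1 = 0 := h2
                have h3 : x.1.1.1.2.2.2 ^ 2 - ev F x.1.1.1.1 x.1.1.1.2.1 x.1.1.1.2.2.1 = 0 :=
                  x.1.1.2
                rw [hFx.ev, h2', ← hy R _ _ _ h2' h1, ← ev1] at h3
                exact h3⟩
            inv := fun {R} _ _ y => ⟨⟨⟨(y.1.1,
                -(algebraMap K R α⁻¹ * (algebraMap K R β * y.1.1 ^ 2)), 0, y.1.2), by
                have h1 : y.1.2 ^ 2 - aeval y.1.1 (C (a * (-(α⁻¹ * β)) ^ 3) * X ^ 6 : K[X]) = 0 :=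
                  y.2
                rw [ev1] at h1
                change y.1.2 ^ 2 - ev F y.1.1 _ 0 = 0
                rw [hFx.ev]
                exact h1⟩, by
                change ev E y.1.1 (-(algebraMap K R α⁻¹ * (algebraMap K R β * y.1.1 ^ 2))) 0 = 0
                rw [hEe]
                have h3 := hα' R
                linear_combination (-(algebraMap K R β * y.1.1 ^ 2)) * h3⟩, by
                change ev (MvPolynomial.X 2) y.1.1 _ 0 = 0
                rw [ev_X]
                rfl⟩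
            inv_hom := fun {R} _ _ x => by
                have h1 : ev E x.1.1.1.1 x.1.1.1.2.1 x.1.1.1.2.2.1 = 0 := x.1.2
                have h2 : ev (MvPolynomial.X 2) x.1.1.1.1 x.1.1.1.2.1 x.1.1.1.2.2.1 = 0 := x.2
                rw [ev_X] at h2
                have h2' : x.1.1.1.2.2.1 = 0 := h2
                exact Subtype.ext (Subtype.ext (Subtype.ext (Prod.ext rfl (Prod.ext
                  (hy R _ _ _ h2' h1) (Prod.ext h2'.symm rfl)))))
            hom_inv := fun _ => rfl
            nat := fun {R S} _ _ _ _ f x => rfl }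
    · refine Mem.of_iso (F' := (CW F).cls (CW.c F (MvPolynomial.X 2))) ?_ (mem_CWz hG hF hFx)
      exact
        { hom := fun {R} _ _ x => ⟨x.1.1, x.2⟩
          inv := fun {R} _ _ x => ⟨⟨x.1, by
              have h1 : ev (MvPolynomial.X 2) x.1.1.1 x.1.1.2.1 x.1.1.2.2.1 = 0 := x.2
              change ev (E * MvPolynomial.X 2) x.1.1.1 x.1.1.2.1 x.1.1.2.2.1 = 0
              rw [ev_mul, h1, mul_zero]⟩, x.2⟩
          inv_hom := fun _ => rfl
          hom_inv := fun _ => rfl
          nat := fun _ _ => rfl }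

end Pool.Agent.Helper49.TP
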