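import Pool.Agent.Helper49.TP.Fib

/-!
# Cones over cubic surfaces with a vertex
-/

set_option autoImplicit false

namespace Pool.Agent.Helper49.TP

open Pool.Agent.Helper29.CQ Pool.Agent.Helper65.CC Pool.Agent.Helper87.CC
  Pool.Agent.Helper65.CC.KFn
open Pool.Agent.Helper9.QP (A4 isoA4 mem_A4 Cst)
open Pool.Agent.Helper9.TP (CU InvU InvP FibT)
open Pool.Agent.Helper71.CP (ev ev_map ev_mul ev_pow)

variable {k K : Type} [Field k] [Field K] [Algebra k K]
  {G : ∀ (R : Type) [CommRing R] [Algebra K R], Prop}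

/-- characteristic three: the cone is constant -/
theorem mem_cst3 [Finite k] (hG : GOps K G) (hW : Cst k G) (F Q : MvPolynomial (Fin 3) k)
    (hF : F.IsHomogeneous 3) (hF0 : F ≠ 0) (e : K) (w : Fin 3 → K)
    (h1 : ∀ (R : Type) [CommRing R] [Algebra K R] (x y z t : R),
      ev (up3 K Q) (x + t * algebraMap K R (w 0)) (y + t * algebraMap K R (w 1))
        (z + t * algebraMap K R (w 2)) = ev (up3 K Q) x y z)
    (h2 : ∀ (R : Type) [CommRing R] [Algebra K R] (x y z t : R),
      ev (up3 K F) (x + t * algebraMap K R (w 0)) (y + t * algebraMap K R (w 1))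
        (z + t * algebraMap K R (w 2)) = ev (up3 K F) x y z + t * ev (up3 K Q) x y z -
          algebraMap K R e * t ^ 3) :
    (CU (up3 K F) (up3 K Q) e).Mem G := by
  refine Mem.of_iso (F' := ((A3 K).cls (g3 (up3 K F))).line) ?_
    (Mem.line hG.toKOps (mem_B hG.toKOps hW F hF hF0))
  exact
    { hom := fun {R} _ _ x => (⟨(x.1.1 + (-x.1.2.2.2) * algebraMap K R (w 0),
        x.1.2.1 + (-x.1.2.2.2) * algebraMap K R (w 1),
        x.1.2.2.1 + (-x.1.2.2.2) * algebraMap K R (w 2)), by
          have h3 := cu_eq _ _ _ x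
          have h4 := h2 R x.1.1 x.1.2.1 x.1.2.2.1 (-x.1.2.2.2)
          refine h4.trans ?_
          linear_combination h3⟩, x.1.2.2.2)
      inv := fun {R} _ _ y => ⟨(y.1.1.1 + y.2 * algebraMap K R (w 0),
        y.1.1.2.1 + y.2 * algebraMap K R (w 1), y.1.1.2.2 + y.2 * algebraMap K R (w 2), y.2), by
          have h3 : ev (up3 K F) y.1.1.1 y.1.1.2.1 y.1.1.2.2 = 0 := y.1.2
          have h4 := h2 R y.1.1.1 y.1.1.2.1 y.1.1.2.2 y.2
          have h5 := h1 R y.1.1.1 y.1.1.2.1 y.1.1.2.2 y.2
          change ev (up3 K F) (y.1.1.1 + y.2 * algebraMap K R (w 0))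
            (y.1.1.2.1 + y.2 * algebraMap K R (w 1)) (y.1.1.2.2 + y.2 * algebraMap K R (w 2)) -
            y.2 * ev (up3 K Q) (y.1.1.1 + y.2 * algebraMap K R (w 0))
            (y.1.1.2.1 + y.2 * algebraMap K R (w 1)) (y.1.1.2.2 + y.2 * algebraMap K R (w 2)) +
            algebraMap K R e * y.2 ^ 3 = 0
          rw [h4, h5, h3]
          ring⟩
      inv_hom := fun {R} _ _ x => by
        refine Subtype.ext (Prod.ext ?_ (Prod.ext ?_ (Prod.ext ?_ rfl)))
        · change x.1.1 + (-x.1.2.2.2) * algebraMap K R (w 0) +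
            x.1.2.2.2 * algebraMap K R (w 0) = x.1.1
          ring
        · change x.1.2.1 + (-x.1.2.2.2) * algebraMap K R (w 1) +
            x.1.2.2.2 * algebraMap K R (w 1) = x.1.2.1
          ring
        · change x.1.2.2.1 + (-x.1.2.2.2) * algebraMap K R (w 2) +
            x.1.2.2.2 * algebraMap K R (w 2) = x.1.2.2.1
          ring
      hom_inv := fun {R} _ _ y => by
        refine Prod.ext (Subtype.ext (Prod.ext ?_ (Prod.ext ?_ ?_))) rfl
        · change y.1.1.1 + y.2 * algebraMap K R (w 0) + (-y.2) * algebraMap K R (w 0) = y.1.1.1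
          ring
        · change y.1.1.2.1 + y.2 * algebraMap K R (w 1) + (-y.2) * algebraMap K R (w 1) =
            y.1.1.2.1
          ring
        · change y.1.1.2.2 + y.2 * algebraMap K R (w 2) + (-y.2) * algebraMap K R (w 2) =
            y.1.1.2.2
          ring
      nat := fun {R S} _ _ _ _ f x => by
        refine Prod.ext (Subtype.ext (Prod.ext ?_ (Prod.ext ?_ ?_))) rfl
        · change f (x.1.1 + (-x.1.2.2.2) * algebraMap K R (w 0)) =
            f x.1.1 + (-f x.1.2.2.2) * algebraMap K S (w 0)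
          rw [map_add, map_mul, map_neg, AlgHom.commutes]
        · change f (x.1.2.1 + (-x.1.2.2.2) * algebraMap K R (w 1)) =
            f x.1.2.1 + (-f x.1.2.2.2) * algebraMap K S (w 1)
          rw [map_add, map_mul, map_neg, AlgHom.commutes]
        · change f (x.1.2.2.1 + (-x.1.2.2.2) * algebraMap K R (w 2)) =
            f x.1.2.2.1 + (-f x.1.2.2.2) * algebraMap K S (w 2)
          rw [map_add, map_mul, map_neg, AlgHom.commutes] }

/-- **(G2)** the cone with a vertex -/
theorem cu_inv (h2 : (2 : K) ≠ 0) (hG : GOps K G) [Finite k] (hW : Cst k G)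
    (F Q : MvPolynomial (Fin 3) k) (hF : F.IsHomogeneous 3) (hF0 : F ≠ 0) (e : K) (he : e ≠ 0)
    (v : Fin 4 → K) (hv : v ≠ 0)
    (h : InvU (MvPolynomial.map (algebraMap k K) F) (MvPolynomial.map (algebraMap k K) Q) e v) :
    (CU (MvPolynomial.map (algebraMap k K) F) (MvPolynomial.map (algebraMap k K) Q) e).Mem G ∨
    ∃ u : Fin 3 → K, u ≠ 0 ∧ InvP (MvPolynomial.map (algebraMap k K) F) u ∧
      InvP (MvPolynomial.map (algebraMap k K) Q) u := by
  have h3 : 3 * v 3 = 0 := by
    have a0 := h K 0 0 0 0 1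
    have a1 := h K 0 0 0 1 1
    have a2 := h K 0 0 0 (-1) 1
    simp only [Algebra.algebraMap_self, RingHom.id_apply] at a0 a1 a2
    have a3 : 2 * e * (3 * v 3) = 0 := by linear_combination a1 + a2 - 2 * a0
    exact (mul_eq_zero.1 a3).resolve_left (mul_ne_zero h2 he)
  have e0 : ∀ (R : Type) [CommRing R] [Algebra K R] (x y z t : R),
      ev (up3 K Q) (x + t * algebraMap K R (v 0)) (y + t * algebraMap K R (v 1))
        (z + t * algebraMap K R (v 2)) = ev (up3 K Q) x y z := by
    intro R _ _ x y z t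
    have a0 := h R x y z 0 t
    have a1 := h R x y z 1 t
    have a3 := congrArg (algebraMap K R) h3
    simp only [map_mul, map_ofNat, map_zero] at a3
    linear_combination a0 - a1 + algebraMap K R e * t * (1 + t * algebraMap K R (v 3)) * a3
  have e1 : ∀ (R : Type) [CommRing R] [Algebra K R] (x y z t : R),
      ev (up3 K F) (x + t * algebraMap K R (v 0)) (y + t * algebraMap K R (v 1))
        (z + t * algebraMap K R (v 2)) = ev (up3 K F) x y z +
          t * algebraMap K R (v 3) * ev (up3 K Q) x y z -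
          algebraMap K R e * (t * algebraMap K R (v 3)) ^ 3 := by
    intro R _ _ x y z t
    have a0 := h R x y z 0 t
    have a1 := e0 R x y z t
    linear_combination a0 + t * algebraMap K R (v 3) * a1
  by_cases hv3 : v 3 = 0
  · right
    refine ⟨![v 0, v 1, v 2], ?_, ?_, ?_⟩
    · intro h0
      apply hv
      funext i
      fin_cases i
      · exact congrFun h0 0
      · exact congrFun h0 1
      · exact congrFun h0 2
      · exact hv3
    · intro R _ _ x y z t
      refine (e1 R x y z t).trans ?_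
      rw [hv3, map_zero]
      ring
    · intro R _ _ x y z t
      exact e0 R x y z t
  · left
    refine mem_cst3 hG hW F Q hF hF0 e ![v 0 * (v 3)⁻¹, v 1 * (v 3)⁻¹, v 2 * (v 3)⁻¹] ?_ ?_
    · intro R _ _ x y z t
      have a0 := e0 R x y z (t * algebraMap K R (v 3)⁻¹)
      rw [← a0]
      change ev (up3 K Q) (x + t * algebraMap K R (v 0 * (v 3)⁻¹))
        (y + t * algebraMap K R (v 1 * (v 3)⁻¹)) (z + t * algebraMap K R (v 2 * (v 3)⁻¹)) = _
      simp only [map_mul]
      congr 1 <;> ring
    · intro R _ _ x y z t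
      have a0 := e1 R x y z (t * algebraMap K R (v 3)⁻¹)
      have a1 : algebraMap K R (v 3)⁻¹ * algebraMap K R (v 3) = 1 := by
        rw [← map_mul, inv_mul_cancel₀ hv3, map_one]
      have a2 : t * algebraMap K R (v 3)⁻¹ * algebraMap K R (v 3) = t := by
        rw [mul_assoc, a1, mul_one]
      rw [a2] at a0
      rw [← a0]
      change ev (up3 K F) (x + t * algebraMap K R (v 0 * (v 3)⁻¹))
        (y + t * algebraMap K R (v 1 * (v 3)⁻¹)) (z + t * algebraMap K R (v 2 * (v 3)⁻¹)) = _
      simp only [map_mul]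
      congr 1 <;> ring

end Pool.Agent.Helper49.TP
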